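import Pool.Agent.H66.SyM.Rep

/-! Spin 3/2: the vectors cv a c (cubes of linear forms) and the flows of J2, J3. -/

set_option autoImplicit false

open scoped ContDiff Topology

namespace Pool.Agent.H66.SyM

open Pool.Agent.H66.SyL

variable (b : OrthonormalBasis (Fin 4) ℂ (E 3))

/-- The cube of the linear form a x + c y. -/
noncomputable def cv (a c : ℂ) : E 3 :=
  a ^ 3 • b 0 + ((√3 : ℝ) * (a ^ 2 * c) : ℂ) • b 1 + ((√3 : ℝ) * (a * c ^ 2) : ℂ) • b 2 + c ^ 3 • b 3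

/-- The spin 3/2 ladder. -/
def L3 (J1 J2 J3 : Op 3) : Prop :=
  Ladder b J1 J2 J3 ![3 / 2, 1 / 2, -(1 / 2), -(3 / 2)] ![√3, 2, √3, 0]

private noncomputable def cvc (a c : ℂ) : Fin 4 → ℂ :=
  ![a ^ 3, (√3 : ℝ) * (a ^ 2 * c), (√3 : ℝ) * (a * c ^ 2), c ^ 3]

private theorem cv_sum (a c : ℂ) : cv b a c = ∑ k, cvc a c k • b k := by
  rw [Fin.sum_univ_four]
  rfl

private theorem sq3 : (((√3 : ℝ) : ℂ)) * ((√3 : ℝ) : ℂ) = 3 := by
  rw [← Complex.ofReal_mul, Real.mul_self_sqrt (by norm_num)]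
  norm_num

private theorem chA_ham_basis (w : Fin 4 → ℝ) (k : Fin 4) :
    ham (n := 3) b w (b k) = ((w k : ℝ) : ℂ) • b k := by
  have h : ∀ j : Fin 4, (((w j : ℝ) : ℂ) • pt (b j)) (b k) =
      if j = k then ((w k : ℝ) : ℂ) • b k else 0 := by
    intro j
    have h1 : (pt (b j)) (b k) = (inner ℂ (b j) (b k) : ℂ) • b j := by
      simp [pt]
    rw [smul_apply, h1]
    by_cases hjk : j = k
    · subst hjk
      simp
    · rw [if_neg hjk, b.inner_eq_zero hjk]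
      simp
  unfold ham
  rw [sum_apply, Finset.sum_congr rfl fun j _ => h j]
  simp

/-- The vector of the Chiang Lagrangian with parameters a, c. -/
theorem chco_cv (a c : ℂ) : ∑ k, chco a c k • b k =
    ((1 / √2 : ℝ) : ℂ) • (cv b a c + cv b (-(starRingEnd ℂ c)) (starRingEnd ℂ a)) := by
  rw [cv_sum, cv_sum, ← Finset.sum_add_distrib, Finset.smul_sum]
  apply Finset.sum_congr rfl
  intro k _
  rw [← add_smul, smul_smul]
  congr 1
  have h2 : ((1 / √2 : ℝ) : ℂ) = 1 / ((√2 : ℝ) : ℂ) := by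
    push_cast
    rfl
  rw [h2]
  fin_cases k
  · show (a ^ 3 - (starRingEnd ℂ c) ^ 3) / (√2 : ℝ) =
      1 / ((√2 : ℝ) : ℂ) * (a ^ 3 + (-(starRingEnd ℂ c)) ^ 3)
    ring
  · show (√3 : ℝ) * (a ^ 2 * c + (starRingEnd ℂ a) * (starRingEnd ℂ c) ^ 2) / (√2 : ℝ) =
      1 / ((√2 : ℝ) : ℂ) * ((√3 : ℝ) * (a ^ 2 * c) +
        (√3 : ℝ) * ((-(starRingEnd ℂ c)) ^ 2 * (starRingEnd ℂ a)))
    ring
  · show (√3 : ℝ) * (a * c ^ 2 - (starRingEnd ℂ a) ^ 2 * (starRingEnd ℂ c)) / (√2 : ℝ) =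
      1 / ((√2 : ℝ) : ℂ) * ((√3 : ℝ) * (a * c ^ 2) +
        (√3 : ℝ) * ((-(starRingEnd ℂ c)) * (starRingEnd ℂ a) ^ 2))
    ring
  · show (c ^ 3 + (starRingEnd ℂ a) ^ 3) / (√2 : ℝ) =
      1 / ((√2 : ℝ) : ℂ) * (c ^ 3 + (starRingEnd ℂ a) ^ 3)
    ring

/-- J3 cv: the eigenvalues are 3/2, 1/2, -1/2, -3/2; exp_eigen on each b k -/
theorem exp_cv3 {J1 J2 J3 : Op 3} (h : L3 b J1 J2 J3) (t : ℝ) (a c : ℂ) :
    NormedSpace.exp (Complex.I • (t • J3)) (cv b a c) =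
      cv b (Complex.exp ((t / 2 : ℝ) * Complex.I) * a)
        (Complex.exp (((-(t / 2)) : ℝ) * Complex.I) * c) := by
  rw [cv_sum, cv_sum, map_sum]
  apply Finset.sum_congr rfl
  intro k _
  have hk : J3 (b k) = (((![3 / 2, 1 / 2, -(1 / 2), -(3 / 2)] : Fin 4 → ℝ) k : ℝ) : ℂ) • b k := by
    rw [h.1]
    exact chA_ham_basis b _ k
  rw [map_smul, exp_eigen hk t, smul_smul]
  congr 1
  fin_cases k
  · show a ^ 3 * Complex.exp ((3 / 2 * t : ℝ) * Complex.I) =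
      (Complex.exp ((t / 2 : ℝ) * Complex.I) * a) ^ 3
    rw [mul_pow, ← Complex.exp_nat_mul, mul_comm]
    congr 2
    push_cast
    ring
  · show (√3 : ℝ) * (a ^ 2 * c) * Complex.exp ((1 / 2 * t : ℝ) * Complex.I) =
      (√3 : ℝ) * ((Complex.exp ((t / 2 : ℝ) * Complex.I) * a) ^ 2 *
        (Complex.exp (((-(t / 2)) : ℝ) * Complex.I) * c))
    have e1 : Complex.exp ((1 / 2 * t : ℝ) * Complex.I) =
        Complex.exp ((t / 2 : ℝ) * Complex.I) ^ 2 *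
          Complex.exp (((-(t / 2)) : ℝ) * Complex.I) := by
      rw [← Complex.exp_nat_mul, ← Complex.exp_add]
      congr 1
      push_cast
      ring
    rw [e1]
    ring
  · show (√3 : ℝ) * (a * c ^ 2) * Complex.exp ((-(1 / 2) * t : ℝ) * Complex.I) =
      (√3 : ℝ) * ((Complex.exp ((t / 2 : ℝ) * Complex.I) * a) *
        (Complex.exp (((-(t / 2)) : ℝ) * Complex.I) * c) ^ 2)
    have e1 : Complex.exp ((-(1 / 2) * t : ℝ) * Complex.I) =
        Complex.exp ((t / 2 : ℝ) * Complex.I) *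
          Complex.exp (((-(t / 2)) : ℝ) * Complex.I) ^ 2 := by
      rw [← Complex.exp_nat_mul, ← Complex.exp_add]
      congr 1
      push_cast
      ring
    rw [e1]
    ring
  · show c ^ 3 * Complex.exp ((-(3 / 2) * t : ℝ) * Complex.I) =
      (Complex.exp (((-(t / 2)) : ℝ) * Complex.I) * c) ^ 3
    rw [mul_pow, ← Complex.exp_nat_mul, mul_comm]
    congr 2
    push_cast
    ring

/-- i J2 = (up - lo)/2; exp_unique: the right side z(t) satisfies z' = i J2 z. With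
a' = c/2, c' = -a/2: both are (3/2) a^2 c b0 + sqrt 3 (a c^2 - a^3/2) b1 + sqrt 3 (c^3/2 - a^2 c) b2
- (3/2) a c^2 b3. -/
theorem exp_cv2 {J1 J2 J3 : Op 3} (su : Su2 J1 J2 J3) (h : L3 b J1 J2 J3) (t : ℝ) (a c : ℂ) :
    NormedSpace.exp (Complex.I • (t • J2)) (cv b a c) =
      cv b (a * (Real.cos (t / 2) : ℝ) + c * (Real.sin (t / 2) : ℝ))
        (-(a * (Real.sin (t / 2) : ℝ)) + c * (Real.cos (t / 2) : ℝ)) := by
  have hlo := h.2
  have hup := fun k : Fin 4 => up_ladder su h k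
  have l0 : lo J1 J2 (b 0) = ((√3 : ℝ) : ℂ) • b 1 := hlo 0
  have l1 : lo J1 J2 (b 1) = ((2 : ℝ) : ℂ) • b 2 := hlo 1
  have l2 : lo J1 J2 (b 2) = ((√3 : ℝ) : ℂ) • b 3 := hlo 2
  have l3 : lo J1 J2 (b 3) = 0 := by
    have := hlo 3
    rw [this]
    show (((0 : ℝ)) : ℂ) • b (3 + 1) = 0
    simp
  have u1 : up J1 J2 (b 1) = ((√3 : ℝ) : ℂ) • b 0 := hup 0
  have u2 : up J1 J2 (b 2) = ((2 : ℝ) : ℂ) • b 1 := hup 1
  have u3 : up J1 J2 (b 3) = ((√3 : ℝ) : ℂ) • b 2 := hup 2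
  have u0 : up J1 J2 (b 0) = 0 := by
    have h0 : up J1 J2 (b (3 + 1)) = ((0 : ℝ) : ℂ) • b 3 := hup 3
    have h1 : ((3 : Fin 4) + 1) = 0 := rfl
    rw [h1] at h0
    rw [h0]
    simp
  have hJ : ∀ z : E 3, Complex.I • J2 z = (1 / 2 : ℂ) • (up J1 J2 z - lo J1 J2 z) := by
    intro z
    show Complex.I • J2 z = (1 / 2 : ℂ) • ((J1 z + Complex.I • J2 z) - (J1 z - Complex.I • J2 z))
    module
  have hcv : ∀ a c : ℂ, Complex.I • J2 (cv b a c) =
      (3 * a ^ 2 * (c / 2)) • b 0 +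
      (((√3 : ℝ) : ℂ) * (2 * a * (c / 2) * c + a ^ 2 * (-(a / 2)))) • b 1 +
      (((√3 : ℝ) : ℂ) * ((c / 2) * c ^ 2 + a * (2 * c * (-(a / 2))))) • b 2 +
      (3 * c ^ 2 * (-(a / 2))) • b 3 := by
    intro a c
    have h3 := sq3
    rw [hJ]
    unfold cv
    simp only [map_add, map_smul, l0, l1, l2, l3, u0, u1, u2, u3, smul_smul, smul_zero]
    have e0 : (3 * a ^ 2 * (c / 2)) = (1 / 2) * (((√3 : ℝ) : ℂ) * (a ^ 2 * c) * ((√3 : ℝ) : ℂ)) := by
      rw [show ((√3 : ℝ) : ℂ) * (a ^ 2 * c) * ((√3 : ℝ) : ℂ) =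
        (((√3 : ℝ) : ℂ) * ((√3 : ℝ) : ℂ)) * (a ^ 2 * c) by ring, h3]
      ring
    have e3 : (3 * c ^ 2 * (-(a / 2))) =
        -((1 / 2) * (((√3 : ℝ) : ℂ) * (a * c ^ 2) * ((√3 : ℝ) : ℂ))) := by
      rw [show ((√3 : ℝ) : ℂ) * (a * c ^ 2) * ((√3 : ℝ) : ℂ) =
        (((√3 : ℝ) : ℂ) * ((√3 : ℝ) : ℂ)) * (a * c ^ 2) by ring, h3]
      ring
    rw [e0, e3]
    push_cast
    module
  let z : ℝ → E 3 := fun s => cv b (a * (Real.cos (s / 2) : ℝ) + c * (Real.sin (s / 2) : ℝ))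
    (-(a * (Real.sin (s / 2) : ℝ)) + c * (Real.cos (s / 2) : ℝ))
  have hz0 : z 0 = cv b a c := by
    simp [z]
  have hz : ∀ s, HasDerivAt z (Complex.I • J2 (z s)) s := by
    intro s
    have hc : HasDerivAt (fun s : ℝ => ((Real.cos (s / 2) : ℝ) : ℂ))
        ((-Real.sin (s / 2) * (1 / 2) : ℝ) : ℂ) s := by
      have h1 : HasDerivAt (fun s : ℝ => s / 2) (1 / 2) s := by
        simpa using (hasDerivAt_id s).div_const 2
      exact (h1.cos).ofReal_comp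
    have hs : HasDerivAt (fun s : ℝ => ((Real.sin (s / 2) : ℝ) : ℂ))
        ((Real.cos (s / 2) * (1 / 2) : ℝ) : ℂ) s := by
      have h1 : HasDerivAt (fun s : ℝ => s / 2) (1 / 2) s := by
        simpa using (hasDerivAt_id s).div_const 2
      exact (h1.sin).ofReal_comp
    set A : ℝ → ℂ := fun s => a * (Real.cos (s / 2) : ℝ) + c * (Real.sin (s / 2) : ℝ) with hA
    set C : ℝ → ℂ := fun s => -(a * (Real.sin (s / 2) : ℝ)) + c * (Real.cos (s / 2) : ℝ) with hC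
    have hA' : HasDerivAt A (C s / 2) s := by
      have h2 := (hc.const_mul a).add (hs.const_mul c)
      have h3 : a * ((-Real.sin (s / 2) * (1 / 2) : ℝ) : ℂ) +
          c * ((Real.cos (s / 2) * (1 / 2) : ℝ) : ℂ) = C s / 2 := by
        simp only [hC]
        push_cast
        ring
      rw [h3] at h2
      exact h2
    have hC' : HasDerivAt C (-(A s / 2)) s := by
      have h2 := ((hs.const_mul a).neg).add (hc.const_mul c)
      have h3 : -(a * ((Real.cos (s / 2) * (1 / 2) : ℝ) : ℂ)) +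
          c * ((-Real.sin (s / 2) * (1 / 2) : ℝ) : ℂ) = -(A s / 2) := by
        simp only [hA]
        push_cast
        ring
      rw [h3] at h2
      exact h2
    rw [show z s = cv b (A s) (C s) from rfl, hcv (A s) (C s)]
    have d0 : HasDerivAt (fun s => A s ^ 3) (3 * A s ^ 2 * (C s / 2)) s := by
      have e : ((3 : ℕ) : ℂ) * A s ^ (3 - 1) * (C s / 2) = 3 * A s ^ 2 * (C s / 2) := by
        norm_num
      have h4 := (hA'.pow 3).congr_deriv e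
      exact h4
    have d3 : HasDerivAt (fun s => C s ^ 3) (3 * C s ^ 2 * (-(A s / 2))) s := by
      have e : ((3 : ℕ) : ℂ) * C s ^ (3 - 1) * (-(A s / 2)) = 3 * C s ^ 2 * (-(A s / 2)) := by
        norm_num
      have h4 := (hC'.pow 3).congr_deriv e
      exact h4
    have q1 : HasDerivAt (fun s => A s ^ 2) (2 * A s * (C s / 2)) s := by
      have e : ((2 : ℕ) : ℂ) * A s ^ (2 - 1) * (C s / 2) = 2 * A s * (C s / 2) := by
        norm_num
      have h4 := (hA'.pow 2).congr_deriv e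
      exact h4
    have q2 : HasDerivAt (fun s => C s ^ 2) (2 * C s * (-(A s / 2))) s := by
      have e : ((2 : ℕ) : ℂ) * C s ^ (2 - 1) * (-(A s / 2)) = 2 * C s * (-(A s / 2)) := by
        norm_num
      have h4 := (hC'.pow 2).congr_deriv e
      exact h4
    have d1 : HasDerivAt (fun s => ((√3 : ℝ) : ℂ) * (A s ^ 2 * C s))
        (((√3 : ℝ) : ℂ) * (2 * A s * (C s / 2) * C s + A s ^ 2 * (-(A s / 2)))) s :=
      (q1.mul hC').const_mul ((√3 : ℝ) : ℂ)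
    have d2 : HasDerivAt (fun s => ((√3 : ℝ) : ℂ) * (A s * C s ^ 2))
        (((√3 : ℝ) : ℂ) * ((C s / 2) * C s ^ 2 + A s * (2 * C s * (-(A s / 2))))) s :=
      (hA'.mul q2).const_mul ((√3 : ℝ) : ℂ)
    exact (((d0.smul_const (b 0)).add (d1.smul_const (b 1))).add (d2.smul_const (b 2))).add
      (d3.smul_const (b 3))
  have hfin := exp_unique J2 hz t
  rw [hz0] at hfin
  exact hfin.symm

/-- inner products of cubes: third powers -/
theorem inner_cv (a c a' c' : ℂ) :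
    inner ℂ (cv b a c) (cv b a' c') =
      ((starRingEnd ℂ a) * a' + (starRingEnd ℂ c) * c') ^ 3 := by
  rw [cv_sum, cv_sum, b.orthonormal.inner_sum, Fin.sum_univ_four]
  have h3 := sq3
  show (starRingEnd ℂ (a ^ 3)) * a' ^ 3 +
      (starRingEnd ℂ (((√3 : ℝ) : ℂ) * (a ^ 2 * c))) * (((√3 : ℝ) : ℂ) * (a' ^ 2 * c')) +
      (starRingEnd ℂ (((√3 : ℝ) : ℂ) * (a * c ^ 2))) * (((√3 : ℝ) : ℂ) * (a' * c' ^ 2)) +
      (starRingEnd ℂ (c ^ 3)) * c' ^ 3 = _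
  simp only [map_mul, map_pow, Complex.conj_ofReal]
  linear_combination ((starRingEnd ℂ a) ^ 2 * (starRingEnd ℂ c) * (a' ^ 2 * c') +
    (starRingEnd ℂ a) * (starRingEnd ℂ c) ^ 2 * (a' * c' ^ 2)) * h3

end Pool.Agent.H66.SyM
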