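import Pool.Agent.H66.SyM.ChA

/-! Zero level of the moment map. -/

set_option autoImplicit false

open scoped ContDiff Topology

namespace Pool.Agent.H66.SyM

open Pool.Agent.H66.SyL

variable (b : OrthonormalBasis (Fin 4) ℂ (E 3))

/-- Zero level of the moment map. -/
def Zl (J1 J2 J3 : Op 3) (z : E 3) : Prop :=
  ‖z‖ = 1 ∧ inner ℂ z (J1 z) = 0 ∧ inner ℂ z (J2 z) = 0 ∧ inner ℂ z (J3 z) = 0

private theorem inner_exp {A : Op 3} (hA : IsSelfAdjoint A) (u v : E 3) :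
    inner ℂ (NormedSpace.exp (Complex.I • A) u) (NormedSpace.exp (Complex.I • A) v) =
      inner ℂ u v := by
  let F : E 3 →ₗᵢ[ℂ] E 3 :=
    ⟨((NormedSpace.exp (Complex.I • A) : Op 3) : E 3 →ₗ[ℂ] E 3), fun z => norm_exp hA z⟩
  exact F.inner_map_map u v

private theorem exp_mul_neg (X : Op 3) : NormedSpace.exp X * NormedSpace.exp (-X) = 1 := by
  let : NormedAlgebra ℚ (Op 3) := NormedAlgebra.restrictScalars ℚ ℂ (Op 3)
  rw [← NormedSpace.exp_add_of_commute ((Commute.refl X).neg_right), add_neg_cancel,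
    NormedSpace.exp_zero]

private theorem rsm (t : ℝ) (A : Op 3) (w : E 3) : (t • A : Op 3) w = (t : ℂ) • A w := by
  rw [Complex.coe_smul]
  rfl

private theorem sa_smul {A : Op 3} (hA : IsSelfAdjoint A) (t : ℝ) : IsSelfAdjoint (t • A) := by
  rw [ContinuousLinearMap.isSelfAdjoint_iff_isSymmetric] at hA ⊢
  intro u v
  have h := hA u v
  show inner ℂ ((t • A : Op 3) u) v = inner ℂ u ((t • A : Op 3) v)
  rw [rsm, rsm, inner_smul_left, inner_smul_right, Complex.conj_ofReal]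
  congr 1

private theorem inner_cj {A : Op 3} (hA : IsSelfAdjoint A) (B : Op 3) (z : E 3) (t : ℝ) :
    inner ℂ (NormedSpace.exp (Complex.I • (t • A)) z)
      (B (NormedSpace.exp (Complex.I • (t • A)) z)) = inner ℂ z (cj ((-t) • A) B z) := by
  have hs : IsSelfAdjoint (t • A) := sa_smul hA t
  have e1 : Complex.I • ((-t) • A) = -(Complex.I • (t • A)) := by
    refine ContinuousLinearMap.ext fun w => ?_
    show Complex.I • (((-t) • A : Op 3) w) = -(Complex.I • ((t • A : Op 3) w))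
    rw [rsm, rsm, Complex.ofReal_neg, neg_smul, smul_neg]
  have e2 : B (NormedSpace.exp (Complex.I • (t • A)) z) =
      NormedSpace.exp (Complex.I • (t • A)) (cj ((-t) • A) B z) := by
    have e3 : NormedSpace.exp (Complex.I • (t • A)) * cj ((-t) • A) B =
        B * NormedSpace.exp (Complex.I • (t • A)) := by
      unfold cj
      rw [e1, neg_neg, ← mul_assoc, ← mul_assoc, exp_mul_neg, one_mul]
    have e4 := congrArg (fun T : Op 3 => T z) e3
    exact e4.symm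
  rw [e2, inner_exp hs]

private theorem cj_eq (A : Op 3) {B C : Op 3} (h1 : br A B = -C) (h2 : br A C = B) (s : ℝ) :
    cj (s • A) B = Real.cos s • B - Real.sin s • C := by
  have hg : ∀ t ∈ Set.Ioo (-(|s| + 1)) (|s| + 1),
      HasDerivAt (fun t : ℝ => Real.cos t • B - Real.sin t • C)
        (br A (Real.cos t • B - Real.sin t • C)) t := by
    intro t _
    have h3 : br A (Real.cos t • B - Real.sin t • C) = (-Real.sin t) • B - Real.cos t • C := by
      refine ContinuousLinearMap.ext fun w => ?_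
      have k1 : Complex.I • (A (B w) - B (A w)) = -(C w) := congrArg (fun T : Op 3 => T w) h1
      have k2 : Complex.I • (A (C w) - C (A w)) = B w := congrArg (fun T : Op 3 => T w) h2
      show Complex.I • (A ((Real.cos t • B : Op 3) w - (Real.sin t • C : Op 3) w) -
        ((Real.cos t • B : Op 3) (A w) - (Real.sin t • C : Op 3) (A w))) =
        ((-Real.sin t) • B : Op 3) w - (Real.cos t • C : Op 3) w
      simp only [rsm, map_sub, map_smul]
      have k3 : Complex.I • (((Real.cos t : ℝ) : ℂ) • A (B w) - ((Real.sin t : ℝ) : ℂ) • A (C w) -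
          (((Real.cos t : ℝ) : ℂ) • B (A w) - ((Real.sin t : ℝ) : ℂ) • C (A w))) =
          ((Real.cos t : ℝ) : ℂ) • (Complex.I • (A (B w) - B (A w))) -
            ((Real.sin t : ℝ) : ℂ) • (Complex.I • (A (C w) - C (A w))) := by module
      rw [k3, k1, k2, Complex.ofReal_neg]
      module
    rw [h3]
    exact ((Real.hasDerivAt_cos t).smul_const B).sub ((Real.hasDerivAt_sin t).smul_const C)
  have ha : 0 < |s| + 1 := by positivity
  have hs : s ∈ Set.Ioo (-(|s| + 1)) (|s| + 1) := by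
    constructor
    · linarith [neg_abs_le s]
    · linarith [le_abs_self s]
  have h := ode_unique A ha hg s hs
  have h0 : Real.cos 0 • B - Real.sin 0 • C = B := by
    refine ContinuousLinearMap.ext fun w => ?_
    show (Real.cos 0 • B : Op 3) w - (Real.sin 0 • C : Op 3) w = B w
    rw [rsm, rsm, Real.cos_zero, Real.sin_zero]
    simp
  rw [h0] at h
  exact h.symm

private theorem cj_self (A : Op 3) (s : ℝ) : cj (s • A) A = A := by
  have hg : ∀ t ∈ Set.Ioo (-(|s| + 1)) (|s| + 1),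
      HasDerivAt (fun _ : ℝ => A) (br A A) t := by
    intro t _
    rw [br_self]
    exact hasDerivAt_const t A
  have ha : 0 < |s| + 1 := by positivity
  have hs : s ∈ Set.Ioo (-(|s| + 1)) (|s| + 1) := by
    constructor
    · linarith [neg_abs_le s]
    · linarith [le_abs_self s]
  exact (ode_unique A ha hg s hs).symm

private theorem inner_zero {A : Op 3} (hA : IsSelfAdjoint A) {B C : Op 3} (h1 : br A B = -C)
    (h2 : br A C = B) {z : E 3} (hB : inner ℂ z (B z) = 0) (hC : inner ℂ z (C z) = 0) (t : ℝ) :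
    inner ℂ (NormedSpace.exp (Complex.I • (t • A)) z)
      (B (NormedSpace.exp (Complex.I • (t • A)) z)) = 0 := by
  rw [inner_cj hA, cj_eq A h1 h2]
  have e : ((Real.cos (-t) • B - Real.sin (-t) • C : Op 3)) z =
      ((Real.cos (-t) : ℝ) : ℂ) • B z - ((Real.sin (-t) : ℝ) : ℂ) • C z := by
    rw [Complex.coe_smul, Complex.coe_smul]
    rfl
  rw [e, inner_sub_right, inner_smul_right, inner_smul_right, hB, hC]
  ring

private theorem br_neg_right (A B : Op 3) : br A (-B) = -br A B := by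
  refine ContinuousLinearMap.ext fun w => ?_
  show Complex.I • (A (-(B w)) - -(B (A w))) = -(Complex.I • (A (B w) - B (A w)))
  rw [map_neg]
  module

/-- The zero level is invariant under exp(itJ2), exp(itJ3): H = exp(-itJ3) J1 exp(itJ3) is
cos t J1 plus or minus sin t J2 (differentiate f_k(t) = (z(t), J_k z(t)): f1' = (z, br.. z) gives the linear
system f1' = plus or minus f2, f2' = minus or plus f1, f3' = 0, zero at 0). -/
theorem zl_exp {J1 J2 J3 : Op 3} (su : Su2 J1 J2 J3) {z : E 3} (hz : Zl J1 J2 J3 z) (t : ℝ) :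
    Zl J1 J2 J3 (NormedSpace.exp (Complex.I • (t • J2)) z) ∧
      Zl J1 J2 J3 (NormedSpace.exp (Complex.I • (t • J3)) z) := by
  obtain ⟨s1, s2, s3, h12, h23, h31⟩ := su
  obtain ⟨hn, z1, z2, z3⟩ := hz
  have h21 : br J2 J1 = J3 := by rw [br_comm, h12, neg_neg]
  have h32 : br J3 J2 = J1 := by rw [br_comm, h23, neg_neg]
  have n1 : inner ℂ z ((-J1 : Op 3) z) = 0 := by
    rw [show (-J1 : Op 3) z = -(J1 z) from rfl, inner_neg_right, z1, neg_zero]
  have n3 : inner ℂ z ((-J3 : Op 3) z) = 0 := by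
    rw [show (-J3 : Op 3) z = -(J3 z) from rfl, inner_neg_right, z3, neg_zero]
  refine ⟨⟨?_, ?_, ?_, ?_⟩, ⟨?_, ?_, ?_, ?_⟩⟩
  · rw [norm_exp (sa_smul s2 t), hn]
  · exact inner_zero s2 (B := J1) (C := -J3) (by rw [h21, neg_neg])
      (by rw [br_neg_right, h23, neg_neg]) z1 n3 t
  · rw [inner_cj s2, cj_self, z2]
  · exact inner_zero s2 (B := J3) (C := J1) h23 h21 z3 z1 t
  · rw [norm_exp (sa_smul s3 t), hn]
  · exact inner_zero s3 (B := J1) (C := J2) h31 h32 z1 z2 t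
  · exact inner_zero s3 (B := J2) (C := -J1) (by rw [h32, neg_neg])
      (by rw [br_neg_right, h31, neg_neg]) z2 n1 t
  · rw [inner_cj s3, cj_self, z3]

/-- Proof. Coordinates z0, z1, z2 of z, z3 = 0. (z, J3 z) = 0 and (z, lo z) = 0:
3|z0|^2 + |z1|^2 - |z2|^2 = 0 and sqrt3 conj(z1) z0 + 2 conj(z2) z1 = 0. If z1 is not 0 then
sqrt3 |z0| = 2|z2|, so 3|z2|^2 + |z1|^2 = 0, absurd. So z1 = 0, |z2|^2 = 3|z0|^2, |z0| = 1/2. -/
theorem zl_z3 {J1 J2 J3 : Op 3} (su : Su2 J1 J2 J3) (h : L3 b J1 J2 J3) {z : E 3}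
    (hz : Zl J1 J2 J3 z) (h3 : inner ℂ (b 3) z = 0) :
    inner ℂ (b 1) z = 0 ∧ ‖inner ℂ (b 0) z‖ = 1 / 2 ∧ ‖inner ℂ (b 2) z‖ = √3 / 2 := by
  obtain ⟨hn, j1, j2, j3⟩ := hz
  set z0 : ℂ := inner ℂ (b 0) z with hz0
  set z1 : ℂ := inner ℂ (b 1) z with hz1
  set z2 : ℂ := inner ℂ (b 2) z with hz2
  have hexp : z = z0 • b 0 + z1 • b 1 + z2 • b 2 := by
    have h5 := b.sum_repr' z
    rw [Fin.sum_univ_four] at h5
    rw [← hz0, ← hz1, ← hz2, h3, zero_smul, add_zero] at h5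
    exact h5.symm
  have hconj : ∀ i, inner ℂ z (b i) = (starRingEnd ℂ) (inner ℂ (b i) z) := fun i =>
    (inner_conj_symm _ _).symm
  have hnorm : ‖z0‖ ^ 2 + ‖z1‖ ^ 2 + ‖z2‖ ^ 2 = 1 := by
    have h6 : ∑ i, ‖inner ℂ (b i) z‖ ^ 2 = ‖z‖ ^ 2 := b.sum_sq_norm_inner_right z
    rw [Fin.sum_univ_four, h3, hn, norm_zero] at h6
    rw [← hz0, ← hz1, ← hz2] at h6
    linarith
  have hJ3 : 3 * ‖z0‖ ^ 2 + ‖z1‖ ^ 2 - ‖z2‖ ^ 2 = 0 := by
    have h7 := h.1
    rw [h7] at j3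
    have h8 := inner_ham_self (n := 3) b ![3 / 2, 1 / 2, -(1 / 2), -(3 / 2)] z
    rw [j3] at h8
    have h9 : (∑ k : Fin 4, (![3 / 2, 1 / 2, -(1 / 2), -(3 / 2)] : Fin 4 → ℝ) k *
        ‖inner ℂ (b k) z‖ ^ 2 : ℝ) = 0 := by
      have := h8.symm
      exact_mod_cast this
    rw [Fin.sum_univ_four, h3, norm_zero, ← hz0, ← hz1, ← hz2] at h9
    have h10 : (3 / 2 : ℝ) * ‖z0‖ ^ 2 + 1 / 2 * ‖z1‖ ^ 2 + (-(1 / 2)) * ‖z2‖ ^ 2 +
        (-(3 / 2)) * 0 ^ 2 = 0 := h9
    linarith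
  have hlo0 : lo J1 J2 (b 0) = ((√3 : ℝ) : ℂ) • b 1 := h.2 0
  have hlo1 : lo J1 J2 (b 1) = ((2 : ℝ) : ℂ) • b 2 := h.2 1
  have hlo2 : lo J1 J2 (b 2) = ((√3 : ℝ) : ℂ) • b 3 := h.2 2
  have hloz : inner ℂ z (lo J1 J2 z) = 0 := by
    have e0 : lo J1 J2 z = J1 z - Complex.I • J2 z := rfl
    rw [e0, inner_sub_right, inner_smul_right, j1, j2]
    ring
  have hlo : ((√3 : ℝ) : ℂ) * z0 * (starRingEnd ℂ) z1 + 2 * z1 * (starRingEnd ℂ) z2 = 0 := by
    have e1 : lo J1 J2 z = (z0 * ((√3 : ℝ) : ℂ)) • b 1 + (z1 * ((2 : ℝ) : ℂ)) • b 2 +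
        (z2 * ((√3 : ℝ) : ℂ)) • b 3 := by
      conv_lhs => rw [hexp]
      rw [map_add, map_add, map_smul, map_smul, map_smul, hlo0, hlo1, hlo2, smul_smul, smul_smul,
        smul_smul]
    rw [e1, inner_add_right, inner_add_right, inner_smul_right, inner_smul_right,
      inner_smul_right, hconj 1, hconj 2, hconj 3, h3, map_zero, ← hz1, ← hz2] at hloz
    rw [← hloz]
    push_cast
    ring
  have hnn : √3 * ‖z0‖ * ‖z1‖ = 2 * ‖z1‖ * ‖z2‖ := by
    have e1 : ((√3 : ℝ) : ℂ) * z0 * (starRingEnd ℂ) z1 = -(2 * z1 * (starRingEnd ℂ) z2) :=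
      eq_neg_of_add_eq_zero_left hlo
    have e2 := congrArg norm e1
    rw [norm_neg, norm_mul, norm_mul, norm_mul, norm_mul, RCLike.norm_conj, RCLike.norm_conj,
      Complex.norm_real, Real.norm_eq_abs, abs_of_nonneg (Real.sqrt_nonneg 3)] at e2
    have e3 : ‖(2 : ℂ)‖ = 2 := by simp
    rw [e3] at e2
    exact e2
  have s3 : √3 ^ 2 = 3 := Real.sq_sqrt (by norm_num)
  have hz1' : z1 = 0 := by
    by_contra hne
    have hp : 0 < ‖z1‖ := norm_pos_iff.2 hne
    have e1 : √3 * ‖z0‖ = 2 * ‖z2‖ := by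
      have : (√3 * ‖z0‖) * ‖z1‖ = (2 * ‖z2‖) * ‖z1‖ := by linarith
      exact mul_right_cancel₀ hp.ne' this
    have e2 : 3 * ‖z0‖ ^ 2 = 4 * ‖z2‖ ^ 2 := by
      have : (√3 * ‖z0‖) ^ 2 = (2 * ‖z2‖) ^ 2 := by rw [e1]
      rw [mul_pow, s3] at this
      linarith
    have e3 : 0 ≤ ‖z2‖ ^ 2 := sq_nonneg _
    have e4 : 0 < ‖z1‖ ^ 2 := by positivity
    linarith
  refine ⟨hz1', ?_, ?_⟩
  · rw [hz1', norm_zero] at hJ3 hnorm
    have e1 : ‖z0‖ ^ 2 = (1 / 2) ^ 2 := by linarith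
    exact (pow_left_inj₀ (norm_nonneg _) (by norm_num) (by norm_num)).1 e1
  · rw [hz1', norm_zero] at hJ3 hnorm
    have e1 : ‖z2‖ ^ 2 = (√3 / 2) ^ 2 := by rw [div_pow, s3]; linarith
    exact (pow_left_inj₀ (norm_nonneg _) (by positivity) (by norm_num)).1 e1

end Pool.Agent.H66.SyM
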