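import Pool.Agent.H66.SyM.ChA

/-! Rotating a root. -/

set_option autoImplicit false

open scoped ContDiff Topology

namespace Pool.Agent.H66.SyM

open Pool.Agent.H66.SyL

variable (b : OrthonormalBasis (Fin 4) ℂ (E 3))

private theorem inner_cv_z (z : E 3) (a c : ℂ) :
    inner ℂ (cv b a c) z = (starRingEnd ℂ a) ^ 3 * inner ℂ (b 0) z +
      (√3 : ℝ) * ((starRingEnd ℂ a) ^ 2 * (starRingEnd ℂ c)) * inner ℂ (b 1) z +
      (√3 : ℝ) * ((starRingEnd ℂ a) * (starRingEnd ℂ c) ^ 2) * inner ℂ (b 2) z +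
      (starRingEnd ℂ c) ^ 3 * inner ℂ (b 3) z := by
  unfold cv
  rw [inner_add_left, inner_add_left, inner_add_left, inner_smul_left, inner_smul_left,
    inner_smul_left, inner_smul_left]
  simp only [map_mul, map_pow, Complex.conj_ofReal]

/-- every cubic has a root: with x = conj(a), y = conj(c), f(x, y) = (cv a c, z) is a binary cubic form.
If z 0 = (b 0, z) vanishes take (1, 0). Otherwise c = 1 and a root of a polynomial of degree 3.
Normalise to |a|^2 + |c|^2 = 1. -/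
theorem exists_root (z : E 3) :
    ∃ a c : ℂ, ‖a‖ ^ 2 + ‖c‖ ^ 2 = 1 ∧ inner ℂ (cv b a c) z = 0 := by
  by_cases h0 : (inner ℂ (b 0) z : ℂ) = 0
  · refine ⟨1, 0, by simp, ?_⟩
    rw [inner_cv_z, h0]
    simp
  · obtain ⟨x, hx⟩ := Complex.exists_root (f := Polynomial.C (inner ℂ (b 0) z) * Polynomial.X ^ 3 +
      Polynomial.C ((√3 : ℝ) * inner ℂ (b 1) z) * Polynomial.X ^ 2 +
      Polynomial.C ((√3 : ℝ) * inner ℂ (b 2) z) * Polynomial.X +
      Polynomial.C (inner ℂ (b 3) z)) (by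
        rw [Polynomial.degree_cubic h0]
        norm_num)
    have hx2 : (inner ℂ (b 0) z : ℂ) * x ^ 3 + (√3 : ℝ) * inner ℂ (b 1) z * x ^ 2 +
        (√3 : ℝ) * inner ℂ (b 2) z * x + inner ℂ (b 3) z = 0 := by
      have := hx
      rw [Polynomial.IsRoot.def] at this
      simpa using this
    set r : ℝ := √(‖x‖ ^ 2 + 1) with hr
    have hr0 : 0 < r := Real.sqrt_pos.2 (by positivity)
    have hr2 : r ^ 2 = ‖x‖ ^ 2 + 1 := Real.sq_sqrt (by positivity)
    refine ⟨(starRingEnd ℂ x) * ((1 / r : ℝ) : ℂ), ((1 / r : ℝ) : ℂ), ?_, ?_⟩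
    · rw [norm_mul, RCLike.norm_conj, Complex.norm_real, Real.norm_eq_abs,
        abs_of_pos (by positivity), mul_pow, one_div, inv_pow, hr2]
      field_simp
    · rw [inner_cv_z]
      simp only [map_mul, Complex.conj_ofReal, Complex.conj_conj]
      linear_combination (((1 / r : ℝ) : ℂ)) ^ 3 * hx2

private theorem inner_exp {H : Op 3} (hH : IsSelfAdjoint H) (v w : E 3) :
    inner ℂ (NormedSpace.exp (Complex.I • H) v) (NormedSpace.exp (Complex.I • H) w) =
      inner ℂ v w := by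
  let f : E 3 →ₗᵢ[ℂ] E 3 := ⟨(NormedSpace.exp (Complex.I • H) : Op 3).toLinearMap, fun z =>
    norm_exp hH z⟩
  exact f.inner_map_map v w

private theorem sa_smul {J : Op 3} (hJ : IsSelfAdjoint J) (s : ℝ) : IsSelfAdjoint (s • J) := by
  have h1 : s • J = ((s : ℝ) : ℂ) • J := (Complex.coe_smul s J).symm
  rw [h1]
  exact IsSelfAdjoint.smul (Complex.conj_ofReal s) hJ

/-- Proof. exists_root: (cv a c, z) = 0. Choose t such that exp(it/2) a and exp(-it/2) c have the same
argument, then s with a' cos(s/2) + c' sin(s/2) = 0: exp(isJ2) exp(itJ3) maps cv a c to a multiple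
(modulus one) of cv 0 1 = b 3, and it is unitary (inner product preserved, SyM.Exp). -/
theorem rotate_root {J1 J2 J3 : Op 3} (su : Su2 J1 J2 J3) (h : L3 b J1 J2 J3) (z : E 3) :
    ∃ s t : ℝ, inner ℂ (b 3) (NormedSpace.exp (Complex.I • (s • J2))
      (NormedSpace.exp (Complex.I • (t • J3)) z)) = 0 := by
  obtain ⟨a, c, hac, hz⟩ := exists_root b z
  have h2 : IsSelfAdjoint J2 := su.2.1
  have h3 : IsSelfAdjoint J3 := su.2.2.1
  have ha1 : ‖a‖ ≤ 1 := by
    nlinarith [norm_nonneg a, norm_nonneg c, sq_nonneg ‖c‖]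
  set θ : ℝ := -Real.arcsin ‖a‖ with hθ
  have hsin : Real.sin θ = -‖a‖ := by
    rw [hθ, Real.sin_neg, Real.sin_arcsin (by linarith [norm_nonneg a]) ha1]
  have hcos : Real.cos θ = ‖c‖ := by
    rw [hθ, Real.cos_neg, Real.cos_arcsin]
    rw [show 1 - ‖a‖ ^ 2 = ‖c‖ ^ 2 by linarith, Real.sqrt_sq (norm_nonneg c)]
  set t : ℝ := Complex.arg c - Complex.arg a with ht
  refine ⟨2 * θ, t, ?_⟩
  set w : ℂ := Complex.exp ((((Complex.arg a + Complex.arg c) / 2 : ℝ) : ℂ) * Complex.I) with hw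
  have e1 : Complex.exp ((t / 2 : ℝ) * Complex.I) * a = ‖a‖ * w := by
    conv_lhs => rw [← Complex.norm_mul_exp_arg_mul_I a]
    rw [mul_left_comm, ← Complex.exp_add, hw]
    congr 2
    rw [ht]
    push_cast
    ring
  have e2 : Complex.exp (((-(t / 2)) : ℝ) * Complex.I) * c = ‖c‖ * w := by
    conv_lhs => rw [← Complex.norm_mul_exp_arg_mul_I c]
    rw [mul_left_comm, ← Complex.exp_add, hw]
    congr 2
    rw [ht]
    push_cast
    ring
  have hac' : ((‖a‖ : ℝ) : ℂ) ^ 2 + ((‖c‖ : ℝ) : ℂ) ^ 2 = 1 := by exact_mod_cast hac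
  have hcv : NormedSpace.exp (Complex.I • ((2 * θ) • J2))
      (NormedSpace.exp (Complex.I • (t • J3)) (cv b a c)) = cv b 0 w := by
    rw [exp_cv3 b h, e1, e2, exp_cv2 b su h, mul_div_cancel_left₀ θ (two_ne_zero), hsin, hcos]
    congr 1
    · push_cast
      ring
    · push_cast
      linear_combination w * hac'
  have hin : inner ℂ (cv b 0 w) (NormedSpace.exp (Complex.I • ((2 * θ) • J2))
      (NormedSpace.exp (Complex.I • (t • J3)) z)) = 0 := by
    rw [← hcv, inner_exp (sa_smul h2 (2 * θ)), inner_exp (sa_smul h3 t), hz]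
  rw [inner_cv_z] at hin
  have hw0 : (starRingEnd ℂ w) ≠ 0 := by
    intro h0
    have : w = 0 := by simpa using h0
    exact Complex.exp_ne_zero _ this
  simp only [map_zero] at hin
  have h4 : (starRingEnd ℂ w) ^ 3 * inner ℂ (b 3) (NormedSpace.exp (Complex.I • ((2 * θ) • J2))
      (NormedSpace.exp (Complex.I • (t • J3)) z)) = 0 := by
    rw [← hin]
    ring
  exact (mul_eq_zero.1 h4).resolve_left (pow_ne_zero 3 hw0)

end Pool.Agent.H66.SyM
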