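import Pool.Agent.H66.SyM.ChB1
import Pool.Agent.H66.SyM.ChB2

/-! Spin 3/2: the zero level of the moment map is one orbit. -/

set_option autoImplicit false

open scoped ContDiff Topology

namespace Pool.Agent.H66.SyM

open Pool.Agent.H66.SyL

variable (b : OrthonormalBasis (Fin 4) ℂ (E 3))

private theorem ham_basis (w : Fin 4 → ℝ) (j : Fin 4) :
    ham (n := 3) b w (b j) = ((w j : ℝ) : ℂ) • b j := by
  unfold ham
  rw [sum_apply]
  refine (Finset.sum_eq_single j (fun k _ hk => ?_) (fun h => absurd (Finset.mem_univ j) h)).trans ?_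
  · rw [smul_apply, pt_apply]
    have h1 : inner ℂ (b k) (b j) = (0 : ℂ) := b.orthonormal.2 hk
    rw [h1, zero_smul, smul_zero]
  · rw [smul_apply, pt_apply]
    have h1 : inner ℂ (b j) (b j) = (1 : ℂ) := by
      rw [inner_self_eq_norm_sq_to_K, b.orthonormal.1 j]
      norm_num
    rw [h1, one_smul]

private theorem smul_sa {H : Op 3} (hH : IsSelfAdjoint H) (x : ℝ) : IsSelfAdjoint (x • H) := by
  have h1 : x • H = (x : ℂ) • H := by
    ext v
    rfl
  rw [h1]
  have h2 : IsSelfAdjoint (x : ℂ) := Complex.conj_ofReal x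
  exact h2.smul hH

/-- Proof. rotate_root, zl_exp, zl_z3: now z = z0 b0 + z2 b2, |z0| = 1/2, |z2| = sqrt3/2. exp(irJ3) changes
z2/z0 by exp(-2ir) (exp_eigen), choose r with z2/z0 = sqrt3; then z is a phase times (b0 + sqrt3 b2)/2
and pt_smul. cj_pt. -/
theorem to_base {J1 J2 J3 : Op 3} (su : Su2 J1 J2 J3) (h : L3 b J1 J2 J3) {z : E 3}
    (hz : Zl J1 J2 J3 z) :
    ∃ r s t : ℝ, cj (r • J3) (cj (s • J2) (cj (t • J3) (pt z))) =
      pt ((1 / 2 : ℂ) • (b 0 + ((√3 : ℝ) : ℂ) • b 2)) := by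
  obtain ⟨s, t, hst⟩ := rotate_root b su h z
  set z1 := NormedSpace.exp (Complex.I • (t • J3)) z with hz1
  set z2 := NormedSpace.exp (Complex.I • (s • J2)) z1 with hz2
  have k1 : Zl J1 J2 J3 z1 := (zl_exp su hz t).2
  have k2 : Zl J1 J2 J3 z2 := (zl_exp su k1 s).1
  obtain ⟨e1, n0, n2⟩ := zl_z3 b su h k2 hst
  set u : ℂ := inner ℂ (b 0) z2 with hu
  set v : ℂ := inner ℂ (b 2) z2 with hv
  have hsum : z2 = u • b 0 + v • b 2 := by
    have h1 := b.sum_repr' z2
    rw [Fin.sum_univ_four, e1, hst, zero_smul, zero_smul, add_zero, add_zero] at h1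
    exact h1.symm
  have hu0 : u ≠ 0 := by
    intro h0
    rw [h0, norm_zero] at n0
    norm_num at n0
  have hs3 : (0 : ℝ) < √3 := Real.sqrt_pos.2 (by norm_num)
  -- the phase
  set φ : ℝ := (v / u).arg with hφ
  have hvu : v = ((√3 : ℝ) : ℂ) * u * Complex.exp ((φ : ℂ) * Complex.I) := by
    have h1 := Complex.norm_mul_exp_arg_mul_I (v / u)
    rw [norm_div, n0, n2] at h1
    have h2 : (√3 / 2 / (1 / 2) : ℝ) = √3 := by ring
    rw [h2] at h1
    have h3 : v = v / u * u := (div_mul_cancel₀ v hu0).symm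
    rw [h3, ← h1]
    ring
  set r : ℝ := φ / 2 with hr
  -- selfadjointness
  have sJ3 : ∀ x : ℝ, IsSelfAdjoint (x • J3) := fun x => smul_sa su.2.2.1 x
  have sJ2 : ∀ x : ℝ, IsSelfAdjoint (x • J2) := fun x => smul_sa su.2.1 x
  refine ⟨r, s, t, ?_⟩
  rw [cj_pt (sJ3 t), ← hz1, cj_pt (sJ2 s), ← hz2, cj_pt (sJ3 r)]
  -- eigenvectors
  have g0 : J3 (b 0) = (((3 / 2 : ℝ)) : ℂ) • b 0 := by
    rw [h.1, ham_basis]
    rfl
  have g2 : J3 (b 2) = (((-(1 / 2) : ℝ)) : ℂ) • b 2 := by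
    rw [h.1, ham_basis]
    rfl
  have f0 := exp_eigen g0 r
  have f2 := exp_eigen g2 r
  set w : ℂ := Complex.exp ((3 / 2 * r : ℝ) * Complex.I) * u with hw
  have key : NormedSpace.exp (Complex.I • (r • J3)) z2 =
      (2 * w) • ((1 / 2 : ℂ) • (b 0 + ((√3 : ℝ) : ℂ) • b 2)) := by
    rw [hsum, map_add, map_smul, map_smul, f0, f2]
    have h1 : v * Complex.exp ((-(1 / 2) * r : ℝ) * Complex.I) = w * ((√3 : ℝ) : ℂ) := by
      rw [hvu, hw]
      have h2 : Complex.exp ((φ : ℂ) * Complex.I) * Complex.exp ((-(1 / 2) * r : ℝ) * Complex.I) =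
          Complex.exp ((3 / 2 * r : ℝ) * Complex.I) := by
        rw [← Complex.exp_add]
        congr 1
        have h3 : φ = 2 * r := by rw [hr]; ring
        rw [h3]
        push_cast
        ring
      calc ((√3 : ℝ) : ℂ) * u * Complex.exp ((φ : ℂ) * Complex.I) *
            Complex.exp ((-(1 / 2) * r : ℝ) * Complex.I)
          = ((√3 : ℝ) : ℂ) * u * (Complex.exp ((φ : ℂ) * Complex.I) *
            Complex.exp ((-(1 / 2) * r : ℝ) * Complex.I)) := by ring
        _ = Complex.exp ((3 / 2 * r : ℝ) * Complex.I) * u * ((√3 : ℝ) : ℂ) := by rw [h2]; ring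
    rw [smul_smul, smul_smul, smul_smul, smul_add, smul_smul, h1]
    congr 1
    · congr 1
      rw [hw]
      ring
    · congr 1
      ring
  rw [key]
  apply pt_smul
  rw [norm_mul, hw, norm_mul, n0, Complex.norm_exp_ofReal_mul_I]
  norm_num

end Pool.Agent.H66.SyM
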