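import Pool.Agent.H66.SyM.ChB1

/-! The Chiang set is in the zero level and invariant. -/

set_option autoImplicit false

open scoped ContDiff Topology

namespace Pool.Agent.H66.SyM

open Pool.Agent.H66.SyL

variable (b : OrthonormalBasis (Fin 4) ℂ (E 3))

private theorem sq3' : (((√3 : ℝ) : ℂ)) * ((√3 : ℝ) : ℂ) = 3 := by
  rw [← Complex.ofReal_mul, Real.mul_self_sqrt (by norm_num)]
  norm_num

private theorem ham_basis' (w : Fin 4 → ℝ) (k : Fin 4) :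
    ham (n := 3) b w (b k) = ((w k : ℝ) : ℂ) • b k := by
  have h : ∀ j : Fin 4, (((w j : ℝ) : ℂ) • pt (b j)) (b k) =
      if j = k then ((w k : ℝ) : ℂ) • b k else 0 := by
    intro j
    have h1 : (pt (b j)) (b k) = (inner ℂ (b j) (b k) : ℂ) • b j := by
      simp [pt]
    rw [smul_apply, h1]
    by_cases hjk : j = k
    · subst hjk
      simp
    · rw [if_neg hjk, b.inner_eq_zero hjk]
      simp
  unfold ham
  rw [sum_apply, Finset.sum_congr rfl fun j _ => h j]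
  simp

/-- the derivative of the cube in the direction (x, y) -/
private noncomputable def dcv (a c x y : ℂ) : E 3 :=
  (3 * a ^ 2 * x) • b 0 + (((√3 : ℝ) : ℂ) * (2 * a * x * c + a ^ 2 * y)) • b 1 +
    (((√3 : ℝ) : ℂ) * (x * c ^ 2 + 2 * a * c * y)) • b 2 + (3 * c ^ 2 * y) • b 3

private theorem inner_dcv (a c a' c' x y : ℂ) :
    inner ℂ (cv b a c) (dcv b a' c' x y) =
      3 * ((starRingEnd ℂ a) * a' + (starRingEnd ℂ c) * c') ^ 2 *
        ((starRingEnd ℂ a) * x + (starRingEnd ℂ c) * y) := by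
  have e1 : cv b a c = ∑ k, (![a ^ 3, (√3 : ℝ) * (a ^ 2 * c), (√3 : ℝ) * (a * c ^ 2), c ^ 3] :
      Fin 4 → ℂ) k • b k := by
    rw [Fin.sum_univ_four]
    rfl
  have e2 : dcv b a' c' x y = ∑ k, (![3 * a' ^ 2 * x, ((√3 : ℝ) : ℂ) * (2 * a' * x * c' + a' ^ 2 * y),
      ((√3 : ℝ) : ℂ) * (x * c' ^ 2 + 2 * a' * c' * y), 3 * c' ^ 2 * y] : Fin 4 → ℂ) k • b k := by
    rw [Fin.sum_univ_four]
    rfl
  rw [e1, e2, b.orthonormal.inner_sum, Fin.sum_univ_four]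
  have h3 := sq3'
  show (starRingEnd ℂ (a ^ 3)) * (3 * a' ^ 2 * x) +
      (starRingEnd ℂ (((√3 : ℝ) : ℂ) * (a ^ 2 * c))) *
        (((√3 : ℝ) : ℂ) * (2 * a' * x * c' + a' ^ 2 * y)) +
      (starRingEnd ℂ (((√3 : ℝ) : ℂ) * (a * c ^ 2))) *
        (((√3 : ℝ) : ℂ) * (x * c' ^ 2 + 2 * a' * c' * y)) +
      (starRingEnd ℂ (c ^ 3)) * (3 * c' ^ 2 * y) = _
  simp only [map_mul, map_pow, Complex.conj_ofReal]
  linear_combination ((starRingEnd ℂ a) ^ 2 * (starRingEnd ℂ c) *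
      (2 * a' * x * c' + a' ^ 2 * y) +
    (starRingEnd ℂ a) * (starRingEnd ℂ c) ^ 2 * (x * c' ^ 2 + 2 * a' * c' * y)) * h3

private theorem J_cv {J1 J2 J3 : Op 3} (su : Su2 J1 J2 J3) (h : L3 b J1 J2 J3) (a c : ℂ) :
    J1 (cv b a c) = dcv b a c (c / 2) (a / 2) ∧
    J2 (cv b a c) = dcv b a c (-Complex.I * (c / 2)) (Complex.I * (a / 2)) ∧
    J3 (cv b a c) = dcv b a c (a / 2) (-(c / 2)) := by
  have hlo := h.2
  have hup := fun k : Fin 4 => up_ladder su h k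
  have l0 : lo J1 J2 (b 0) = ((√3 : ℝ) : ℂ) • b 1 := hlo 0
  have l1 : lo J1 J2 (b 1) = ((2 : ℝ) : ℂ) • b 2 := hlo 1
  have l2 : lo J1 J2 (b 2) = ((√3 : ℝ) : ℂ) • b 3 := hlo 2
  have l3 : lo J1 J2 (b 3) = 0 := by
    have := hlo 3
    rw [this]
    show (((0 : ℝ)) : ℂ) • b (3 + 1) = 0
    simp
  have u1 : up J1 J2 (b 1) = ((√3 : ℝ) : ℂ) • b 0 := hup 0
  have u2 : up J1 J2 (b 2) = ((2 : ℝ) : ℂ) • b 1 := hup 1
  have u3 : up J1 J2 (b 3) = ((√3 : ℝ) : ℂ) • b 2 := hup 2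
  have u0 : up J1 J2 (b 0) = 0 := by
    have h0 : up J1 J2 (b (3 + 1)) = ((0 : ℝ) : ℂ) • b 3 := hup 3
    have h1 : ((3 : Fin 4) + 1) = 0 := rfl
    rw [h1] at h0
    rw [h0]
    simp
  have hJ1 : ∀ z : E 3, J1 z = (1 / 2 : ℂ) • (up J1 J2 z + lo J1 J2 z) := by
    intro z
    show J1 z = (1 / 2 : ℂ) • ((J1 z + Complex.I • J2 z) + (J1 z - Complex.I • J2 z))
    module
  have hJ2 : ∀ z : E 3, J2 z = (-Complex.I / 2 : ℂ) • (up J1 J2 z - lo J1 J2 z) := by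
    intro z
    show J2 z = (-Complex.I / 2 : ℂ) • ((J1 z + Complex.I • J2 z) - (J1 z - Complex.I • J2 z))
    have e : (-Complex.I / 2 : ℂ) • ((J1 z + Complex.I • J2 z) - (J1 z - Complex.I • J2 z)) =
        (-(Complex.I * Complex.I)) • J2 z := by
      module
    rw [e, Complex.I_mul_I, neg_neg, one_smul]
  have k3 : ∀ k : Fin 4, J3 (b k) =
      (((![3 / 2, 1 / 2, -(1 / 2), -(3 / 2)] : Fin 4 → ℝ) k : ℝ) : ℂ) • b k := by
    intro k
    rw [h.1]
    exact ham_basis' b _ k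
  have j0 : J3 (b 0) = (((3 / 2 : ℝ)) : ℂ) • b 0 := k3 0
  have j1 : J3 (b 1) = (((1 / 2 : ℝ)) : ℂ) • b 1 := k3 1
  have j2 : J3 (b 2) = (((-(1 / 2) : ℝ)) : ℂ) • b 2 := k3 2
  have j3 : J3 (b 3) = (((-(3 / 2) : ℝ)) : ℂ) • b 3 := k3 3
  have h3 := sq3'
  have e0 : ∀ x : ℂ, 3 * a ^ 2 * x = ((√3 : ℝ) : ℂ) * a ^ 2 * ((√3 : ℝ) : ℂ) * x := by
    intro x
    rw [show ((√3 : ℝ) : ℂ) * a ^ 2 * ((√3 : ℝ) : ℂ) * x =
      (((√3 : ℝ) : ℂ) * ((√3 : ℝ) : ℂ)) * (a ^ 2 * x) by ring, h3]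
    ring
  have e3 : ∀ x : ℂ, 3 * c ^ 2 * x = ((√3 : ℝ) : ℂ) * c ^ 2 * ((√3 : ℝ) : ℂ) * x := by
    intro x
    rw [show ((√3 : ℝ) : ℂ) * c ^ 2 * ((√3 : ℝ) : ℂ) * x =
      (((√3 : ℝ) : ℂ) * ((√3 : ℝ) : ℂ)) * (c ^ 2 * x) by ring, h3]
    ring
  refine ⟨?_, ?_, ?_⟩
  · rw [hJ1]
    unfold cv dcv
    simp only [map_add, map_smul, l0, l1, l2, l3, u0, u1, u2, u3, smul_smul, smul_zero]
    rw [e0, e3]
    push_cast
    module
  · rw [hJ2]
    unfold cv dcv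
    simp only [map_add, map_smul, l0, l1, l2, l3, u0, u1, u2, u3, smul_smul, smul_zero]
    rw [e0, e3]
    push_cast
    module
  · unfold cv dcv
    simp only [map_add, map_smul, j0, j1, j2, j3, smul_smul]
    push_cast
    module

/-- The Chiang set is in the zero level: chco_cv; z = (cv v + cv jv)/sqrt 2. It is an orbit of SU(2) through
(cv 1 0 + cv 0 1)/sqrt 2 = (b0 + b3)/sqrt 2 which is in the zero level; or direct computation with
coordinates. -/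
theorem chiang_zl {J1 J2 J3 : Op 3} (su : Su2 J1 J2 J3) (h : L3 b J1 J2 J3) :
    ∀ P ∈ chiang b, ∃ z, Zl J1 J2 J3 z ∧ P = pt z := by
  rintro P ⟨a, c, hac, rfl⟩
  refine ⟨_, ?_, rfl⟩
  rw [chco_cv]
  have hr : (((1 / √2 : ℝ) : ℂ)) * ((1 / √2 : ℝ) : ℂ) = 1 / 2 := by
    rw [← Complex.ofReal_mul, div_mul_div_comm, one_mul, Real.mul_self_sqrt (by norm_num)]
    norm_num
  have hn : (starRingEnd ℂ a) * a + (starRingEnd ℂ c) * c = 1 := by
    rw [Complex.conj_mul', Complex.conj_mul', ← Complex.ofReal_pow, ← Complex.ofReal_pow,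
      ← Complex.ofReal_add, hac, Complex.ofReal_one]
  have hn2 : (starRingEnd ℂ (-(starRingEnd ℂ c))) * (-(starRingEnd ℂ c)) +
      (starRingEnd ℂ (starRingEnd ℂ a)) * (starRingEnd ℂ a) = 1 := by
    rw [map_neg, Complex.conj_conj, Complex.conj_conj, ← hn]
    ring
  have hz1 : (starRingEnd ℂ a) * (-(starRingEnd ℂ c)) + (starRingEnd ℂ c) * (starRingEnd ℂ a) = 0 := by
    ring
  have hz2 : (starRingEnd ℂ (-(starRingEnd ℂ c))) * a + (starRingEnd ℂ (starRingEnd ℂ a)) * c = 0 := by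
    rw [map_neg, Complex.conj_conj, Complex.conj_conj]
    ring
  have key : ∀ (J : Op 3) (x y x' y' : ℂ), J (cv b a c) = dcv b a c x y →
      J (cv b (-(starRingEnd ℂ c)) (starRingEnd ℂ a)) =
        dcv b (-(starRingEnd ℂ c)) (starRingEnd ℂ a) x' y' →
      ((starRingEnd ℂ a) * x + (starRingEnd ℂ c) * y) +
        ((starRingEnd ℂ (-(starRingEnd ℂ c))) * x' + (starRingEnd ℂ (starRingEnd ℂ a)) * y') = 0 →
      inner ℂ (((1 / √2 : ℝ) : ℂ) • (cv b a c + cv b (-(starRingEnd ℂ c)) (starRingEnd ℂ a)))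
        (J (((1 / √2 : ℝ) : ℂ) • (cv b a c + cv b (-(starRingEnd ℂ c)) (starRingEnd ℂ a)))) = 0 := by
    intro J x y x' y' h1 h2 h4
    rw [map_smul, map_add, h1, h2, inner_smul_left, inner_smul_right, inner_add_left,
      inner_add_right, inner_add_right, inner_dcv, inner_dcv, inner_dcv, inner_dcv, hn, hn2,
      hz1, hz2]
    linear_combination (3 * (starRingEnd ℂ) ((1 / √2 : ℝ) : ℂ) * ((1 / √2 : ℝ) : ℂ)) * h4
  obtain ⟨a1, a2, a3⟩ := J_cv b su h a c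
  obtain ⟨b1, b2, b3⟩ := J_cv b su h (-(starRingEnd ℂ c)) (starRingEnd ℂ a)
  refine ⟨?_, ?_, ?_, ?_⟩
  · have h1 : inner ℂ (((1 / √2 : ℝ) : ℂ) • (cv b a c + cv b (-(starRingEnd ℂ c)) (starRingEnd ℂ a)))
        (((1 / √2 : ℝ) : ℂ) • (cv b a c + cv b (-(starRingEnd ℂ c)) (starRingEnd ℂ a))) =
        (1 : ℂ) := by
      rw [inner_smul_left, inner_smul_right, inner_add_left,
        inner_add_right, inner_add_right, inner_cv, inner_cv, inner_cv, inner_cv, hn, hn2,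
        hz1, hz2, Complex.conj_ofReal]
      linear_combination 2 * hr
    have h2 : ‖((1 / √2 : ℝ) : ℂ) • (cv b a c + cv b (-(starRingEnd ℂ c)) (starRingEnd ℂ a))‖ ^ 2 =
        1 := by
      rw [@norm_sq_eq_re_inner ℂ, h1]
      simp
    exact (pow_eq_one_iff_of_nonneg (norm_nonneg _) two_ne_zero).1 h2
  · refine key J1 _ _ _ _ a1 b1 ?_
    rw [map_neg, Complex.conj_conj, Complex.conj_conj]
    ring
  · refine key J2 _ _ _ _ a2 b2 ?_
    rw [map_neg, Complex.conj_conj, Complex.conj_conj]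
    ring
  · refine key J3 _ _ _ _ a3 b3 ?_
    rw [map_neg, Complex.conj_conj, Complex.conj_conj]
    ring

/-- by chco_cv, exp_cv2, exp_cv3: for g in SU(2), g (j v) = j (g v) with j (a, c) = (-conj c, conj a) -/
theorem chiang_inv {J1 J2 J3 : Op 3} (su : Su2 J1 J2 J3) (h : L3 b J1 J2 J3) (t : ℝ) :
    ∀ P ∈ chiang b, cj (t • J2) P ∈ chiang b ∧ cj (t • J3) P ∈ chiang b := by
  rintro P ⟨a, c, hac, rfl⟩
  have ht : IsSelfAdjoint ((t : ℝ) : ℂ) := Complex.conj_ofReal t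
  have he : ∀ J : Op 3, t • J = ((t : ℝ) : ℂ) • J := by
    intro J
    refine ContinuousLinearMap.ext fun v => ?_
    show t • (J v) = ((t : ℝ) : ℂ) • (J v)
    exact (Complex.coe_smul t (J v)).symm
  have s2 : IsSelfAdjoint (t • J2) := by
    rw [he]
    exact ht.smul su.2.1
  have s3 : IsSelfAdjoint (t • J3) := by
    rw [he]
    exact ht.smul su.2.2.1
  constructor
  · refine ⟨a * (Real.cos (t / 2) : ℝ) + c * (Real.sin (t / 2) : ℝ),
      -(a * (Real.sin (t / 2) : ℝ)) + c * (Real.cos (t / 2) : ℝ), ?_, ?_⟩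
    · have hn : ∀ u v : ℂ, ((‖u‖ ^ 2 + ‖v‖ ^ 2 : ℝ) : ℂ) =
          (starRingEnd ℂ u) * u + (starRingEnd ℂ v) * v := by
        intro u v
        rw [Complex.conj_mul', Complex.conj_mul']
        push_cast
        rfl
      have h1 : (((‖a * (Real.cos (t / 2) : ℝ) + c * (Real.sin (t / 2) : ℝ)‖ ^ 2 +
          ‖-(a * (Real.sin (t / 2) : ℝ)) + c * (Real.cos (t / 2) : ℝ)‖ ^ 2 : ℝ)) : ℂ) =
          ((‖a‖ ^ 2 + ‖c‖ ^ 2 : ℝ) : ℂ) := by
        rw [hn, hn]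
        have hcs : ((Real.cos (t / 2) : ℝ) : ℂ) ^ 2 + ((Real.sin (t / 2) : ℝ) : ℂ) ^ 2 = 1 := by
          rw [← Complex.ofReal_pow, ← Complex.ofReal_pow, ← Complex.ofReal_add,
            Real.cos_sq_add_sin_sq, Complex.ofReal_one]
        simp only [map_add, map_neg, map_mul, Complex.conj_ofReal]
        linear_combination ((starRingEnd ℂ a) * a + (starRingEnd ℂ c) * c) * hcs
      rw [Complex.ofReal_inj] at h1
      rw [h1, hac]
    · rw [chco_cv, chco_cv, cj_pt s2, map_smul, map_add, exp_cv2 b su h, exp_cv2 b su h]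
      congr 5
      · simp only [map_add, map_neg, map_mul, Complex.conj_ofReal]
        ring
      · simp only [map_add, map_mul, Complex.conj_ofReal]
        ring
  · refine ⟨Complex.exp ((t / 2 : ℝ) * Complex.I) * a,
      Complex.exp (((-(t / 2)) : ℝ) * Complex.I) * c, ?_, ?_⟩
    · rw [norm_mul, norm_mul, Complex.norm_exp_ofReal_mul_I, Complex.norm_exp_ofReal_mul_I,
        one_mul, one_mul, hac]
    · rw [chco_cv, chco_cv, cj_pt s3, map_smul, map_add, exp_cv3 b h, exp_cv3 b h]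
      have hc1 : (starRingEnd ℂ) (Complex.exp ((t / 2 : ℝ) * Complex.I)) =
          Complex.exp (((-(t / 2)) : ℝ) * Complex.I) := by
        rw [← Complex.exp_conj, map_mul, Complex.conj_I, Complex.conj_ofReal]
        congr 1
        push_cast
        ring
      have hc2 : (starRingEnd ℂ) (Complex.exp (((-(t / 2)) : ℝ) * Complex.I)) =
          Complex.exp ((t / 2 : ℝ) * Complex.I) := by
        rw [← hc1, Complex.conj_conj]
      rw [map_mul, map_mul, hc1, hc2, mul_neg]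

end Pool.Agent.H66.SyM
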