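import Pool.Agent.H66.SyM.ChB1

/-! Two invariant subsets of one orbit. -/

set_option autoImplicit false

open scoped ContDiff Topology

namespace Pool.Agent.H66.SyM

open Pool.Agent.H66.SyL

private theorem cj_back (H : Op 3) (t : ℝ) (P : Op 3) : cj ((-t) • H) (cj (t • H) P) = P := by
  rw [← cj_add]
  have h : (-t + t) • H = 0 := by
    rw [neg_add_cancel]
    exact zero_smul ℝ H
  rw [h, cj_zero]

private theorem sub_orbit {J1 J2 J3 : Op 3} {B : Op 3}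
    (hB : ∀ z, Zl J1 J2 J3 z → ∃ r s t : ℝ, cj (r • J3) (cj (s • J2) (cj (t • J3) (pt z))) = B)
    {S S' : Set (Op 3)} (hS : ∀ P ∈ S, ∃ z, Zl J1 J2 J3 z ∧ P = pt z)
    (hS' : ∀ P ∈ S', ∃ z, Zl J1 J2 J3 z ∧ P = pt z) (hn' : S'.Nonempty)
    (hi' : ∀ t : ℝ, ∀ P ∈ S', cj (t • J2) P ∈ S' ∧ cj (t • J3) P ∈ S') : S ⊆ S' := by
  have hBS : B ∈ S' := by
    obtain ⟨P, hP⟩ := hn'
    obtain ⟨z, hz, rfl⟩ := hS' P hP
    obtain ⟨r, s, t, h⟩ := hB z hz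
    rw [← h]
    exact (hi' r _ (hi' s _ (hi' t _ hP).2).1).2
  intro Q hQ
  obtain ⟨z, hz, rfl⟩ := hS Q hQ
  obtain ⟨r, s, t, h⟩ := hB z hz
  have h1 : cj ((-t) • J3) (cj ((-s) • J2) (cj ((-r) • J3) B)) = pt z := by
    rw [← h, cj_back, cj_back, cj_back]
  rw [← h1]
  exact (hi' (-t) _ (hi' (-s) _ (hi' (-r) _ hBS).2).1).2

/-- Two nonempty subsets of the zero level which are invariant under exp(itJ2), exp(itJ3) coincide, if the
flows move every point of the zero level to one point B. (For z in S the point B is in S; for z' in S' go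
to B and back: cj (-r H) undoes cj (r H), cj_add, cj_zero.) -/
theorem one_orbit {J1 J2 J3 : Op 3} {B : Op 3}
    (hB : ∀ z, Zl J1 J2 J3 z → ∃ r s t : ℝ, cj (r • J3) (cj (s • J2) (cj (t • J3) (pt z))) = B)
    {S S' : Set (Op 3)} (hS : ∀ P ∈ S, ∃ z, Zl J1 J2 J3 z ∧ P = pt z)
    (hS' : ∀ P ∈ S', ∃ z, Zl J1 J2 J3 z ∧ P = pt z) (hn : S.Nonempty) (hn' : S'.Nonempty)
    (hi : ∀ t : ℝ, ∀ P ∈ S, cj (t • J2) P ∈ S ∧ cj (t • J3) P ∈ S)
    (hi' : ∀ t : ℝ, ∀ P ∈ S', cj (t • J2) P ∈ S' ∧ cj (t • J3) P ∈ S') : S = S' :=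
  Set.Subset.antisymm (sub_orbit hB hS hS' hn' hi') (sub_orbit hB hS' hS hn hi)

end Pool.Agent.H66.SyM
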