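import Pool.Agent.H66.SyM.Exp

/-! A real Lie algebra of Hermitian operators of rank one modulo scalars is su(2). -/

set_option autoImplicit false

open scoped ContDiff Topology

namespace Pool.Agent.H66.SyM

open Pool.Agent.H66.SyL

/-- The commutation relations [J1, J2] = i J3, [J2, J3] = i J1, [J3, J1] = i J2. -/
def Su2 (J1 J2 J3 : Op 3) : Prop :=
  IsSelfAdjoint J1 ∧ IsSelfAdjoint J2 ∧ IsSelfAdjoint J3 ∧
    br J1 J2 = -J3 ∧ br J2 J3 = -J1 ∧ br J3 J1 = -J2

private noncomputable def tr (A : Op 3) : ℂ := LinearMap.trace ℂ (E 3) (A : E 3 →ₗ[ℂ] E 3)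

private theorem tr_add (A B : Op 3) : tr (A + B) = tr A + tr B := by
  unfold tr
  rw [ContinuousLinearMap.coe_add, map_add]

private theorem tr_sub (A B : Op 3) : tr (A - B) = tr A - tr B := by
  unfold tr
  rw [ContinuousLinearMap.coe_sub, map_sub]

private theorem tr_smul (c : ℂ) (A : Op 3) : tr (c • A) = c * tr A := by
  unfold tr
  rw [ContinuousLinearMap.coe_smul, map_smul, smul_eq_mul]

private theorem tr_rsmul (c : ℝ) (A : Op 3) : tr (c • A) = c * tr A := by
  have h : c • A = (c : ℂ) • A := by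
    ext1 z
    simp
  rw [h, tr_smul]

private theorem tr_neg (A : Op 3) : tr (-A) = -tr A := by
  have h : -A = (-1 : ℂ) • A := by
    ext1 z
    simp
  rw [h, tr_smul]
  ring

private theorem nsm (c : ℝ) (X : Op 3) : -(c • X) = (-c) • X := by
  ext1 z
  simp

private theorem smz (c : ℝ) : c • (0 : Op 3) = 0 := by
  ext1 z
  simp

private theorem zsm (X : Op 3) : (0 : ℝ) • X = 0 := by
  ext1 z
  simp

private theorem osm (X : Op 3) : (1 : ℝ) • X = X := by
  ext1 z
  simp

private theorem tr_mul_comm (A B : Op 3) : tr (A * B) = tr (B * A) := by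
  have h : ∀ X Y : Op 3, ((X * Y : Op 3) : E 3 →ₗ[ℂ] E 3)
      = (X : E 3 →ₗ[ℂ] E 3) * (Y : E 3 →ₗ[ℂ] E 3) := fun X Y => rfl
  unfold tr
  rw [h, h, LinearMap.trace_mul_comm]

private theorem tr_one : tr 1 = 4 := by
  have h : ((1 : Op 3) : E 3 →ₗ[ℂ] E 3) = 1 := rfl
  unfold tr
  rw [h, LinearMap.trace_one]
  simp

private theorem tr_sq {B : Op 3} (hB : IsSelfAdjoint B) (h0 : B ≠ 0) :
    0 < (tr (B * B)).re := by
  have hb : tr (B * B) = ∑ i, inner ℂ ((EuclideanSpace.basisFun (Fin 4) ℂ) i)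
      (((B * B : Op 3) : E 3 →ₗ[ℂ] E 3) ((EuclideanSpace.basisFun (Fin 4) ℂ) i)) :=
    LinearMap.trace_eq_sum_inner _ _
  have hs : ∀ x y : E 3, inner ℂ (B x) y = inner ℂ x (B y) := by
    intro x y
    exact hB.isSymmetric x y
  have h2 : ∀ i, inner ℂ ((EuclideanSpace.basisFun (Fin 4) ℂ) i)
      (((B * B : Op 3) : E 3 →ₗ[ℂ] E 3) ((EuclideanSpace.basisFun (Fin 4) ℂ) i))
      = ((‖B ((EuclideanSpace.basisFun (Fin 4) ℂ) i)‖ ^ 2 : ℝ) : ℂ) := by
    intro i
    have h3 : (((B * B : Op 3) : E 3 →ₗ[ℂ] E 3) ((EuclideanSpace.basisFun (Fin 4) ℂ) i))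
        = B (B ((EuclideanSpace.basisFun (Fin 4) ℂ) i)) := rfl
    rw [h3, ← hs, inner_self_eq_norm_sq_to_K]
    simp
  rw [hb, Finset.sum_congr rfl (fun i _ => h2 i), ← Complex.ofReal_sum, Complex.ofReal_re]
  by_contra hle
  push Not at hle
  have hnn : ∀ i ∈ Finset.univ, 0 ≤ ‖B ((EuclideanSpace.basisFun (Fin 4) ℂ) i)‖ ^ 2 :=
    fun i _ => by positivity
  have hz := (Finset.sum_eq_zero_iff_of_nonneg hnn).1 (le_antisymm hle (Finset.sum_nonneg hnn))
  apply h0
  have h4 : (B : E 3 →ₗ[ℂ] E 3) = 0 := by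
    apply (EuclideanSpace.basisFun (Fin 4) ℂ).toBasis.ext
    intro i
    have := hz i (Finset.mem_univ i)
    have h5 : ‖B ((EuclideanSpace.basisFun (Fin 4) ℂ) i)‖ = 0 := by
      exact pow_eq_zero_iff (two_ne_zero) |>.1 this
    rw [norm_eq_zero] at h5
    simpa using h5
  ext1 z
  exact LinearMap.congr_fun h4 z

private theorem entry {A : Op 3} (hA : IsSelfAdjoint A) (b : OrthonormalBasis (Fin 4) ℂ (E 3))
    (a : Fin 4 → ℝ) (ha : ∀ i, A (b i) = (a i : ℂ) • b i) (X : Op 3) (i j : Fin 4) :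
    inner ℂ (b i) ((br A X) (b j))
      = Complex.I * ((a i - a j : ℝ) : ℂ) * inner ℂ (b i) (X (b j)) := by
  have h1 : (br A X) (b j) = Complex.I • (A (X (b j)) - X (A (b j))) := rfl
  rw [h1, inner_smul_right, inner_sub_right, ha, map_smul, inner_smul_right]
  have h2 : inner ℂ (b i) (A (X (b j))) = inner ℂ (A (b i)) (X (b j)) :=
    (hA.isSymmetric (b i) (X (b j))).symm
  rw [h2, ha, inner_smul_left]
  simp
  ring

private theorem eq_zero_of_entry (b : OrthonormalBasis (Fin 4) ℂ (E 3)) (X : Op 3)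
    (h : ∀ i j, inner ℂ (b i) (X (b j)) = 0) : X = 0 := by
  have h4 : (X : E 3 →ₗ[ℂ] E 3) = 0 := by
    apply b.toBasis.ext
    intro j
    have h5 : X (b j) = 0 := by
      rw [← b.sum_repr (X (b j))]
      apply Finset.sum_eq_zero
      intro i _
      rw [b.repr_apply_apply, h i j, zero_smul]
    simpa using h5
  ext1 z
  exact LinearMap.congr_fun h4 z

/-- an eigenvector of the square of br A -/
private theorem exists_eigen {A : Op 3} (hA : IsSelfAdjoint A) (g : Submodule ℝ (Op 3))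
    (hbr : ∀ X ∈ g, br A X ∈ g) {B : Op 3} (hB : B ∈ g) (h0 : br A B ≠ 0) :
    ∃ X ∈ g, ∃ s : ℝ, X ≠ 0 ∧ 0 < s ∧ br A (br A X) = -(s ^ 2 • X) := by
  obtain ⟨b, a, ha⟩ : ∃ (b : OrthonormalBasis (Fin 4) ℂ (E 3)) (a : Fin 4 → ℝ),
      ∀ i, A (b i) = (a i : ℂ) • b i := by
    have hs : (A : E 3 →ₗ[ℂ] E 3).IsSymmetric := hA.isSymmetric
    have hn : Module.finrank ℂ (E 3) = 4 := by simp
    refine ⟨hs.eigenvectorBasis hn, hs.eigenvalues hn, fun i => ?_⟩
    exact hs.apply_eigenvectorBasis hn i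
  have ent2 : ∀ (X : Op 3) (i j : Fin 4), inner ℂ (b i) ((br A (br A X)) (b j))
      = ((-(a i - a j) ^ 2 : ℝ) : ℂ) * inner ℂ (b i) (X (b j)) := by
    intro X i j
    rw [entry hA b a ha, entry hA b a ha]
    push_cast
    linear_combination ((a i : ℂ) - a j) ^ 2 * inner ℂ (b i) (X (b j)) * Complex.I_sq
  have rsm : ∀ (c : ℝ) (X : Op 3) (i j : Fin 4), inner ℂ (b i) ((c • X) (b j))
      = (c : ℂ) * inner ℂ (b i) (X (b j)) := by
    intro c X i j
    have : (c • X) (b j) = (c : ℂ) • X (b j) := by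
      simp
    rw [this, inner_smul_right]
  -- the list argument
  have key : ∀ (l : List ℝ), (∀ s ∈ l, 0 < s) → ∀ v ∈ g, v ≠ 0 →
      (∀ i j, inner ℂ (b i) (v (b j)) ≠ 0 → ∃ s ∈ l, (a i - a j) ^ 2 = s ^ 2) →
      ∃ X ∈ g, ∃ s : ℝ, X ≠ 0 ∧ 0 < s ∧ br A (br A X) = -(s ^ 2 • X) := by
    intro l
    induction l with
    | nil =>
      intro _ v _ hv0 hv
      exfalso
      apply hv0
      apply eq_zero_of_entry b
      intro i j
      by_contra hne
      obtain ⟨s, hs, _⟩ := hv i j hne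
      simp at hs
    | cons s l ih =>
      intro hpos v hvg hv0 hv
      by_cases hw : br A (br A v) + s ^ 2 • v = 0
      · exact ⟨v, hvg, s, hv0, hpos s (by simp), eq_neg_of_add_eq_zero_left hw⟩
      · refine ih (fun t ht => hpos t (by simp [ht])) (br A (br A v) + s ^ 2 • v)
          (g.add_mem (hbr _ (hbr _ hvg)) (g.smul_mem _ hvg)) hw ?_
        intro i j hne
        have h1 : inner ℂ (b i) ((br A (br A v) + s ^ 2 • v) (b j))
            = ((-(a i - a j) ^ 2 + s ^ 2 : ℝ) : ℂ) * inner ℂ (b i) (v (b j)) := by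
          rw [ContinuousLinearMap.add_apply, inner_add_right, ent2, rsm]
          push_cast
          ring
        rw [h1] at hne
        have hne1 : ((-(a i - a j) ^ 2 + s ^ 2 : ℝ) : ℂ) ≠ 0 := left_ne_zero_of_mul hne
        have hne2 := right_ne_zero_of_mul hne
        obtain ⟨t, ht, hte⟩ := hv i j hne2
        rcases List.mem_cons.1 ht with rfl | ht'
        · exfalso
          apply hne1
          rw [hte]
          simp
        · exact ⟨t, ht', hte⟩
  refine key (((Finset.univ : Finset (Fin 4 × Fin 4)).filter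
    (fun p => a p.1 ≠ a p.2)).toList.map (fun p => |a p.1 - a p.2|)) ?_ (br A B) (hbr _ hB) h0 ?_
  · intro s hs
    rw [List.mem_map] at hs
    obtain ⟨p, hp, rfl⟩ := hs
    rw [Finset.mem_toList, Finset.mem_filter] at hp
    exact abs_pos.2 (sub_ne_zero.2 hp.2)
  · intro i j hne
    refine ⟨|a i - a j|, ?_, by rw [sq_abs]⟩
    rw [List.mem_map]
    refine ⟨(i, j), ?_, rfl⟩
    rw [Finset.mem_toList, Finset.mem_filter]
    refine ⟨Finset.mem_univ _, fun he => hne ?_⟩
    rw [entry hA b a ha]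
    have : a i = a j := he
    rw [this]
    simp

/-- Proof. g0 = {A in g : tr A = 0} (A - (tr A/4) 1 is in g0 for A in g). (A, B) = Re tr(AB) is a real
inner product on Hermitian operators and (br A B, C) = -(B, br A C). dim g0 >= 2. Take A in g0 nonzero. If
some B in g0 independent of A has br A B = 0: first alternative. Otherwise T = br A on g0 is
skew with kernel R A; the symmetric map T^2 has on the orthogonal complement of A in g0 (invariant, nonzero)
an eigenvector B, |B| = 1, with eigenvalue -s^2, s > 0 (s = |T B|, not 0). C = T B/s: T B = s C, T C = -s B.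
D = br B C: T D = 0 by Jacobi, so D = m A. m |A|^2 = (br B C, A) = -(C, br B A) = (C, T B) = s > 0.
J3 = -A/s, J1 = B/q, J2 = C/q with q^2 = m s: br J3 J1 = -C/q = -J2, br J2 J3 = br J3 J2 up to sign
= T C/(s q) = -B/q = -J1, br J1 J2 = D/q^2 = m A/(m s) = A/s = -J3. -/
theorem su2_or_comm (g : Submodule ℝ (Op 3)) (hsa : ∀ A ∈ g, IsSelfAdjoint A) (h1 : (1 : Op 3) ∈ g)
    (hbr : ∀ A ∈ g, ∀ B ∈ g, br A B ∈ g) {A B : Op 3} (hA : A ∈ g) (hB : B ∈ g)
    (hind : LinearIndependent ℝ ![1, A, B]) :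
    (∃ A' ∈ g, ∃ B' ∈ g, br A' B' = 0 ∧ LinearIndependent ℝ ![1, A', B']) ∨
      ∃ J1 ∈ g, ∃ J2 ∈ g, ∃ J3 ∈ g, J3 ≠ 0 ∧ Su2 J1 J2 J3 := by
  have indep_iff : ∀ X Y : Op 3, LinearIndependent ℝ ![1, X, Y] ↔
      ∀ r s t : ℝ, r • (1 : Op 3) + s • X + t • Y = 0 → r = 0 ∧ s = 0 ∧ t = 0 := by
    intro X Y
    rw [Fintype.linearIndependent_iff]
    constructor
    · intro h r s t hrst
      have := h ![r, s, t] (by
        rw [Fin.sum_univ_three]
        simpa using hrst)
      exact ⟨this 0, this 1, this 2⟩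
    · intro h c hc
      rw [Fin.sum_univ_three] at hc
      have := h (c 0) (c 1) (c 2) (by simpa using hc)
      intro i
      fin_cases i
      · exact this.1
      · exact this.2.1
      · exact this.2.2
  have hind' := (indep_iff A B).1 hind
  -- normalise the trace
  obtain ⟨c, hc⟩ : ∃ c : ℝ, c = (tr A).re / 4 := ⟨_, rfl⟩
  obtain ⟨A0, hA0⟩ : ∃ A0 : Op 3, A0 = A - c • (1 : Op 3) := ⟨_, rfl⟩
  have hA0g : A0 ∈ g := by rw [hA0]; exact g.sub_mem hA (g.smul_mem _ h1)
  have hA0sa := hsa A0 hA0g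
  have htrA0 : (tr A0).re = 0 := by
    rw [hA0, tr_sub, tr_rsmul, tr_one, hc]
    simp
  have hind0 : LinearIndependent ℝ ![1, A0, B] := by
    rw [indep_iff]
    intro r s t h
    have h2 := hind' (r - s * c) s t (by
      rw [← h, hA0]
      module)
    refine ⟨?_, h2.2.1, h2.2.2⟩
    have := h2.1
    rw [h2.2.1] at this
    simpa using this
  by_cases hAB : br A0 B = 0
  · exact Or.inl ⟨A0, hA0g, B, hB, hAB, hind0⟩
  have hA0ne : A0 ≠ 0 := by
    intro h
    have := ((indep_iff A0 B).1 hind0) 0 1 0 (by rw [h, smz, zsm, zsm]; simp)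
    exact one_ne_zero this.2.1
  obtain ⟨X, hXg, s, hX0, hs, hX⟩ := exists_eigen hA0sa g (fun X hX => hbr _ hA0g _ hX) hB hAB
  have hXsa := hsa X hXg
  obtain ⟨C, hC⟩ : ∃ C : Op 3, C = s⁻¹ • br A0 X := ⟨_, rfl⟩
  have hCg : C ∈ g := by rw [hC]; exact g.smul_mem _ (hbr _ hA0g _ hXg)
  have hTX : br A0 X = s • C := by
    rw [hC, smul_smul, mul_inv_cancel₀ hs.ne', osm]
  have brr : ∀ (c : ℝ) (P Q : Op 3), br P (c • Q) = c • br P Q := by
    intro c P Q
    rw [br_comm, br_smul_left, br_comm P Q, smul_neg, neg_neg]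
  have hTC : br A0 C = -(s • X) := by
    rw [hC, brr, hX, smul_neg, smul_smul]
    congr 2
    field_simp
  obtain ⟨D, hD⟩ : ∃ D : Op 3, D = br X C := ⟨_, rfl⟩
  have hDg : D ∈ g := by rw [hD]; exact hbr _ hXg _ hCg
  have hTD : br A0 D = 0 := by
    rw [hD, jacobi, hTX, hTC, br_smul_left, br_self]
    have h2 : br X (-(s • X)) = 0 := by
      rw [nsm, brr, br_self, smz]
    rw [h2, smz, add_zero]
  by_cases hindD : LinearIndependent ℝ ![1, A0, D]
  · exact Or.inl ⟨A0, hA0g, D, hDg, hTD, hindD⟩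
  right
  -- D = m A0
  have htrD : tr D = 0 := by
    rw [hD, br, tr_smul, tr_sub, tr_mul_comm, sub_self, mul_zero]
  have ind1 : ∀ r s : ℝ, r • (1 : Op 3) + s • A0 = 0 → r = 0 ∧ s = 0 := by
    intro r s h
    have := ((indep_iff A0 B).1 hind0) r s 0 (by rw [h, zsm, add_zero])
    exact ⟨this.1, this.2.1⟩
  obtain ⟨m, hm⟩ : ∃ m : ℝ, D = m • A0 := by
    by_contra hno
    push Not at hno
    apply hindD
    rw [indep_iff]
    intro r x y h
    by_cases hy : y = 0
    · rw [hy, zsm, add_zero] at h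
      have := ind1 r x h
      exact ⟨this.1, this.2, hy⟩
    · exfalso
      have htr : tr (r • (1 : Op 3) + x • A0 + y • D) = 0 := by
        rw [h]
        unfold tr
        simp
      rw [tr_add, tr_add, tr_rsmul, tr_rsmul, tr_rsmul, htrD, tr_one] at htr
      have hre := congrArg Complex.re htr
      have hr : r = 0 := by
        have h5 : ((x : ℂ) * tr A0).re = 0 := by
          rw [Complex.re_ofReal_mul, htrA0, mul_zero]
        have h6 : ((r : ℂ) * 4).re = r * 4 := by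
          simp
        rw [Complex.add_re, Complex.add_re, h5, h6] at hre
        simp at hre
        exact hre
      rw [hr, zsm, zero_add] at h
      apply hno (-(y⁻¹ * x))
      have h7 : y • D = -(x • A0) := eq_neg_of_add_eq_zero_right h
      have h8 : D = y⁻¹ • (y • D) := by rw [smul_smul, inv_mul_cancel₀ hy, osm]
      rw [h8, h7]
      module
  -- m > 0
  have hAA := tr_sq hA0sa hA0ne
  have hXX := tr_sq hXsa hX0
  have hkey : tr (D * A0) = s * tr (X * X) := by
    have e1 : tr (D * A0) = -tr (X * br A0 C) := by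
      rw [hD]
      simp only [br, smul_mul_assoc, mul_smul_comm, tr_smul, sub_mul, mul_sub, tr_sub]
      have c1 : tr (C * X * A0) = tr (X * (A0 * C)) := by
        rw [mul_assoc, tr_mul_comm, mul_assoc]
      have c2 : tr (X * C * A0) = tr (X * (C * A0)) := by rw [mul_assoc]
      rw [c1, c2]
      ring
    rw [e1, hTC]
    have e2 : X * -(s • X) = -(s • (X * X)) := by
      ext1 z
      have h11 : (X * -(s • X)) z = X ((-(s • X)) z) := rfl
      have h12 : (-(s • (X * X))) z = -((s : ℂ) • X (X z)) := by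
        simp
      have h13 : (-(s • X)) z = -((s : ℂ) • X z) := by simp
      rw [h11, h12, h13, map_neg, map_smul]
    rw [e2, tr_neg, neg_neg, tr_rsmul]
  have hm0 : 0 < m := by
    have e3 : (m • A0) * A0 = m • (A0 * A0) := by
      ext1 z
      rfl
    rw [hm, e3, tr_rsmul] at hkey
    have hre := congrArg Complex.re hkey
    rw [Complex.re_ofReal_mul, Complex.re_ofReal_mul] at hre
    by_contra hle
    push Not at hle
    have h1' : m * (tr (A0 * A0)).re ≤ 0 := mul_nonpos_of_nonpos_of_nonneg hle hAA.le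
    have h2' : 0 < s * (tr (X * X)).re := mul_pos hs hXX
    linarith
  obtain ⟨q, hq⟩ : ∃ q : ℝ, q = Real.sqrt (m * s) := ⟨_, rfl⟩
  have hq2 : q * q = m * s := by
    rw [hq, Real.mul_self_sqrt (mul_pos hm0 hs).le]
  have hq0 : q ≠ 0 := by
    intro h
    rw [h] at hq2
    have := mul_pos hm0 hs
    linarith [hq2, mul_zero (0 : ℝ)]
  refine ⟨q⁻¹ • X, g.smul_mem _ hXg, q⁻¹ • C, g.smul_mem _ hCg, -(s⁻¹ • A0),
    g.neg_mem (g.smul_mem _ hA0g), ?_, ?_⟩
  · intro h
    apply hA0ne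
    have h14 : A0 = (-s) • (-(s⁻¹ • A0)) := by
      have h15 : (-s) • (-(s⁻¹ • A0)) = (s * s⁻¹) • A0 := by module
      rw [h15, mul_inv_cancel₀ hs.ne', osm]
    rw [h14, h, smz]
  · refine ⟨hsa _ (g.smul_mem _ hXg), hsa _ (g.smul_mem _ hCg),
      hsa _ (g.neg_mem (g.smul_mem _ hA0g)), ?_, ?_, ?_⟩
    · have h9 : q⁻¹ * (q⁻¹ * m) = s⁻¹ := by
        have : q⁻¹ * q⁻¹ = (m * s)⁻¹ := by rw [← hq2, mul_inv]
        rw [← mul_assoc, this, mul_inv]
        field_simp
      rw [br_smul_left, brr, ← hD, hm, neg_neg, ← h9]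
      module
    · have h9 : (-s⁻¹) * (q⁻¹ * s) = -q⁻¹ := by
        field_simp
      rw [nsm, brr, br_smul_left, br_comm, hTC, neg_neg]
      have h10 : (-s⁻¹) • q⁻¹ • s • X = ((-s⁻¹) * (q⁻¹ * s)) • X := by module
      rw [h10, h9, nsm]
    · have h9 : (-s⁻¹) * (q⁻¹ * s) = -q⁻¹ := by
        field_simp
      rw [nsm, brr, br_smul_left, hTX]
      have h10 : q⁻¹ • (-s⁻¹) • s • C = ((-s⁻¹) * (q⁻¹ * s)) • C := by module
      rw [h10, h9, nsm]

end Pool.Agent.H66.SyM
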