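import Pool.Agent.H66.SyM.Diag
import Pool.Agent.H66.SyM.Su2

/-! The moment map of a commutator vanishes on L. -/

set_option autoImplicit false

open scoped ContDiff Topology

namespace Pool.Agent.H66.SyM

open Pool.Agent.H66.SyL

variable {L : Set (Op 3)}

private theorem sum_w (b : OrthonormalBasis (Fin (3 + 1)) ℂ (E 3)) (w : Fin (3 + 1) → ℝ) (A B : Op 3)
    (h : br A B = ham b w) : ∑ k, w k = 0 := by
  have h1 : LinearMap.trace ℂ (E 3) ((br A B : Op 3) : E 3 →ₗ[ℂ] E 3) = 0 := by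
    have h2 : ((br A B : Op 3) : E 3 →ₗ[ℂ] E 3) =
        Complex.I • ((A : E 3 →ₗ[ℂ] E 3) * (B : E 3 →ₗ[ℂ] E 3) - (B : E 3 →ₗ[ℂ] E 3) * (A : E 3 →ₗ[ℂ] E 3)) := by
      refine LinearMap.ext fun v => ?_
      rfl
    rw [h2, map_smul, map_sub, LinearMap.trace_mul_comm, sub_self, smul_zero]
  rw [LinearMap.trace_eq_sum_inner _ b] at h1
  have h3 : ∀ k, inner ℂ (b k) (((br A B : Op 3) : E 3 →ₗ[ℂ] E 3) (b k)) = ((w k : ℝ) : ℂ) := by
    intro k
    have h4 : ((br A B : Op 3) : E 3 →ₗ[ℂ] E 3) (b k) = ham b w (b k) := by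
      rw [h]
      rfl
    rw [h4, coord_ham, inner_self_eq_norm_sq_to_K, b.orthonormal.1 k]
    simp
  rw [Finset.sum_congr rfl fun k _ => h3 k] at h1
  exact_mod_cast h1

/-- Proof. br A B = ham b w (diag_one, isSelfAdjoint_br), Sym b L w (symm_ham), so by mom_mean the sum of
w_k |z_k|^2 is mean w; it is (z, br A B z), and mean w = tr (br A B)/4 = 0. -/
theorem mom_br (hL : IsLagrangian L) (hc : IsCompact L) (hconn : IsConnected L) (h1 : H1Zero L)
    {A B : Op 3} (hA : IsSelfAdjoint A) (hB : IsSelfAdjoint B) (hs : Symm L (br A B)) {z : E 3}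
    (hz : ‖z‖ = 1) (hzL : pt z ∈ L) : inner ℂ z (br A B z) = 0 := by
  obtain ⟨b, w, h⟩ := diag_one (isSelfAdjoint_br hA hB)
  have hw := sum_w b w A B h
  rw [h] at hs ⊢
  have hm := mom_mean b hL hc hconn h1 ((symm_ham b L w).1 hs) hz hzL
  rw [inner_ham_self, hm]
  unfold mean
  rw [hw, zero_div, Complex.ofReal_zero]

/-- The moment map of su(2) vanishes on L. -/
theorem mom_su2 (hL : IsLagrangian L) (hc : IsCompact L) (hconn : IsConnected L) (h1 : H1Zero L)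
    {J1 J2 J3 : Op 3} (su : Su2 J1 J2 J3) (hs1 : Symm L J1) (hs2 : Symm L J2) (hs3 : Symm L J3)
    {z : E 3} (hz : ‖z‖ = 1) (hzL : pt z ∈ L) :
    inner ℂ z (J1 z) = 0 ∧ inner ℂ z (J2 z) = 0 ∧ inner ℂ z (J3 z) = 0 := by
  obtain ⟨a1, a2, a3, e3, e1, e2⟩ := su
  have k1 : br J3 J2 = J1 := by rw [br_comm J2 J3, e1, neg_neg]
  have k2 : br J1 J3 = J2 := by rw [br_comm J3 J1, e2, neg_neg]
  have k3 : br J2 J1 = J3 := by rw [br_comm J1 J2, e3, neg_neg]
  refine ⟨?_, ?_, ?_⟩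
  · have h := mom_br hL hc hconn h1 a3 a2 (by rw [k1]; exact hs1) hz hzL
    rwa [k1] at h
  · have h := mom_br hL hc hconn h1 a1 a3 (by rw [k2]; exact hs2) hz hzL
    rwa [k2] at h
  · have h := mom_br hL hc hconn h1 a2 a1 (by rw [k3]; exact hs3) hz hzL
    rwa [k3] at h

end Pool.Agent.H66.SyM
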