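import Pool.Agent.H66.SyM.ChB3
import Pool.Agent.H66.SyM.ChD
import Pool.Agent.H66.SyM.Orb
import Pool.Agent.H66.SyM.Zero

/-! Spin 3/2: L is the Chiang Lagrangian. -/

set_option autoImplicit false

open scoped ContDiff Topology

namespace Pool.Agent.H66.SyM

open Pool.Agent.H66.SyL

variable (b : OrthonormalBasis (Fin 4) ℂ (E 3))

/-- one_orbit with to_base, chiang_zl, chiang_inv, mom_su2 -/
theorem chiang_case {L : Set (Op 3)} (hL : IsLagrangian L) (hc : IsCompact L)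
    (hconn : IsConnected L) (h1 : H1Zero L) {J1 J2 J3 : Op 3} (su : Su2 J1 J2 J3)
    (hs1 : Symm L J1) (hs2 : Symm L J2) (hs3 : Symm L J3) (h : L3 b J1 J2 J3) : L = chiang b := by
  refine one_orbit (J1 := J1) (J2 := J2) (J3 := J3)
    (fun z hz => to_base b su h hz) ?_ (chiang_zl b su h) hconn.nonempty ?_
    (fun t P hP => ⟨hs2.2 t P hP, hs3.2 t P hP⟩) (fun t P hP => chiang_inv b su h t P hP)
  · intro P hP
    obtain ⟨⟨z, hz, hzP⟩, -⟩ := hL P hP
    refine ⟨z, ⟨hz, mom_su2 hL hc hconn h1 su hs1 hs2 hs3 hz ?_⟩, hzP.symm⟩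
    rw [hzP]
    exact hP
  · refine ⟨_, 1, 0, ?_, rfl⟩
    simp

end Pool.Agent.H66.SyM
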