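import Pool.Agent.H66.SyL.Tori
import Pool.Agent.H11.ST.Defs

/-!
MP_b8283b_gt, second part: Lagrangian rational homology spheres in CP^3 with at least two independent
infinitesimal symmetries. Definitions.
-/

set_option autoImplicit false

open scoped ContDiff Topology

namespace Pool.Agent.H66.SyM

open Pool.Agent.H66.SyL

variable {n : ℕ}

/-- P to exp(iH) P exp(-iH). -/
noncomputable def cj (H P : Op n) : Op n :=
  NormedSpace.exp (Complex.I • H) * P * NormedSpace.exp (-(Complex.I • H))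

/-- H is Hermitian and the isometries exp(itH) of CP^n preserve L. -/
def Symm (L : Set (Op n)) (H : Op n) : Prop :=
  IsSelfAdjoint H ∧ ∀ t : ℝ, ∀ P ∈ L, cj (t • H) P ∈ L

/-- i(AB - BA) -/
noncomputable def br (A B : Op n) : Op n := Complex.I • (A * B - B * A)

/-- Coordinates of the Chiang Lagrangian: the binary cubic ((ax + cy)^3 + (a' y - c' x)^3)/sqrt 2 in the
orthonormal basis x^3, sqrt 3 x^2 y, sqrt 3 x y^2, y^3, where a' and c' are the conjugates of a and c. -/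
noncomputable def chco (a c : ℂ) : Fin 4 → ℂ :=
  ![(a ^ 3 - (starRingEnd ℂ c) ^ 3) / (√2 : ℝ),
    (√3 : ℝ) * (a ^ 2 * c + (starRingEnd ℂ a) * (starRingEnd ℂ c) ^ 2) / (√2 : ℝ),
    (√3 : ℝ) * (a * c ^ 2 - (starRingEnd ℂ a) ^ 2 * (starRingEnd ℂ c)) / (√2 : ℝ),
    (c ^ 3 + (starRingEnd ℂ a) ^ 3) / (√2 : ℝ)]

/-- The Chiang Lagrangian in the orthonormal basis b (its image under a unitary map): the SU(2)-orbit
of the binary cubic x^3 + y^3. -/
def chiang (b : OrthonormalBasis (Fin 4) ℂ (E 3)) : Set (Op 3) :=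
  {P | ∃ a c : ℂ, ‖a‖ ^ 2 + ‖c‖ ^ 2 = 1 ∧ P = pt (∑ k, chco a c k • b k)}

/-- The vector s x + t b 3, x a real vector in the span of b 0, b 1, b 2. -/
noncomputable def vec (b : OrthonormalBasis (Fin 4) ℂ (E 3)) (s t : ℂ) (x y z : ℝ) : E 3 :=
  s • ((x : ℂ) • b 0 + (y : ℂ) • b 1 + (z : ℂ) • b 2) + t • b 3

end Pool.Agent.H66.SyM
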