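import Pool.Agent.H66.SyM.Exp

/-! Diagonalisation. -/

set_option autoImplicit false

open scoped ContDiff Topology

namespace Pool.Agent.H66.SyM

open Pool.Agent.H66.SyL

private theorem ext_coord' (b : OrthonormalBasis (Fin (3 + 1)) ℂ (E 3)) {u v : E 3}
    (h : ∀ k, inner ℂ (b k) u = inner ℂ (b k) v) : u = v := by
  rw [← b.sum_repr u, ← b.sum_repr v]
  refine Finset.sum_congr rfl fun k _ => ?_
  rw [b.repr_apply_apply, b.repr_apply_apply, h k]

private theorem of_eig {H : Op 3} (hH : IsSelfAdjoint H)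
    (b : OrthonormalBasis (Fin (3 + 1)) ℂ (E 3)) (hb : ∀ k, ∃ c : ℂ, H (b k) = c • b k) :
    ∃ w : Fin (3 + 1) → ℝ, H = ham b w := by
  have hs : ∀ u v : E 3, inner ℂ (H u) v = inner ℂ u (H v) :=
    fun u v => (ContinuousLinearMap.isSelfAdjoint_iff_isSymmetric.1 hH) u v
  choose c hc using hb
  have hcr : ∀ k, (starRingEnd ℂ) (c k) = c k := by
    intro k
    have h1 := hs (b k) (b k)
    rw [hc k, inner_smul_left, inner_smul_right, inner_self_eq_norm_sq_to_K,
      b.orthonormal.1 k] at h1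
    simpa using h1
  refine ⟨fun k => (c k).re, ?_⟩
  refine ContinuousLinearMap.ext fun v => ext_coord' b fun k => ?_
  rw [coord_ham, ← hs, hc k, inner_smul_left, hcr k]
  have h2 : (((c k).re : ℝ) : ℂ) = c k := Complex.conj_eq_iff_re.1 (hcr k)
  rw [h2]

private theorem basis_two {A B : E 3 →ₗ[ℂ] E 3} (hA : A.IsSymmetric) (hB : B.IsSymmetric)
    (hAB : ∀ v, A (B v) = B (A v)) :
    ∃ b : OrthonormalBasis (Fin (3 + 1)) ℂ (E 3), ∀ k, (∃ c : ℂ, A (b k) = c • b k) ∧
      ∃ c : ℂ, B (b k) = c • b k := by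
  classical
  have hinv : ∀ μ : ℂ, ∀ v ∈ Module.End.eigenspace A μ, B v ∈ Module.End.eigenspace A μ := by
    intro μ v hv
    rw [Module.End.mem_eigenspace_iff] at hv ⊢
    rw [hAB, hv, map_smul]
  let v : ∀ μ : Module.End.Eigenvalues A,
      OrthonormalBasis (Fin (Module.finrank ℂ (Module.End.eigenspace A (μ : ℂ)))) ℂ
        (Module.End.eigenspace A (μ : ℂ)) :=
    fun μ => (hB.restrict_invariant (hinv μ)).eigenvectorBasis rfl
  let b0 := hA.direct_sum_isInternal.collectedOrthonormalBasis hA.orthogonalFamily_eigenspaces' v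
  have hb0 : ∀ a, b0 a = (v a.1 a.2 : E 3) := by
    intro a
    simp [b0, DirectSum.IsInternal.collectedOrthonormalBasis]
  have hcard : Fintype.card (Σ μ : Module.End.Eigenvalues A,
      Fin (Module.finrank ℂ (Module.End.eigenspace A (μ : ℂ)))) = 3 + 1 := by
    rw [← Module.finrank_eq_card_basis b0.toBasis]
    simp
  refine ⟨b0.reindex (Fintype.equivFinOfCardEq hcard), fun k => ?_⟩
  rw [OrthonormalBasis.reindex_apply, hb0]
  generalize (Fintype.equivFinOfCardEq hcard).symm k = a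
  refine ⟨⟨(a.1 : ℂ), ?_⟩, ?_⟩
  · have h := (v a.1 a.2).2
    rw [Module.End.mem_eigenspace_iff] at h
    exact h
  · have h := (hB.restrict_invariant (hinv a.1)).apply_eigenvectorBasis rfl a.2
    have h1 := congrArg Subtype.val h
    exact ⟨_, h1⟩

/-- spectral theorem (LinearMap.IsSymmetric.eigenvectorBasis) -/
theorem diag_one {H : Op 3} (hH : IsSelfAdjoint H) :
    ∃ (b : OrthonormalBasis (Fin (3 + 1)) ℂ (E 3)) (w : Fin (3 + 1) → ℝ), H = ham b w := by
  have hs := ContinuousLinearMap.isSelfAdjoint_iff_isSymmetric.1 hH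
  obtain ⟨b, hb⟩ := basis_two hs hs fun _ => rfl
  obtain ⟨w, hw⟩ := of_eig hH b fun k => (hb k).1
  exact ⟨b, w, hw⟩

/-- simultaneous diagonalisation (LinearMap.IsSymmetric.directSum_isInternal_of_commute and
subordinateOrthonormalBasis), or by hand: B restricted to the eigenspaces of A -/
theorem diag_comm {A B : Op 3} (hA : IsSelfAdjoint A) (hB : IsSelfAdjoint B) (h : br A B = 0) :
    ∃ (b : OrthonormalBasis (Fin (3 + 1)) ℂ (E 3)) (w w' : Fin (3 + 1) → ℝ),
      A = ham b w ∧ B = ham b w' := by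
  have hc : A * B = B * A := by
    have h1 : Complex.I • (A * B - B * A) = 0 := h
    have h2 : A * B - B * A = 0 := (smul_eq_zero.1 h1).resolve_left Complex.I_ne_zero
    exact sub_eq_zero.1 h2
  obtain ⟨b, hb⟩ := basis_two (ContinuousLinearMap.isSelfAdjoint_iff_isSymmetric.1 hA)
    (ContinuousLinearMap.isSelfAdjoint_iff_isSymmetric.1 hB) fun v => by
      have h3 := congrArg (fun T : Op 3 => T v) hc
      exact h3
  obtain ⟨w, hw⟩ := of_eig hA b fun k => (hb k).1
  obtain ⟨w', hw'⟩ := of_eig hB b fun k => (hb k).2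
  exact ⟨b, w, w', hw, hw'⟩

end Pool.Agent.H66.SyM
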