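import Pool.Agent.H66.SyM.Defs

/-! Conjugation by exp(iH). -/

set_option autoImplicit false

open scoped ContDiff Topology

namespace Pool.Agent.H66.SyM

open Pool.Agent.H66.SyL

section Gen

/-! the same in an abstract algebra -/

variable {A : Type*} [NormedRing A] [NormedAlgebra ℂ A] [CompleteSpace A]

private noncomputable def gcj (H P : A) : A :=
  NormedSpace.exp (Complex.I • H) * P * NormedSpace.exp (-(Complex.I • H))

private noncomputable def gbr (H P : A) : A := Complex.I • (H * P - P * H)

private theorem gexp_add {X Y : A} (h : Commute X Y) :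
    NormedSpace.exp (X + Y) = NormedSpace.exp X * NormedSpace.exp Y := by
  let +nondep : NormedAlgebra ℚ A := .restrictScalars ℚ ℂ A
  exact NormedSpace.exp_add_of_commute h

private theorem gexp_mul_neg (X : A) : NormedSpace.exp X * NormedSpace.exp (-X) = 1 := by
  rw [← gexp_add (Commute.refl X).neg_right, add_neg_cancel, NormedSpace.exp_zero]

private theorem gexp_neg_mul (X : A) : NormedSpace.exp (-X) * NormedSpace.exp X = 1 := by
  rw [← gexp_add (Commute.refl X).neg_left, neg_add_cancel, NormedSpace.exp_zero]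

private theorem gdexp (X : A) (t : ℝ) :
    HasDerivAt (fun t : ℝ => NormedSpace.exp (t • X)) (X * NormedSpace.exp (t • X)) t :=
  hasDerivAt_exp_smul_const' X t

private theorem gdexp' (X : A) (t : ℝ) :
    HasDerivAt (fun t : ℝ => NormedSpace.exp (t • X)) (NormedSpace.exp (t • X) * X) t :=
  hasDerivAt_exp_smul_const X t

private theorem gcj_smul (H : A) (t : ℝ) (P : A) : gcj (t • H) P =
    NormedSpace.exp (t • (Complex.I • H)) * P * NormedSpace.exp (t • (-(Complex.I • H))) := by
  unfold gcj
  rw [smul_comm Complex.I t H, smul_neg]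

private theorem gcj_zero (P : A) : gcj 0 P = P := by
  unfold gcj
  rw [smul_zero, neg_zero, NormedSpace.exp_zero, one_mul, mul_one]

private theorem gcj_add (H : A) (s t : ℝ) (P : A) :
    gcj ((s + t) • H) P = gcj (s • H) (gcj (t • H) P) := by
  rw [gcj_smul, gcj_smul, gcj_smul, add_smul,
    gexp_add (((Commute.refl (Complex.I • H)).smul_left s).smul_right t), add_comm s t, add_smul,
    gexp_add (((Commute.refl (-(Complex.I • H))).smul_left t).smul_right s)]
  simp only [mul_assoc]

private theorem gbr_self (H : A) : gbr H H = 0 := by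
  unfold gbr
  rw [sub_self, smul_zero]

private theorem gbr_comm (H K : A) : gbr K H = -gbr H K := by
  unfold gbr
  rw [← smul_neg, neg_sub]

private theorem gbr_add_left (H K P : A) : gbr (H + K) P = gbr H P + gbr K P := by
  unfold gbr
  rw [← smul_add]
  congr 1
  noncomm_ring

private theorem gbr_smul_left (c : ℝ) (H P : A) : gbr (c • H) P = c • gbr H P := by
  unfold gbr
  rw [smul_mul_assoc, mul_smul_comm, ← smul_sub, smul_comm]

private theorem gjacobi (H K P : A) : gbr H (gbr K P) = gbr (gbr H K) P + gbr K (gbr H P) := by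
  unfold gbr
  simp only [smul_mul_assoc, mul_smul_comm, ← smul_sub, ← smul_add]
  congr 2
  noncomm_ring

private theorem gcontinuous_cj (H : A) : Continuous (gcj H) := by
  unfold gcj
  exact (continuous_const.mul continuous_id).mul continuous_const

private theorem ghasDerivAt_cj (H P : A) (t : ℝ) :
    HasDerivAt (fun t : ℝ => gcj (t • H) P) (gbr H (gcj (t • H) P)) t := by
  have h1 := ((gdexp (Complex.I • H) t).mul_const P).mul (gdexp' (-(Complex.I • H)) t)
  have h2 : (fun t : ℝ => gcj (t • H) P) = fun t : ℝ =>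
      NormedSpace.exp (t • (Complex.I • H)) * P * NormedSpace.exp (t • (-(Complex.I • H))) := by
    funext s
    exact gcj_smul H s P
  rw [h2]
  refine h1.congr_deriv ?_
  rw [gcj_smul]
  unfold gbr
  simp only [smul_sub, smul_mul_assoc, mul_smul_comm, mul_neg, mul_assoc]
  abel

private theorem gode_unique (H : A) {g : ℝ → A} {a : ℝ} (ha : 0 < a)
    (hg : ∀ t ∈ Set.Ioo (-a) a, HasDerivAt g (gbr H (g t)) t) :
    ∀ t ∈ Set.Ioo (-a) a, g t = gcj (t • H) (g 0) := by
  set X : A := Complex.I • H with hX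
  set h : ℝ → A := fun t =>
    NormedSpace.exp (t • (-X)) * g t * NormedSpace.exp (t • X) with hh
  have hd : ∀ t ∈ Set.Ioo (-a) a, HasDerivAt h 0 t := by
    intro t ht
    have h1 := ((gdexp' (-X) t).mul (hg t ht)).mul (gdexp X t)
    refine h1.congr_deriv ?_
    have h2 : gbr H (g t) = X * g t - g t * X := by
      rw [hX]
      unfold gbr
      rw [smul_sub, smul_mul_assoc, mul_smul_comm]
    have h3 : ((fun t : ℝ => NormedSpace.exp (t • (-X))) * g) t =
        NormedSpace.exp (t • (-X)) * g t := rfl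
    rw [h2, h3]
    generalize NormedSpace.exp (t • (-X)) = U
    generalize NormedSpace.exp (t • X) = V
    noncomm_ring
  have hc : ∀ t ∈ Set.Ioo (-a) a, h t = h 0 := by
    intro t ht
    have h0 : (0 : ℝ) ∈ Set.Ioo (-a) a := ⟨by linarith, ha⟩
    refine (convex_Ioo (-a) a).is_const_of_fderivWithin_eq_zero (𝕜 := ℝ)
      (fun s hs => ((hd s hs).differentiableAt).differentiableWithinAt) ?_ ht h0
    intro s hs
    rw [fderivWithin_of_isOpen isOpen_Ioo hs]
    have h3 := (hd s hs).hasFDerivAt.fderiv
    rw [h3]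
    ext
    simp
  intro t ht
  have h1 : h 0 = g 0 := by
    rw [hh]
    simp only [zero_smul, NormedSpace.exp_zero, one_mul, mul_one]
  have h2 := hc t ht
  rw [h1] at h2
  rw [gcj_smul, ← hX, ← h2, hh]
  simp only [smul_neg]
  have e1 := gexp_mul_neg (t • X)
  calc g t = (NormedSpace.exp (t • X) * NormedSpace.exp (-(t • X))) * g t *
        (NormedSpace.exp (t • X) * NormedSpace.exp (-(t • X))) := by
        rw [e1, one_mul, mul_one]
    _ = _ := by simp only [mul_assoc]

private theorem gexp_conj (H X : A) :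
    NormedSpace.exp (NormedSpace.exp (Complex.I • H) * X * NormedSpace.exp (-(Complex.I • H))) =
      NormedSpace.exp (Complex.I • H) * NormedSpace.exp X * NormedSpace.exp (-(Complex.I • H)) := by
  let u : Aˣ := ⟨NormedSpace.exp (Complex.I • H), NormedSpace.exp (-(Complex.I • H)),
    gexp_mul_neg _, gexp_neg_mul _⟩
  let +nondep : NormedAlgebra ℚ A := .restrictScalars ℚ ℂ A
  exact NormedSpace.exp_units_conj u X

private theorem gcj_cj (H K P : A) : gcj (gcj H K) P = gcj H (gcj K (gcj (-H) P)) := by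
  have h1 : Complex.I • gcj H K =
      NormedSpace.exp (Complex.I • H) * (Complex.I • K) * NormedSpace.exp (-(Complex.I • H)) := by
    unfold gcj
    simp only [smul_mul_assoc, mul_smul_comm]
  have h2 : -(Complex.I • gcj H K) =
      NormedSpace.exp (Complex.I • H) * (-(Complex.I • K)) * NormedSpace.exp (-(Complex.I • H)) := by
    rw [h1]
    simp only [mul_neg, neg_mul]
  have h3 : gcj (gcj H K) P = NormedSpace.exp (Complex.I • gcj H K) * P *
      NormedSpace.exp (-(Complex.I • gcj H K)) := rfl
  rw [h3, h2, h1, gexp_conj, gexp_conj]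
  unfold gcj
  rw [smul_neg, neg_neg]
  simp only [mul_assoc]

variable [StarRing A] [ContinuousStar A] [StarModule ℂ A]

private theorem gskew {H : A} (hH : IsSelfAdjoint H) : star (Complex.I • H) = -(Complex.I • H) := by
  rw [star_smul, hH.star_eq]
  have h : (star Complex.I : ℂ) = -Complex.I := Complex.conj_I
  rw [h, neg_smul]

private theorem gisSelfAdjoint_br {H K : A} (hH : IsSelfAdjoint H) (hK : IsSelfAdjoint K) :
    IsSelfAdjoint (gbr H K) := by
  unfold gbr
  rw [isSelfAdjoint_iff, star_smul, star_sub, star_mul, star_mul, hH.star_eq, hK.star_eq]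
  have h : (star Complex.I : ℂ) = -Complex.I := Complex.conj_I
  rw [h, neg_smul, ← smul_neg, neg_sub]

private theorem gexp_unitary {H : A} (hH : IsSelfAdjoint H) :
    NormedSpace.exp (Complex.I • H) ∈ unitary A := by
  let +nondep : NormedAlgebra ℚ A := .restrictScalars ℚ ℂ A
  exact NormedSpace.exp_mem_unitary_of_mem_skewAdjoint (skewAdjoint.mem_iff.2 (gskew hH))

private theorem gstar_exp {H : A} (hH : IsSelfAdjoint H) :
    star (NormedSpace.exp (Complex.I • H)) = NormedSpace.exp (-(Complex.I • H)) := by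
  let +nondep : NormedAlgebra ℚ A := .restrictScalars ℚ ℂ A
  rw [NormedSpace.star_exp, gskew hH]

private theorem gisSelfAdjoint_cj {H K : A} (hH : IsSelfAdjoint H) (hK : IsSelfAdjoint K) :
    IsSelfAdjoint (gcj H K) := by
  unfold gcj
  rw [isSelfAdjoint_iff, star_mul, star_mul, hK.star_eq, gstar_exp hH, ← gstar_exp hH, star_star,
    mul_assoc]

end Gen

section Hil

variable {F : Type*} [NormedAddCommGroup F] [InnerProductSpace ℂ F] [CompleteSpace F]

private theorem hnorm_exp {H : F →L[ℂ] F} (hH : IsSelfAdjoint H) (z : F) :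
    ‖NormedSpace.exp (Complex.I • H) z‖ = ‖z‖ := by
  have h1 : NormedSpace.exp (Complex.I • H) ∈ unitary (F →L[ℂ] F) :=
    gexp_unitary (A := F →L[ℂ] F) hH
  exact ContinuousLinearMap.norm_map_of_mem_unitary h1 z

private theorem hinner_exp {H : F →L[ℂ] F} (hH : IsSelfAdjoint H) (z v : F) :
    (inner ℂ (NormedSpace.exp (Complex.I • H) z) v : ℂ) =
      inner ℂ z (NormedSpace.exp (-(Complex.I • H)) v) := by
  rw [← gstar_exp hH, ContinuousLinearMap.star_eq_adjoint, ContinuousLinearMap.adjoint_inner_right]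

private theorem hexp_unique (H : F →L[ℂ] F) {z : ℝ → F}
    (hz : ∀ t, HasDerivAt z (Complex.I • H (z t)) t) (t : ℝ) :
    z t = NormedSpace.exp (Complex.I • (t • H)) (z 0) := by
  set X : F →L[ℂ] F := Complex.I • H with hX
  set h : ℝ → F := fun t => NormedSpace.exp (t • (-X)) (z t) with hh
  have hd : ∀ t, HasDerivAt h 0 t := by
    intro t
    have h0 : HasDerivAt (fun t : ℝ =>
        ((NormedSpace.exp (t • (-X)) : F →L[ℂ] F).restrictScalars ℝ))
        ((NormedSpace.exp (t • (-X)) * (-X) : F →L[ℂ] F).restrictScalars ℝ) t := by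
      have h3 := (ContinuousLinearMap.restrictScalarsL ℂ F F ℝ ℝ).hasFDerivAt.comp_hasDerivAt t
        (gdexp' (-X) t)
      exact h3
    have h1 := h0.clm_apply (hz t)
    refine h1.congr_deriv ?_
    show (NormedSpace.exp (t • (-X)) * (-X) : F →L[ℂ] F) (z t) +
      (NormedSpace.exp (t • (-X)) : F →L[ℂ] F) (Complex.I • H (z t)) = 0
    have h4 : (NormedSpace.exp (t • (-X)) * (-X) : F →L[ℂ] F) (z t) =
        (NormedSpace.exp (t • (-X)) : F →L[ℂ] F) ((-X : F →L[ℂ] F) (z t)) := rfl
    rw [h4, ← map_add]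
    have h5 : (-X : F →L[ℂ] F) (z t) + Complex.I • H (z t) = 0 := by
      rw [hX]
      show -(Complex.I • H (z t)) + Complex.I • H (z t) = 0
      exact neg_add_cancel _
    rw [h5, map_zero]
  have hc : h t = h 0 := is_const_of_deriv_eq_zero (fun s => (hd s).differentiableAt)
    (fun s => (hd s).deriv) t 0
  have h1 : h 0 = z 0 := by
    rw [hh]
    simp only [zero_smul, NormedSpace.exp_zero]
    rfl
  rw [smul_comm Complex.I t H, ← hX, ← h1, ← hc, hh]
  have e1 := gexp_mul_neg (t • X)
  show z t = NormedSpace.exp (t • X) (NormedSpace.exp (t • -X) (z t))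
  rw [smul_neg]
  have h6 : NormedSpace.exp (t • X) (NormedSpace.exp (-(t • X)) (z t)) =
    (NormedSpace.exp (t • X) * NormedSpace.exp (-(t • X)) : F →L[ℂ] F) (z t) := rfl
  rw [h6, e1]
  rfl

private theorem hexp_eigen {H : F →L[ℂ] F} {z : F} {c : ℝ} (h : H z = (c : ℂ) • z) (t : ℝ) :
    NormedSpace.exp (Complex.I • (t • H)) z = Complex.exp ((c * t : ℝ) * Complex.I) • z := by
  have h1 := hexp_unique H (z := fun t : ℝ => Complex.exp ((c * t : ℝ) * Complex.I) • z) (by
    intro s
    have h2 : HasDerivAt (fun t : ℝ => ((c * t : ℝ) : ℂ) * Complex.I) ((c : ℂ) * Complex.I) s := by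
      have h3 : HasDerivAt (fun t : ℝ => c * t) c s := by
        simpa using (hasDerivAt_id s).const_mul c
      exact h3.ofReal_comp.mul_const Complex.I
    have h4 := h2.cexp.smul_const z
    refine h4.congr_deriv ?_
    rw [map_smul, h, smul_smul, smul_smul]
    congr 1
    ring) t
  have h5 : Complex.exp ((c * (0 : ℝ) : ℝ) * Complex.I) • z = z := by
    rw [mul_zero, Complex.ofReal_zero, zero_mul, Complex.exp_zero, one_smul]
  simp only [h5] at h1
  exact h1.symm

end Hil

variable {n : ℕ}

theorem cj_zero (P : Op n) : cj 0 P = P := gcj_zero P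

theorem cj_add (H : Op n) (s t : ℝ) (P : Op n) : cj ((s + t) • H) P = cj (s • H) (cj (t • H) P) :=
  gcj_add H s t P

theorem br_self (A : Op n) : br A A = 0 := gbr_self A

theorem br_comm (A B : Op n) : br B A = -br A B := gbr_comm A B

theorem br_add_left (A B P : Op n) : br (A + B) P = br A P + br B P := gbr_add_left A B P

theorem br_smul_left (c : ℝ) (A P : Op n) : br (c • A) P = c • br A P := gbr_smul_left c A P

theorem jacobi (A B C : Op n) : br A (br B C) = br (br A B) C + br B (br A C) := gjacobi A B C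

theorem isSelfAdjoint_br {A B : Op n} (hA : IsSelfAdjoint A) (hB : IsSelfAdjoint B) :
    IsSelfAdjoint (br A B) := gisSelfAdjoint_br hA hB

/-- cj H P is linear and continuous in P -/
theorem continuous_cj (H : Op n) : Continuous (cj H) := gcontinuous_cj H

theorem hasDerivAt_cj (H P : Op n) (t : ℝ) :
    HasDerivAt (fun t : ℝ => cj (t • H) P) (br H (cj (t • H) P)) t := ghasDerivAt_cj H P t

/-- uniqueness for g' = i[H, g]: the derivative of cj (-t H) (g t) vanishes -/
theorem ode_unique (H : Op n) {g : ℝ → Op n} {a : ℝ} (ha : 0 < a)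
    (hg : ∀ t ∈ Set.Ioo (-a) a, HasDerivAt g (br H (g t)) t) :
    ∀ t ∈ Set.Ioo (-a) a, g t = cj (t • H) (g 0) := gode_unique H ha hg

/-- exp(i cj H K) = exp(iH) exp(iK) exp(-iH) -/
theorem cj_cj (H K P : Op n) : cj (cj H K) P = cj H (cj K (cj (-H) P)) := gcj_cj H K P

theorem isSelfAdjoint_cj {H K : Op n} (hH : IsSelfAdjoint H) (hK : IsSelfAdjoint K) :
    IsSelfAdjoint (cj H K) := gisSelfAdjoint_cj hH hK

/-- exp(iH) is unitary -/
theorem norm_exp {H : Op n} (hH : IsSelfAdjoint H) (z : E n) :
    ‖NormedSpace.exp (Complex.I • H) z‖ = ‖z‖ := hnorm_exp hH z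

theorem cj_pt {H : Op n} (hH : IsSelfAdjoint H) (z : E n) :
    cj H (pt z) = pt (NormedSpace.exp (Complex.I • H) z) := by
  refine ContinuousLinearMap.ext fun v => ?_
  have h1 : cj H (pt z) v =
      NormedSpace.exp (Complex.I • H) (pt z (NormedSpace.exp (-(Complex.I • H)) v)) := rfl
  rw [h1, pt_apply, pt_apply, map_smul, hinner_exp hH z v]

/-- an eigenvector of H -/
theorem exp_eigen {H : Op n} {z : E n} {c : ℝ} (h : H z = (c : ℂ) • z) (t : ℝ) :
    NormedSpace.exp (Complex.I • (t • H)) z = Complex.exp ((c * t : ℝ) * Complex.I) • z :=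
  hexp_eigen h t

/-- uniqueness for z' = iHz: if z(t) has derivative i H z(t) then z(t) = exp(itH) z(0) -/
theorem exp_unique (H : Op n) {z : ℝ → E n}
    (hz : ∀ t, HasDerivAt z (Complex.I • H (z t)) t) (t : ℝ) :
    z t = NormedSpace.exp (Complex.I • (t • H)) (z 0) :=
  hexp_unique H hz t

theorem isSelfAdjoint_ham (b : OrthonormalBasis (Fin (n + 1)) ℂ (E n)) (w : Fin (n + 1) → ℝ) :
    IsSelfAdjoint (ham b w) := by
  rw [ContinuousLinearMap.isSelfAdjoint_iff_isSymmetric]
  intro u v
  exact inner_ham b w u v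

private theorem ext_b (b : OrthonormalBasis (Fin (n + 1)) ℂ (E n)) {u v : E n}
    (h : ∀ j, (inner ℂ (b j) u : ℂ) = inner ℂ (b j) v) : u = v := by
  rw [← b.sum_repr' u, ← b.sum_repr' v]
  exact Finset.sum_congr rfl fun j _ => by rw [h j]

private theorem smul_ham (b : OrthonormalBasis (Fin (n + 1)) ℂ (E n)) (w : Fin (n + 1) → ℝ)
    (t : ℝ) : t • ham b w = ham b (t • w) := by
  refine ContinuousLinearMap.ext fun v => ext_b b fun j => ?_
  have h1 : (t • ham b w : Op n) v = (t : ℂ) • (ham b w v) := rfl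
  rw [h1, inner_smul_right, coord_ham, coord_ham, Pi.smul_apply, smul_eq_mul, Complex.ofReal_mul,
    mul_assoc]

private theorem ham_basis (b : OrthonormalBasis (Fin (n + 1)) ℂ (E n)) (w : Fin (n + 1) → ℝ)
    (k : Fin (n + 1)) : ham b w (b k) = ((w k : ℝ) : ℂ) • b k := by
  refine ext_b b fun j => ?_
  rw [coord_ham, inner_smul_right, orthonormal_iff_ite.1 b.orthonormal j k]
  by_cases h : j = k
  · rw [h]
  · rw [if_neg h, mul_zero, mul_zero]

private theorem rot_basis (b : OrthonormalBasis (Fin (n + 1)) ℂ (E n)) (w : Fin (n + 1) → ℝ)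
    (k : Fin (n + 1)) : rot b w (b k) = Complex.exp ((w k : ℂ) * Complex.I) • b k := by
  refine ext_b b fun j => ?_
  rw [coord_rot, inner_smul_right, orthonormal_iff_ite.1 b.orthonormal j k]
  by_cases h : j = k
  · rw [h]
  · rw [if_neg h, mul_zero, mul_zero]

private theorem exp_ham (b : OrthonormalBasis (Fin (n + 1)) ℂ (E n)) (w : Fin (n + 1) → ℝ) :
    NormedSpace.exp (Complex.I • ham b w) = rot b w := by
  have h : ((NormedSpace.exp (Complex.I • ham b w) : Op n) : E n →ₗ[ℂ] E n) =
      ((rot b w : Op n) : E n →ₗ[ℂ] E n) := by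
    refine b.toBasis.ext fun k => ?_
    rw [OrthonormalBasis.coe_toBasis]
    show NormedSpace.exp (Complex.I • ham b w) (b k) = rot b w (b k)
    have h1 := exp_eigen (ham_basis b w k) 1
    have h2 : ((1 : ℝ) • ham b w : Op n) = ham b w := by
      rw [smul_ham, one_smul]
    rw [h2, mul_one] at h1
    rw [h1, rot_basis]
  exact ContinuousLinearMap.coe_injective h

theorem cj_ham (b : OrthonormalBasis (Fin (n + 1)) ℂ (E n)) (w : Fin (n + 1) → ℝ) (P : Op n) :
    cj (ham b w) P = act b w P := by
  have h1 : -(Complex.I • ham b w : Op n) = Complex.I • ham b (-w) := by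
    refine ContinuousLinearMap.ext fun v => ext_b b fun j => ?_
    have h2 : (-(Complex.I • ham b w : Op n)) v = -(Complex.I • (ham b w v)) := rfl
    have h3 : (Complex.I • ham b (-w) : Op n) v = Complex.I • (ham b (-w) v) := rfl
    rw [h2, h3, inner_neg_right, inner_smul_right, inner_smul_right, coord_ham, coord_ham,
      Pi.neg_apply, Complex.ofReal_neg]
    ring
  have h4 : cj (ham b w) P = NormedSpace.exp (Complex.I • ham b w) * P *
      NormedSpace.exp (-(Complex.I • ham b w)) := rfl
  rw [h4, h1, exp_ham, exp_ham]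
  rfl

theorem symm_ham (b : OrthonormalBasis (Fin (n + 1)) ℂ (E n)) (L : Set (Op n))
    (w : Fin (n + 1) → ℝ) : Symm L (ham b w) ↔ Sym b L w := by
  constructor
  · rintro ⟨-, h⟩ t P hP
    have h1 := h t P hP
    rw [smul_ham, cj_ham] at h1
    exact h1
  · intro h
    refine ⟨isSelfAdjoint_ham b w, fun t P hP => ?_⟩
    rw [smul_ham, cj_ham]
    exact h t P hP

end Pool.Agent.H66.SyM
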