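import Pool.Agent.H66.SyM.Tan

/-! Tangent infinitesimal isometries are symmetries. -/

set_option autoImplicit false

open scoped ContDiff Topology

namespace Pool.Agent.H66.SyM

open Pool.Agent.H66.SyL

variable {n : ℕ} {L : Set (Op n)}

/-- the vector field in the chart: C^1 with Dp V = X -/
private theorem exists_field {F : Type*} [NormedAddCommGroup F] [NormedSpace ℝ F]
    {p : R n → F} {x0 : R n} {δ : ℝ} (hδ : 0 < δ) (hp : ContDiffOn ℝ ∞ p (Metric.ball x0 δ))
    (Pr : F →L[ℝ] R n) (hPr : ∀ u, Pr (fderiv ℝ p x0 u) = u) (X : F →L[ℝ] F)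
    (hX : ∀ x ∈ Metric.ball x0 δ, ∃ y, X (p x) = fderiv ℝ p x y) :
    ∃ V : R n → R n, ContDiffAt ℝ 1 V x0 ∧ ∀ᶠ x in 𝓝 x0, fderiv ℝ p x (V x) = X (p x) := by
  have hmem : Metric.ball x0 δ ∈ 𝓝 x0 := Metric.ball_mem_nhds x0 hδ
  have hpa : ContDiffAt ℝ ∞ p x0 := hp.contDiffAt hmem
  have hd : ContDiffAt ℝ 1 (fderiv ℝ p) x0 := hpa.fderiv_right (WithTop.coe_le_coe.2 le_top)
  have hB : ContDiffAt ℝ 1 (fun x => Pr.comp (fderiv ℝ p x)) x0 :=
    contDiffAt_const.clm_comp hd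
  have hB0 : Pr.comp (fderiv ℝ p x0) = ((ContinuousLinearEquiv.refl ℝ (R n) : R n ≃L[ℝ] R n) :
      R n →L[ℝ] R n) := by
    ext u
    simp [hPr]
  have hinv : ContDiffAt ℝ 1 (fun x => (Pr.comp (fderiv ℝ p x)).inverse) x0 := by
    have h1 : ContDiffAt ℝ 1 (ContinuousLinearMap.inverse : (R n →L[ℝ] R n) → (R n →L[ℝ] R n))
        (Pr.comp (fderiv ℝ p x0)) := by
      rw [hB0]
      exact contDiffAt_map_inverse _
    exact ContDiffAt.comp x0 h1 hB
  refine ⟨fun x => (Pr.comp (fderiv ℝ p x)).inverse (Pr (X (p x))), ?_, ?_⟩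
  · refine hinv.clm_apply ?_
    exact Pr.contDiff.contDiffAt.comp x0 (X.contDiff.contDiffAt.comp x0 (hpa.of_le (by norm_num)))
  · have hopen : ∀ᶠ x in 𝓝 x0, Pr.comp (fderiv ℝ p x) ∈
        Set.range ((↑) : (R n ≃L[ℝ] R n) → (R n →L[ℝ] R n)) := by
      refine hB.continuousAt.eventually_mem ?_
      rw [hB0]
      exact ContinuousLinearEquiv.nhds _
    filter_upwards [hopen, hmem] with x hx1 hx2
    obtain ⟨y, hy⟩ := hX x hx2
    obtain ⟨e, he⟩ := hx1
    have hI : (Pr.comp (fderiv ℝ p x)).IsInvertible := ⟨e, he⟩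
    have h1 : (Pr.comp (fderiv ℝ p x)).inverse (Pr (X (p x))) = y := by
      rw [hy]
      exact hI.inverse_apply_self y
    rw [h1, hy]

private theorem br_clm (H : Op n) : ∃ X : Op n →L[ℝ] Op n, ∀ P, X P = br H P := by
  let A1 : Op n →L[ℂ] Op n := ContinuousLinearMap.mul ℂ (Op n) H
  let A2 : Op n →L[ℂ] Op n := (ContinuousLinearMap.mul ℂ (Op n)).flip H
  refine ⟨(Complex.I • (A1 - A2)).restrictScalars ℝ, fun P => ?_⟩
  rfl

/-- Proof. exists_chart at P = p x0; pi a continuous real linear left inverse of A = fderiv p x0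
(injective, finite dimension). B(x) = pi o fderiv p x is smooth, B(x0) = id, so B(x) is invertible near
x0 and V(x) = B(x)^(-1) (pi (br H (p x))) is C^1 near x0 (ContinuousLinearMap.inverse or Ring.inverse,
contDiffAt_map_inverse / contDiffAt_ringInverse). By tang_iff br H (p x) = Dp y for some y,
so V(x) = y and Dp V(x) = br H (p x). Solve x' = V(x), x(0) = x0 (Picard-Lindeloef:
ContDiffAt.exists_forall_hasDerivAt_Ioo_eq_of_contDiffAt or its current name). g = p o x satisfies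
g' = br H g, so g t = cj (t H) P by ode_unique. -/
theorem local_flow (hL : IsLagrangian L) {H : Op n} (ht : ∀ P ∈ L, Tang L P (br H P)) {P : Op n}
    (hP : P ∈ L) : ∃ a > (0 : ℝ), ∀ t ∈ Set.Ioo (-a) a, cj (t • H) P ∈ L := by
  obtain ⟨p, r, x0, δ, U, hδ, hU, hPU, hp, hr, hx0, h1, h2⟩ := exists_chart hL hP
  have hmem : Metric.ball x0 δ ∈ 𝓝 x0 := Metric.ball_mem_nhds x0 hδ
  have hx0m : x0 ∈ Metric.ball x0 δ := Metric.mem_ball_self hδ
  obtain ⟨X, hX⟩ := br_clm H
  -- the left inverse is the derivative of r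
  have hPr : ∀ u, fderiv ℝ r (p x0) (fderiv ℝ p x0 u) = u := by
    have hpd : HasFDerivAt p (fderiv ℝ p x0) x0 :=
      ((hp.differentiableOn (by norm_num)).differentiableAt hmem).hasFDerivAt
    have hrd : HasFDerivAt r (fderiv ℝ r (p x0)) (p x0) := by
      refine ((hr.differentiableOn (by norm_num)).differentiableAt (hU.mem_nhds ?_)).hasFDerivAt
      rw [hx0]
      exact hPU
    have hc := hrd.comp x0 hpd
    have hid : (r ∘ p) =ᶠ[𝓝 x0] id := by
      filter_upwards [hmem] with x hx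
      exact (h1 x hx).2.1
    have h3 := (hc.congr_of_eventuallyEq hid.symm).unique (hasFDerivAt_id x0)
    intro u
    exact congrArg (fun A : R n →L[ℝ] R n => A u) h3
  obtain ⟨V, hV, hVX⟩ := exists_field hδ hp (fderiv ℝ r (p x0)) hPr X (by
    intro x hx
    have h3 := (tang_iff p r x0 δ U hU hp hr (fun x hx => ⟨(h1 x hx).1, (h1 x hx).2.1⟩) h2 hx
      (br H (p x))).1 (ht _ (h1 x hx).1.1)
    rw [hX]
    exact h3)
  obtain ⟨α, hα0, ε, hε, hα⟩ :=
    hV.exists_forall_mem_closedBall_exists_eq_forall_mem_Ioo_hasDerivAt₀ 0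
  have hα' : ∀ t ∈ Set.Ioo (-ε) ε, HasDerivAt α (V (α t)) t := by
    intro t ht'
    exact hα t (by rw [zero_sub, zero_add]; exact ht')
  have hcont : ContinuousAt α 0 := (hα' 0 ⟨by linarith, hε⟩).continuousAt
  have hev : ∀ᶠ t in 𝓝 (0 : ℝ), α t ∈ Metric.ball x0 δ ∧
      fderiv ℝ p (α t) (V (α t)) = X (p (α t)) := by
    have h3 : ∀ᶠ x in 𝓝 (α 0), x ∈ Metric.ball x0 δ ∧ fderiv ℝ p x (V x) = X (p x) := by
      rw [hα0]
      exact (show ∀ᶠ x in 𝓝 x0, x ∈ Metric.ball x0 δ from hmem).and hVX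
    exact hcont.eventually h3
  obtain ⟨a, ha, hball⟩ := Metric.eventually_nhds_iff.1 hev
  have hm : 0 < min a ε := lt_min ha hε
  have hin : ∀ t ∈ Set.Ioo (-(min a ε)) (min a ε), (α t ∈ Metric.ball x0 δ ∧
      fderiv ℝ p (α t) (V (α t)) = X (p (α t))) ∧ t ∈ Set.Ioo (-ε) ε := by
    intro t ht'
    have h3 : |t| < min a ε := abs_lt.2 ht'
    refine ⟨hball ?_, abs_lt.1 (lt_of_lt_of_le h3 (min_le_right _ _))⟩
    rw [Real.dist_eq, sub_zero]
    exact lt_of_lt_of_le h3 (min_le_left _ _)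
  have hder : ∀ t ∈ Set.Ioo (-(min a ε)) (min a ε),
      HasDerivAt (fun t => p (α t)) (br H (p (α t))) t := by
    intro t ht'
    obtain ⟨⟨h3, h4⟩, h5⟩ := hin t ht'
    have hpd : HasFDerivAt p (fderiv ℝ p (α t)) (α t) :=
      ((hp.differentiableOn (by norm_num)).differentiableAt
        (Metric.isOpen_ball.mem_nhds h3)).hasFDerivAt
    have h6 := hpd.comp_hasDerivAt t (hα' t h5)
    rw [h4, hX] at h6
    exact h6
  have huniq := ode_unique H hm hder
  refine ⟨min a ε, hm, fun t ht' => ?_⟩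
  have h3 := huniq t ht'
  rw [hα0, hx0] at h3
  rw [← h3]
  exact (h1 _ (hin t ht').1.1).1.1

/-- Proof. For P in L the set {t : cj (t H) P in L} contains 0, is closed (L compact, hence closed,
hasDerivAt_cj gives continuity) and open (cj_add and local_flow at cj (t H) P), so it is everything. -/
theorem symm_of_tang (hL : IsLagrangian L) (hc : IsCompact L) {H : Op n} (hH : IsSelfAdjoint H)
    (ht : ∀ P ∈ L, Tang L P (br H P)) : Symm L H := by
  refine ⟨hH, fun t P hP => ?_⟩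
  have hcont : Continuous fun t : ℝ => cj (t • H) P :=
    continuous_iff_continuousAt.2 fun t => (hasDerivAt_cj H P t).continuousAt
  have hclosed : IsClosed {t : ℝ | cj (t • H) P ∈ L} := hc.isClosed.preimage hcont
  have hopen : IsOpen {t : ℝ | cj (t • H) P ∈ L} := by
    rw [isOpen_iff_mem_nhds]
    intro s hs
    obtain ⟨a, ha, hloc⟩ := local_flow hL ht (P := cj (s • H) P) hs
    have h1 : ∀ᶠ u in 𝓝 s, u - s ∈ Set.Ioo (-a) a := by
      have h2 : ContinuousAt (fun u : ℝ => u - s) s := by fun_prop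
      refine h2.eventually_mem (isOpen_Ioo.mem_nhds ?_)
      rw [sub_self]
      exact ⟨by linarith, ha⟩
    filter_upwards [h1] with u hu
    show cj (u • H) P ∈ L
    have h3 := hloc (u - s) hu
    rw [← cj_add, sub_add_cancel] at h3
    exact h3
  have h0 : (0 : ℝ) ∈ {t : ℝ | cj (t • H) P ∈ L} := by
    show cj ((0 : ℝ) • H) P ∈ L
    have h1 : (0 : ℝ) • H = 0 := zero_smul ℝ H
    rw [h1, cj_zero]
    exact hP
  have huniv : {t : ℝ | cj (t • H) P ∈ L} = Set.univ :=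
    IsClopen.eq_univ ⟨hclosed, hopen⟩ ⟨0, h0⟩
  have : t ∈ {t : ℝ | cj (t • H) P ∈ L} := by
    rw [huniv]
    exact Set.mem_univ t
  exact this

end Pool.Agent.H66.SyM
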