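import Pool.Agent.H66.SyM.Flo

/-! The infinitesimal symmetries of a compact Lagrangian form a real Lie algebra. -/

set_option autoImplicit false

open scoped ContDiff Topology

namespace Pool.Agent.H66.SyM

open Pool.Agent.H66.SyL

variable {n : ℕ} {L : Set (Op n)}

private theorem cj_smul_one (t : ℝ) (P : Op n) : cj (t • (1 : Op n)) P = P := by
  have h := ode_unique (1 : Op n) (g := fun _ => P) (a := |t| + 1) (by positivity) (fun u _ => by
    have e : br (1 : Op n) P = 0 := by simp [br]
    rw [e]
    exact hasDerivAt_const u P) t (by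
      have := abs_lt.1 (show |t| < |t| + 1 by linarith)
      exact ⟨this.1, this.2⟩)
  exact h.symm

theorem symm_one : Symm L (1 : Op n) :=
  ⟨IsSelfAdjoint.one _, fun t P hP => by rw [cj_smul_one]; exact hP⟩

/-- symm_of_tang, tang_add, br_add_left -/
theorem symm_add (hL : IsLagrangian L) (hc : IsCompact L) {H K : Op n} (hs : Symm L H)
    (hk : Symm L K) : Symm L (H + K) := by
  have hsa : IsSelfAdjoint (H + K) := by
    have h1 : star H = H := hs.1
    have h2 : star K = K := hk.1
    rw [ContinuousLinearMap.star_eq_adjoint] at h1 h2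
    have h3 : star (H + K) = H + K := by
      rw [ContinuousLinearMap.star_eq_adjoint, map_add, h1, h2]
    exact h3
  refine symm_of_tang hL hc hsa fun P hP => ?_
  rw [br_add_left]
  exact tang_add hL hP (tang_of_symm hs hP) (tang_of_symm hk hP)

/-- (t c) H = t (c H) -/
theorem symm_smul {H : Op n} (hs : Symm L H) (c : ℝ) : Symm L (c • H) := by
  refine ⟨?_, fun t P hP => ?_⟩
  · have e : c • H = (c : ℂ) • H := by
      ext v
      simp
    rw [e]
    refine IsSelfAdjoint.smul ?_ hs.1
    exact Complex.conj_ofReal c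
  · rw [smul_smul]
    exact hs.2 (t * c) P hP

/-- cj_cj; t cj H K = cj H (t K) -/
theorem symm_cj {H K : Op n} (hs : Symm L H) (hk : Symm L K) : Symm L (cj H K) := by
  refine ⟨isSelfAdjoint_cj hs.1 hk.1, fun t P hP => ?_⟩
  have key : ∀ X : Op n, t • X = (t : ℂ) • X := by
    intro X
    ext v
    simp
  have e : t • cj H K = cj H (t • K) := by
    rw [key, key]
    unfold cj
    rw [mul_smul_comm, smul_mul_assoc]
  rw [e, cj_cj]
  have h1 : cj (-H) P ∈ L := by
    have h := hs.2 (-1) P hP
    have h' : (-1 : ℝ) • H = -H := neg_one_smul ℝ H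
    rwa [h'] at h
  have h2 := hs.2 1 _ (hk.2 t _ h1)
  have h3 : (1 : ℝ) • H = H := one_smul ℝ H
  rwa [h3] at h2

/-- The space of infinitesimal symmetries. -/
def sym (hL : IsLagrangian L) (hc : IsCompact L) : Submodule ℝ (Op n) where
  carrier := {H | Symm L H}
  add_mem' := fun ha hb => symm_add hL hc ha hb
  zero_mem' := by
    have h := symm_smul (L := L) (n := n) symm_one 0
    have h0 : (0 : ℝ) • (1 : Op n) = 0 := zero_smul ℝ (1 : Op n)
    have h1 : Symm L (0 : Op n) := h0 ▸ h
    exact h1
  smul_mem' := fun c _ h => symm_smul h c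

theorem mem_sym (hL : IsLagrangian L) (hc : IsCompact L) (H : Op n) : H ∈ sym hL hc ↔ Symm L H :=
  Iff.rfl

/-- Proof. t to cj (t H) K is a curve in sym, its derivative at 0 is br H K; sym is closed
(finite dimension), so the limit of the difference quotients lies in it. -/
theorem symm_br (hL : IsLagrangian L) (hc : IsCompact L) {H K : Op n} (hs : Symm L H)
    (hk : Symm L K) : Symm L (br H K) := by
  have _ : FiniteDimensional ℝ (Op n) := FiniteDimensional.complexToReal (Op n)
  have hcl : IsClosed ((sym hL hc : Submodule ℝ (Op n)) : Set (Op n)) :=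
    Submodule.closed_of_finiteDimensional _
  have hmem : ∀ t : ℝ, cj (t • H) K ∈ sym hL hc := fun t => symm_cj (symm_smul hs t) hk
  have hd := hasDerivAt_cj H K 0
  have h0 : (0 : ℝ) • H = 0 := zero_smul ℝ H
  rw [h0, cj_zero, hasDerivAt_iff_tendsto_slope] at hd
  have h1 : br H K ∈ ((sym hL hc : Submodule ℝ (Op n)) : Set (Op n)) := by
    refine hcl.mem_of_tendsto hd (Filter.Eventually.of_forall fun t => ?_)
    rw [slope_def_module]
    exact Submodule.smul_mem _ _ (Submodule.sub_mem _ (hmem t) (hmem 0))
  exact h1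

end Pool.Agent.H66.SyM
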