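import Pool.Agent.H66.SyM.P31B
import Pool.Agent.H66.SyM.Zero
import Pool.Agent.H11.SO.EntO

/-! Spin 1 + 0: L is orthogonal in the sense of H11/SO. -/

set_option autoImplicit false

open scoped ContDiff Topology

namespace Pool.Agent.H66.SyM

open Pool.Agent.H66.SyL

/-- (s, t) and (s', t') with the same invariants differ by a phase and the sign of s. Proof: if t' is not 0
let c = t/t', |c| = 1 (|t| = |t'|); conj(t) = conj(c) conj(t'), so s^2 conj(c)^2 = s'^2, s^2 = c^2 s'^2. If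
t' = 0 then t = 0, |s| = |s'| = 1, c = s/s'. -/
theorem phase_sign {s t s' t' : ℂ} (h : ‖s‖ ^ 2 + ‖t‖ ^ 2 = 1) (h' : ‖s'‖ ^ 2 + ‖t'‖ ^ 2 = 1)
    (h1 : ‖t‖ ^ 2 = ‖t'‖ ^ 2)
    (h2 : s ^ 2 * (starRingEnd ℂ) t ^ 2 = s' ^ 2 * (starRingEnd ℂ) t' ^ 2) :
    ∃ c : ℂ, ‖c‖ = 1 ∧ t = c * t' ∧ (s = c * s' ∨ s = -(c * s')) := by
  have hn : ‖t‖ = ‖t'‖ := (sq_eq_sq₀ (norm_nonneg _) (norm_nonneg _)).1 h1
  by_cases ht : t' = 0
  · have ht0 : t = 0 := by
      rw [ht, norm_zero] at hn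
      exact norm_eq_zero.1 hn
    rw [ht0, norm_zero] at h
    rw [ht, norm_zero] at h'
    have hs : ‖s‖ = 1 := by
      have := norm_nonneg s
      nlinarith
    have hs' : ‖s'‖ = 1 := by
      have := norm_nonneg s'
      nlinarith
    have hne : s' ≠ 0 := by
      intro h0
      rw [h0, norm_zero] at hs'
      exact zero_ne_one hs'
    refine ⟨s / s', by rw [norm_div, hs, hs', div_one], by rw [ht, ht0, mul_zero], Or.inl ?_⟩
    field_simp
  · have hnt : ‖t'‖ ≠ 0 := norm_ne_zero_iff.2 ht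
    have hc : ‖t / t'‖ = 1 := by rw [norm_div, hn, div_self hnt]
    obtain ⟨c, hcd⟩ : ∃ c : ℂ, c = t / t' := ⟨_, rfl⟩
    rw [← hcd] at hc
    have htc : t = c * t' := by rw [hcd]; field_simp
    have hcc : c * (starRingEnd ℂ) c = 1 := by
      rw [Complex.mul_conj, Complex.normSq_eq_norm_sq, hc]
      simp
    have ht2 : (starRingEnd ℂ) t' ^ 2 ≠ 0 := pow_ne_zero 2 (by simpa using ht)
    refine ⟨c, hc, htc, ?_⟩
    rw [htc, map_mul] at h2
    have h3 : s ^ 2 * (starRingEnd ℂ) c ^ 2 = s' ^ 2 := by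
      apply mul_right_cancel₀ ht2
      linear_combination h2
    have h4 : (s - c * s') * (s + c * s') = 0 := by
      linear_combination c ^ 2 * h3 - (s ^ 2 * (c * (starRingEnd ℂ) c + 1)) * hcc
    rcases mul_eq_zero.1 h4 with h5 | h5
    · exact Or.inl (sub_eq_zero.1 h5)
    · exact Or.inr (eq_neg_of_add_eq_zero_left h5)

/-- Proof. form: cart_form and mom_su2 (z with pt z = P exists since L is Lagrangian). sat: P = pt (vecO x' s' t')
by form, kap_vecO on both sides, phase_sign, pt_smul (the sign of s goes to x), cart_trans. -/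
theorem orth_case {L : Set (Op 3)} (hL : IsLagrangian L) (hc : IsCompact L)
    (hconn : IsConnected L) (h1 : H1Zero L) {J1 J2 J3 : Op 3} (su : Su2 J1 J2 J3)
    (hs1 : Symm L J1) (hs2 : Symm L J2) (hs3 : Symm L J3)
    {f : OrthonormalBasis (Fin (3 + 1)) ℂ (E 3)} (h : Cart f J1 J2 J3) :
    Pool.Agent.H11.SO.Orth f L := by
  have hvec : ∀ (s t : ℂ) (x : Fin 3 → ℝ), Pool.Agent.H11.SO.vecO f x s t = vec f s t (x 0) (x 1) (x 2) := by
    intro s t x
    unfold Pool.Agent.H11.SO.vecO vec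
    rw [smul_add, smul_add, smul_smul, smul_smul, smul_smul]
  have hform : ∀ P ∈ L, ∃ x s t, Pool.Agent.H11.SO.UnitO x s t ∧ pt (Pool.Agent.H11.SO.vecO f x s t) = P := by
    intro P hP
    obtain ⟨⟨z, hz, hzP⟩, -⟩ := hL P hP
    obtain ⟨z1, z2, z3⟩ := mom_su2 hL hc hconn h1 su hs1 hs2 hs3 hz (by rw [hzP]; exact hP)
    obtain ⟨s, t, x, y, w, h3, h4, h5⟩ := cart_form h hz z1 z2 z3
    refine ⟨![x, y, w], s, t, ⟨?_, h3⟩, ?_⟩
    · simpa using h4
    · rw [hvec, ← hzP, h5]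
      rfl
  refine ⟨hform, ?_⟩
  intro P hP x s t hu hk
  obtain ⟨x', s', t', hu', hP'⟩ := hform P hP
  rw [← hP', Pool.Agent.H11.SO.kap_vecO f hu, Pool.Agent.H11.SO.kap_vecO f hu'] at hk
  obtain ⟨k1, k2⟩ := Prod.mk.inj hk
  obtain ⟨c, hc1, htc, hsc⟩ := phase_sign hu.2 hu'.2 k2 k1
  have hi : ∀ t : ℝ, ∀ P ∈ L, cj (t • J2) P ∈ L ∧ cj (t • J3) P ∈ L :=
    fun t P hP => ⟨hs2.2 t P hP, hs3.2 t P hP⟩
  have hmem : pt (vec f s' t' (x' 0) (x' 1) (x' 2)) ∈ L := by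
    rw [← hvec, hP']; exact hP
  rcases hsc with hsc | hsc
  · rw [hsc, htc, Pool.Agent.H11.SO.pt_phase f hc1, hvec]
    exact cart_trans su h hi s' t' hu'.1 hu.1 hmem
  · rw [hsc, htc, ← Pool.Agent.H11.SO.pt_neg f x (c * s') (c * t'), Pool.Agent.H11.SO.pt_phase f hc1, hvec]
    refine cart_trans su h hi s' t' hu'.1 ?_ hmem
    have := hu.1
    simp only [Pi.neg_apply]
    linear_combination this

end Pool.Agent.H66.SyM
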