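import Pool.Agent.H66.SyM.R22C
import Pool.Agent.H66.SyM.Orb
import Pool.Agent.H66.SyM.Zero

/-! Spin 1/2 + 1/2: L is a real projective space. -/

set_option autoImplicit false

open scoped ContDiff Topology

namespace Pool.Agent.H66.SyM

open Pool.Agent.H66.SyL
open Pool.Agent.H11.ST (RP3)

variable (b : OrthonormalBasis (Fin 4) ℂ (E 3))

/-- one_orbit with B of to_base22, rps_zl for the basis of exists_f, mom_su2; then rps_homeo -/
theorem case22 {L : Set (Op 3)} (hL : IsLagrangian L) (hc : IsCompact L)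
    (hconn : IsConnected L) (h1 : H1Zero L) {J1 J2 J3 : Op 3} (su : Su2 J1 J2 J3)
    (hs1 : Symm L J1) (hs2 : Symm L J2) (hs3 : Symm L J3) (h : L22 b J1 J2 J3) :
    Nonempty (L ≃ₜ RP3) := by
  obtain ⟨f, h0, h1', h2, h3⟩ := exists_f b
  obtain ⟨hr1, hr2⟩ := rps_zl b su h f h0 h1' h2 h3
  have hLz : ∀ P ∈ L, ∃ z, Zl J1 J2 J3 z ∧ P = pt z := by
    intro P hP
    obtain ⟨⟨z, hz, hzP⟩, -⟩ := hL P hP
    have hzL : pt z ∈ L := by
      rw [hzP]
      exact hP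
    obtain ⟨m1, m2, m3⟩ := mom_su2 hL hc hconn h1 su hs1 hs2 hs3 hz hzL
    exact ⟨z, ⟨hz, m1, m2, m3⟩, hzP.symm⟩
  have hrn : (rps f).Nonempty := by
    refine ⟨pt (∑ k, (((![1, 0, 0, 0] : Fin 4 → ℝ) k : ℝ) : ℂ) • f k), ![1, 0, 0, 0], ?_, rfl⟩
    simp [Fin.sum_univ_four]
  have hS : L = rps f :=
    one_orbit (fun z hz => to_base22 b su h hz) hLz hr1 hconn.nonempty hrn
      (fun t P hP => ⟨hs2.2 t P hP, hs3.2 t P hP⟩) hr2
  rw [hS]
  exact rps_homeo f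

end Pool.Agent.H66.SyM
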