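import Pool.Agent.H66.SyM.RepA

/-! The representations of su(2) on C^4. -/

set_option autoImplicit false

open scoped ContDiff Topology

namespace Pool.Agent.H66.SyM

open Pool.Agent.H66.SyL

/-- J3 is diagonal in b with eigenvalues w, the lowering operator maps b k to c k b (k+1). -/
def Ladder (b : OrthonormalBasis (Fin 4) ℂ (E 3)) (J1 J2 J3 : Op 3) (w c : Fin 4 → ℝ) : Prop :=
  J3 = ham (n := 3) b w ∧ ∀ k : Fin 4, lo J1 J2 (b k) = ((c k : ℝ) : ℂ) • b (k + 1)

private theorem j1_eq (J1 J2 : Op 3) (v : E 3) :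
    J1 v = (1 / 2 : ℂ) • (lo J1 J2 v + up J1 J2 v) := by
  show J1 v = (1 / 2 : ℂ) • ((J1 v - Complex.I • J2 v) + (J1 v + Complex.I • J2 v))
  module

private theorem j2_eq (J1 J2 : Op 3) (v : E 3) :
    J2 v = (Complex.I / 2 : ℂ) • (lo J1 J2 v - up J1 J2 v) := by
  show J2 v = (Complex.I / 2 : ℂ) • ((J1 v - Complex.I • J2 v) - (J1 v + Complex.I • J2 v))
  have h : (Complex.I / 2 : ℂ) • ((J1 v - Complex.I • J2 v) - (J1 v + Complex.I • J2 v)) =
      (-(Complex.I * Complex.I)) • J2 v := by module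
  rw [h, Complex.I_mul_I, neg_neg, one_smul]

private theorem up_mem {J1 J2 : Op 3} {W : Submodule ℂ (E 3)} {v : E 3} (h1 : J1 v ∈ W)
    (h2 : J2 v ∈ W) : up J1 J2 v ∈ W :=
  W.add_mem h1 (W.smul_mem Complex.I h2)

/-- the raising operator on a highest weight chain -/
private theorem chain_up {J1 J2 J3 : Op 3} (su : Su2 J1 J2 J3) {W : Submodule ℂ (E 3)}
    (hi : ∀ v ∈ W, J1 v ∈ W ∧ J2 v ∈ W ∧ J3 v ∈ W) {m : ℕ} {e : ℕ → E 3}
    (hW : ∀ i ≤ m, e i ∈ W)
    (h3 : ∀ i ≤ m, J3 (e i) = (((m : ℝ) / 2 - i : ℝ) : ℂ) • e i)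
    (hl : ∀ i < m, lo J1 J2 (e i) = ((√(((i : ℝ) + 1) * ((m : ℝ) - i)) : ℝ) : ℂ) • e (i + 1))
    (hmax : ∀ v ∈ W, ∀ c : ℝ, v ≠ 0 → J3 v = (c : ℂ) • v → c ≤ (m : ℝ) / 2) :
    up J1 J2 (e 0) = 0 ∧ ∀ i < m,
      up J1 J2 (e (i + 1)) = ((√(((i : ℝ) + 1) * ((m : ℝ) - i)) : ℝ) : ℂ) • e i := by
  have hu0 : up J1 J2 (e 0) = 0 := by
    by_contra hne
    have h0 := hW 0 (Nat.zero_le _)
    have h1 := up_mem (hi _ h0).1 (hi _ h0).2.1
    have h2 := rel_up su (e 0)
    rw [h3 0 (Nat.zero_le _), map_smul] at h2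
    have h4 : J3 (up J1 J2 (e 0)) = (((m : ℝ) / 2 + 1 : ℝ) : ℂ) • up J1 J2 (e 0) := by
      rw [h2]
      push_cast
      module
    have h5 := hmax _ h1 _ hne h4
    linarith
  obtain ⟨c, hc⟩ : ∃ c : ℕ → ℝ, ∀ i : ℕ, c i = ((i : ℝ) + 1) * ((m : ℝ) - i) :=
    ⟨_, fun _ => rfl⟩
  simp only [← hc] at hl ⊢
  have hcpos : ∀ i < m, 0 < c i := by
    intro i him
    have h1 : (i : ℝ) < m := by exact_mod_cast him
    have h2 : (0 : ℝ) ≤ i := Nat.cast_nonneg i
    rw [hc]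
    exact mul_pos (by linarith) (by linarith)
  have hsq : ∀ i < m, ((√(c i) : ℝ) : ℂ) * ((√(c i) : ℝ) : ℂ) = ((c i : ℝ) : ℂ) := by
    intro i him
    rw [← Complex.ofReal_mul, Real.mul_self_sqrt (hcpos i him).le]
  have hne : ∀ i < m, ((√(c i) : ℝ) : ℂ) ≠ 0 := by
    intro i him
    rw [Complex.ofReal_ne_zero]
    exact (Real.sqrt_pos.mpr (hcpos i him)).ne'
  have fin : ∀ i < m, lo J1 J2 (up J1 J2 (e i)) + (2 : ℂ) • J3 (e i) = ((c i : ℝ) : ℂ) • e i →
      up J1 J2 (e (i + 1)) = ((√(c i) : ℝ) : ℂ) • e i := by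
    intro i him h
    have h1 := rel_ul su (e i)
    rw [hl i him, h, map_smul, ← hsq i him, ← smul_smul] at h1
    exact smul_right_injective (E 3) (hne i him) h1
  refine ⟨hu0, ?_⟩
  intro i
  induction i with
  | zero =>
    intro him
    apply fin 0 him
    rw [hu0, map_zero, zero_add, h3 0 (Nat.zero_le _), smul_smul, hc]
    congr 1
    push_cast
    ring
  | succ i ih =>
    intro him
    apply fin (i + 1) him
    rw [ih (by omega), map_smul, hl i (by omega), smul_smul, hsq i (by omega),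
      h3 (i + 1) (by omega), smul_smul, ← add_smul, hc, hc]
    congr 1
    push_cast
    ring

/-- a family stable under lo, up, J3 -/
private def Stab {k : ℕ} (J1 J2 J3 : Op 3) (v : Fin k → E 3) : Prop :=
  ∀ i, (∃ j, ∃ c : ℂ, lo J1 J2 (v i) = c • v j) ∧ (∃ j, ∃ c : ℂ, up J1 J2 (v i) = c • v j) ∧
    ∃ c : ℂ, J3 (v i) = c • v i

private theorem inv_of_stab {k : ℕ} {J1 J2 J3 : Op 3} {v : Fin k → E 3} (h : Stab J1 J2 J3 v) :
    ∀ x ∈ Submodule.span ℂ (Set.range v), J1 x ∈ Submodule.span ℂ (Set.range v) ∧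
      J2 x ∈ Submodule.span ℂ (Set.range v) ∧ J3 x ∈ Submodule.span ℂ (Set.range v) := by
  have hmem : ∀ (c : ℂ) (j : Fin k), c • v j ∈ Submodule.span ℂ (Set.range v) := fun c j =>
    Submodule.smul_mem _ c (Submodule.subset_span ⟨j, rfl⟩)
  have gen : ∀ A : Op 3, (∀ i, A (v i) ∈ Submodule.span ℂ (Set.range v)) →
      ∀ x ∈ Submodule.span ℂ (Set.range v), A x ∈ Submodule.span ℂ (Set.range v) := by
    intro A hA x hx
    induction hx using Submodule.span_induction with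
    | mem x hx =>
      obtain ⟨i, rfl⟩ := hx
      exact hA i
    | zero => rw [map_zero]; exact Submodule.zero_mem _
    | add x y _ _ hx hy => rw [map_add]; exact Submodule.add_mem _ hx hy
    | smul c x _ hx => rw [map_smul]; exact Submodule.smul_mem _ c hx
  intro x hx
  refine ⟨gen J1 ?_ x hx, gen J2 ?_ x hx, gen J3 ?_ x hx⟩
  · intro i
    obtain ⟨⟨j, c, h1⟩, ⟨j', c', h2⟩, _⟩ := h i
    rw [j1_eq J1 J2, h1, h2]
    exact Submodule.smul_mem _ _ (Submodule.add_mem _ (hmem c j) (hmem c' j'))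
  · intro i
    obtain ⟨⟨j, c, h1⟩, ⟨j', c', h2⟩, _⟩ := h i
    rw [j2_eq J1 J2, h1, h2]
    exact Submodule.smul_mem _ _ (Submodule.sub_mem _ (hmem c j) (hmem c' j'))
  · intro i
    obtain ⟨_, _, c, h1⟩ := h i
    rw [h1]
    exact hmem c i

private theorem inv_perp {J1 J2 J3 : Op 3} (su : Su2 J1 J2 J3) {S : Submodule ℂ (E 3)}
    (h : ∀ x ∈ S, J1 x ∈ S ∧ J2 x ∈ S ∧ J3 x ∈ S) :
    ∀ x ∈ Sᗮ, J1 x ∈ Sᗮ ∧ J2 x ∈ Sᗮ ∧ J3 x ∈ Sᗮ := by
  have gen : ∀ A : Op 3, IsSelfAdjoint A → (∀ x ∈ S, A x ∈ S) → ∀ x ∈ Sᗮ, A x ∈ Sᗮ := by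
    intro A hA hS x hx
    rw [Submodule.mem_orthogonal] at hx ⊢
    intro u hu
    have h1 : inner ℂ (A u) x = inner ℂ u (A x) := hA.isSymmetric u x
    rw [← h1]
    exact hx _ (hS u hu)
  intro x hx
  exact ⟨gen J1 su.1 (fun x hx => (h x hx).1) x hx, gen J2 su.2.1 (fun x hx => (h x hx).2.1) x hx,
    gen J3 su.2.2.1 (fun x hx => (h x hx).2.2) x hx⟩

private theorem fr4 : Module.finrank ℂ (E 3) = 4 := by
  simp [E]

private theorem no5 (v : Fin 5 → E 3)
    (h : ∀ i j, inner ℂ (v i) (v j) = if i = j then (1 : ℂ) else 0) : False := by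
  have h1 : Orthonormal ℂ v := orthonormal_iff_ite.mpr h
  have h2 := h1.linearIndependent.fintype_card_le_finrank
  rw [fr4, Fintype.card_fin] at h2
  omega

private theorem mk4 (v : Fin 4 → E 3)
    (h : ∀ i j, inner ℂ (v i) (v j) = if i = j then (1 : ℂ) else 0) :
    ∃ b : OrthonormalBasis (Fin 4) ℂ (E 3), ∀ i, b i = v i := by
  have h1 : Orthonormal ℂ v := orthonormal_iff_ite.mpr h
  have h2 : Orthonormal ℂ ((Set.univ : Set (Fin 4)).domRestrict v) :=
    h1.comp _ Subtype.val_injective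
  obtain ⟨b, hb⟩ := Orthonormal.exists_orthonormalBasis_extension_of_card_eq
    (by rw [fr4, Fintype.card_fin]) h2
  exact ⟨b, fun i => hb i (Set.mem_univ i)⟩

private theorem ladder_of {J1 J2 J3 : Op 3} (v : Fin 4 → E 3)
    (h : ∀ i j, inner ℂ (v i) (v j) = if i = j then (1 : ℂ) else 0) (w c : Fin 4 → ℝ)
    (h3 : ∀ k, J3 (v k) = ((w k : ℝ) : ℂ) • v k)
    (hl : ∀ k, lo J1 J2 (v k) = ((c k : ℝ) : ℂ) • v (k + 1)) :
    ∃ b : OrthonormalBasis (Fin 4) ℂ (E 3), Ladder b J1 J2 J3 w c := by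
  obtain ⟨b, hb⟩ := mk4 v h
  refine ⟨b, ?_, fun k => by rw [hb, hb]; exact hl k⟩
  have h4 : ∀ k, ham (n := 3) b w (b k) = ((w k : ℝ) : ℂ) • b k := by
    intro k
    unfold ham
    rw [sum_apply, Finset.sum_eq_single k]
    · show ((w k : ℝ) : ℂ) • pt (b k) (b k) = _
      rw [pt_self (b.orthonormal.1 k)]
    · intro j _ hjk
      show ((w j : ℝ) : ℂ) • pt (b j) (b k) = 0
      rw [pt_apply, b.orthonormal.2 hjk, zero_smul, smul_zero]
    · intro hk
      exact absurd (Finset.mem_univ k) hk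
  have h5 : (J3 : E 3 →ₗ[ℂ] E 3) = ((ham (n := 3) b w : Op 3) : E 3 →ₗ[ℂ] E 3) := by
    apply b.toBasis.ext
    intro k
    rw [OrthonormalBasis.coe_toBasis]
    show J3 (b k) = ham (n := 3) b w (b k)
    rw [h4, hb, h3]
  exact ContinuousLinearMap.coe_injective h5

private theorem next {k : ℕ} (hk : k < 4) {J1 J2 J3 : Op 3} (su : Su2 J1 J2 J3)
    {v : Fin k → E 3} (hs : Stab J1 J2 J3 v) :
    ∃ (m : ℕ) (e : ℕ → E 3),
      (∀ i ≤ m, ∀ j ≤ m, inner ℂ (e i) (e j) = if i = j then (1 : ℂ) else 0) ∧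
      (∀ i ≤ m, ∀ j, inner ℂ (v j) (e i) = 0 ∧ inner ℂ (e i) (v j) = 0) ∧
      (∀ i ≤ m, J3 (e i) = (((m : ℝ) / 2 - i : ℝ) : ℂ) • e i) ∧
      (∀ i < m, lo J1 J2 (e i) = ((√(((i : ℝ) + 1) * ((m : ℝ) - i)) : ℝ) : ℂ) • e (i + 1)) ∧
      lo J1 J2 (e m) = 0 ∧ up J1 J2 (e 0) = 0 ∧
      (∀ i < m, up J1 J2 (e (i + 1)) = ((√(((i : ℝ) + 1) * ((m : ℝ) - i)) : ℝ) : ℂ) • e i) ∧
      ∀ x : E 3, (∀ j, inner ℂ (v j) x = 0) → ∀ c : ℝ, x ≠ 0 → J3 x = (c : ℂ) • x →
        c ≤ (m : ℝ) / 2 := by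
  set S : Submodule ℂ (E 3) := Submodule.span ℂ (Set.range v) with hS
  have hSi := inv_of_stab hs
  have hWi := inv_perp su hSi
  have hW : Sᗮ ≠ ⊥ := by
    intro h
    rw [Submodule.orthogonal_eq_bot_iff] at h
    have h1 := finrank_range_le_card (R := ℂ) v
    rw [Fintype.card_fin, Set.finrank, ← hS, h, finrank_top, fr4] at h1
    omega
  obtain ⟨m, e, on, hem, h3, hl, hlm, hmax⟩ := chain su Sᗮ hW hWi
  obtain ⟨hu0, hu⟩ := chain_up su hWi hem h3 hl hmax
  refine ⟨m, e, on, ?_, h3, hl, hlm, hu0, hu, ?_⟩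
  · intro i him j
    have h1 : inner ℂ (v j) (e i) = 0 :=
      (Submodule.mem_orthogonal _ _).mp (hem i him) _ (Submodule.subset_span ⟨j, rfl⟩)
    exact ⟨h1, inner_eq_zero_symm.mp h1⟩
  · intro x hx
    apply hmax
    rw [Submodule.mem_orthogonal]
    intro u hu
    induction hu using Submodule.span_induction with
    | mem u hu =>
      obtain ⟨j, rfl⟩ := hu
      exact hx j
    | zero => exact inner_zero_left _
    | add a b _ _ ha hb => rw [inner_add_left, ha, hb, add_zero]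
    | smul c a _ ha => rw [inner_smul_left, ha, mul_zero]

private theorem zero_of_eig {J3 : Op 3} (hsa : IsSelfAdjoint J3)
    (h : ∀ x : E 3, ∀ c : ℝ, x ≠ 0 → J3 x = (c : ℂ) • x → c = 0) : J3 = 0 := by
  have hT : (J3 : E 3 →ₗ[ℂ] E 3).IsSymmetric := hsa.isSymmetric
  have h5 : (J3 : E 3 →ₗ[ℂ] E 3) = 0 := by
    apply (hT.eigenvectorBasis fr4).toBasis.ext
    intro k
    rw [OrthonormalBasis.coe_toBasis, hT.apply_eigenvectorBasis fr4 k]
    have h1 := h (hT.eigenvectorBasis fr4 k) (hT.eigenvalues fr4 k)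
      ((hT.eigenvectorBasis fr4).orthonormal.ne_zero k) (hT.apply_eigenvectorBasis fr4 k)
    rw [h1]
    simp
  exact ContinuousLinearMap.coe_injective h5

private theorem sa_neg {A : Op 3} (h : IsSelfAdjoint A) : IsSelfAdjoint (-A) := by
  rw [ContinuousLinearMap.isSelfAdjoint_iff_isSymmetric]
  intro u v
  show inner ℂ (-(A u)) v = inner ℂ u (-(A v))
  have h1 : inner ℂ (A u) v = inner ℂ u (A v) := h.isSymmetric u v
  rw [inner_neg_left, inner_neg_right, h1]

private theorem su_flip {J1 J2 J3 : Op 3} (su : Su2 J1 J2 J3) : Su2 J1 (-J2) (-J3) := by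
  obtain ⟨a1, a2, a3, h1, h2, h3⟩ := su
  refine ⟨a1, sa_neg a2, sa_neg a3, ?_, ?_, ?_⟩
  · ext1 x
    have h : Complex.I • (J1 (J2 x) - J2 (J1 x)) = -(J3 x) := DFunLike.congr_fun h1 x
    show Complex.I • (J1 (-(J2 x)) - (-(J2 (J1 x)))) = -(-(J3 x))
    rw [map_neg, ← h]
    module
  · ext1 x
    have h : Complex.I • (J2 (J3 x) - J3 (J2 x)) = -(J1 x) := DFunLike.congr_fun h2 x
    show Complex.I • (-(J2 (-(J3 x))) - (-(J3 (-(J2 x))))) = -(J1 x)
    rw [map_neg, map_neg, ← h]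
    module
  · ext1 x
    have h : Complex.I • (J3 (J1 x) - J1 (J3 x)) = -(J2 x) := DFunLike.congr_fun h3 x
    show Complex.I • (-(J3 (J1 x)) - J1 (-(J3 x))) = -(-(J2 x))
    rw [map_neg, ← h]
    module

private theorem m_pos {J1 J2 J3 : Op 3} (su : Su2 J1 J2 J3) (h0 : J3 ≠ 0)
    (hmax : ∀ x : E 3, ∀ c : ℝ, x ≠ 0 → J3 x = (c : ℂ) • x → c ≤ 0) : False := by
  obtain ⟨m, e, on, _, h3, _, _, _, _, hmax'⟩ := next (k := 0) (by norm_num) (su_flip su)
    (v := Fin.elim0) (fun i => i.elim0)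
  have hne : e m ≠ 0 := by
    intro h
    have h1 := on m le_rfl m le_rfl
    rw [h, inner_zero_left, if_pos rfl] at h1
    exact zero_ne_one h1
  have h4 : J3 (e m) = (((m : ℝ) / 2 : ℝ) : ℂ) • e m := by
    have h5 := h3 m le_rfl
    have h6 : (-J3) (e m) = - J3 (e m) := rfl
    rw [h6, neg_eq_iff_eq_neg] at h5
    rw [h5, ← neg_smul]
    congr 1
    push_cast
    ring
  have h5 := hmax _ _ hne h4
  apply h0
  apply zero_of_eig su.2.2.1
  intro x c hx hc
  have h6 : (-J3) x = ((-c : ℝ) : ℂ) • x := by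
    show - J3 x = _
    rw [hc, ← neg_smul]
    congr 1
    push_cast
    ring
  have h7 := hmax' x (fun j => j.elim0) (-c) hx h6
  have h8 := hmax x c hx hc
  linarith

private theorem nrm1 {m : ℕ} {e : ℕ → E 3}
    (on : ∀ i ≤ m, ∀ j ≤ m, inner ℂ (e i) (e j) = if i = j then (1 : ℂ) else 0) :
    ∀ i ≤ m, ‖e i‖ = 1 := by
  intro i him
  have h1 := on i him i him
  rw [if_pos rfl] at h1
  have h2 : ‖e i‖ ^ 2 = 1 := by
    rw [← inner_self_eq_norm_sq (𝕜 := ℂ), h1]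
    simp
  have h3 : 0 ≤ ‖e i‖ := norm_nonneg _
  nlinarith

/-- Proof. chain for W = C^4, then for the orthogonal complement of the span of e_0 .. e_m (invariant
under J1, J2, J3: it is the complement of an invariant subspace, invariant under up as well: up e_i is a
multiple of e_(i-1) by lo_adj and completeness or rel_ul), and so on; the spins m do not increase by the last
clause of chain; m + 1 <= 4. J3 nonzero excludes m = 0 at the first step. -/
theorem rep {J1 J2 J3 : Op 3} (su : Su2 J1 J2 J3) (h0 : J3 ≠ 0) :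
    ∃ b : OrthonormalBasis (Fin 4) ℂ (E 3),
      Ladder b J1 J2 J3 ![3 / 2, 1 / 2, -(1 / 2), -(3 / 2)] ![√3, 2, √3, 0] ∨
      Ladder b J1 J2 J3 ![1, 0, -1, 0] ![√2, √2, 0, 0] ∨
      Ladder b J1 J2 J3 ![1 / 2, -(1 / 2), 1 / 2, -(1 / 2)] ![1, 0, 1, 0] ∨
      Ladder b J1 J2 J3 ![1 / 2, -(1 / 2), 0, 0] ![1, 0, 0, 0] := by
  obtain ⟨m, e, on, _, h3, hl, hlm, hu0, hu, hmax⟩ := next (k := 0) (by norm_num) su
    (v := Fin.elim0) (fun i => i.elim0)
  have hmax0 : ∀ x : E 3, ∀ c : ℝ, x ≠ 0 → J3 x = (c : ℂ) • x → c ≤ (m : ℝ) / 2 :=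
    fun x c hx hc => hmax x (fun j => j.elim0) c hx hc
  have hm3 : m ≤ 3 := by
    by_contra hcon
    apply no5 (fun k : Fin 5 => e k)
    intro i j
    rw [on i (by omega) j (by omega)]
    simp only [Fin.ext_iff]
  have hm0 : m ≠ 0 := by
    intro hm
    apply m_pos su h0
    intro x c hx hc
    have h1 := hmax0 x c hx hc
    rw [hm] at h1
    simpa using h1
  have ne := nrm1 on
  interval_cases m
  · exact absurd rfl hm0
  · -- m = 1
    have a0 : J3 (e 0) = ((1 / 2 : ℝ) : ℂ) • e 0 := by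
      rw [h3 0 (by norm_num)]
      norm_num
    have a1 : J3 (e 1) = ((-(1 / 2) : ℝ) : ℂ) • e 1 := by
      rw [h3 1 (by norm_num)]
      norm_num
    have l0 : lo J1 J2 (e 0) = ((1 : ℝ) : ℂ) • e 1 := by
      rw [hl 0 (by norm_num)]
      norm_num
    have u1 : up J1 J2 (e 1) = ((1 : ℝ) : ℂ) • e 0 := by
      rw [hu 0 (by norm_num)]
      norm_num
    have hs : Stab J1 J2 J3 ![e 0, e 1] := by
      intro i
      fin_cases i
      · exact ⟨⟨1, _, l0⟩, ⟨0, 0, by rw [zero_smul]; exact hu0⟩, _, a0⟩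
      · exact ⟨⟨0, 0, by rw [zero_smul]; exact hlm⟩, ⟨0, _, u1⟩, _, a1⟩
    obtain ⟨m2, f, onf, hf, f3, fl, flm, fu0, fu, -⟩ := next (k := 2) (by norm_num) su hs
    have nf := nrm1 onf
    have hf0 : f 0 ≠ 0 := by
      intro h
      have h1 := onf 0 (Nat.zero_le _) 0 (Nat.zero_le _)
      rw [h, inner_zero_left, if_pos rfl] at h1
      exact zero_ne_one h1
    have hm2 : m2 ≤ 1 := by
      have h1 := hmax0 (f 0) _ hf0 (f3 0 (Nat.zero_le _))
      have h2 : (m2 : ℝ) ≤ 1 := by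
        push_cast at h1
        linarith
      exact_mod_cast h2
    have F : ∀ i ≤ m2, inner ℂ (e 0) (f i) = 0 ∧ inner ℂ (f i) (e 0) = 0 ∧
        inner ℂ (e 1) (f i) = 0 ∧ inner ℂ (f i) (e 1) = 0 := fun i him =>
      ⟨(hf i him 0).1, (hf i him 0).2, (hf i him 1).1, (hf i him 1).2⟩
    interval_cases m2
    · -- m2 = 0
      have b0 : J3 (f 0) = ((0 : ℝ) : ℂ) • f 0 := by
        rw [f3 0 (by norm_num)]
        norm_num
      obtain ⟨F1, F2, F3, F4⟩ := F 0 le_rfl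
      have hs2 : Stab J1 J2 J3 ![e 0, e 1, f 0] := by
        intro i
        fin_cases i
        · exact ⟨⟨1, _, l0⟩, ⟨0, 0, by rw [zero_smul]; exact hu0⟩, _, a0⟩
        · exact ⟨⟨0, 0, by rw [zero_smul]; exact hlm⟩, ⟨0, _, u1⟩, _, a1⟩
        · exact ⟨⟨0, 0, by rw [zero_smul]; exact flm⟩, ⟨0, 0, by rw [zero_smul]; exact fu0⟩, _, b0⟩
      obtain ⟨m3, g, ong, hg, g3, gl, glm, gu0, gu, -⟩ := next (k := 3) (by norm_num) su hs2
      have ng := nrm1 ong
      have G : ∀ i ≤ m3, inner ℂ (e 0) (g i) = 0 ∧ inner ℂ (g i) (e 0) = 0 ∧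
          inner ℂ (e 1) (g i) = 0 ∧ inner ℂ (g i) (e 1) = 0 ∧
          inner ℂ (f 0) (g i) = 0 ∧ inner ℂ (g i) (f 0) = 0 := fun i him =>
        ⟨(hg i him 0).1, (hg i him 0).2, (hg i him 1).1, (hg i him 1).2, (hg i him 2).1,
          (hg i him 2).2⟩
      have hm3 : m3 = 0 := by
        by_contra hcon
        obtain ⟨G1, G2, G3, G4, G5, G6⟩ := G 0 (by omega)
        obtain ⟨K1, K2, K3, K4, K5, K6⟩ := G 1 (by omega)
        have g01 := ong 0 (by omega) 1 (by omega)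
        have g10 := ong 1 (by omega) 0 (by omega)
        apply no5 ![e 0, e 1, f 0, g 0, g 1]
        intro i j
        fin_cases i <;> fin_cases j <;>
          simp [on, ne, nf, ng 0 (by omega), ng 1 (by omega), F1, F2, F3, F4, G1, G2, G3, G4, G5,
            G6, K1, K2, K3, K4, K5, K6, g01, g10]
      subst hm3
      obtain ⟨G1, G2, G3, G4, G5, G6⟩ := G 0 le_rfl
      have c0 : J3 (g 0) = ((0 : ℝ) : ℂ) • g 0 := by
        rw [g3 0 (by norm_num)]
        norm_num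
      obtain ⟨b, hb⟩ := ladder_of (J1 := J1) (J2 := J2) (J3 := J3) ![e 0, e 1, f 0, g 0]
        (by
          intro i j
          fin_cases i <;> fin_cases j <;>
            simp [on, ne, nf, ng, F1, F2, F3, F4, G1, G2, G3, G4, G5, G6])
        ![1 / 2, -(1 / 2), 0, 0] ![1, 0, 0, 0]
        (by
          intro k
          fin_cases k
          · exact a0
          · exact a1
          · exact b0
          · exact c0)
        (by
          intro k
          fin_cases k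
          · exact l0
          · exact hlm.trans (by simp)
          · exact flm.trans (by simp)
          · exact glm.trans (by simp))
      exact ⟨b, Or.inr (Or.inr (Or.inr hb))⟩
    · -- m2 = 1
      have b0 : J3 (f 0) = ((1 / 2 : ℝ) : ℂ) • f 0 := by
        rw [f3 0 (by norm_num)]
        norm_num
      have b1 : J3 (f 1) = ((-(1 / 2) : ℝ) : ℂ) • f 1 := by
        rw [f3 1 (by norm_num)]
        norm_num
      have m0 : lo J1 J2 (f 0) = ((1 : ℝ) : ℂ) • f 1 := by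
        rw [fl 0 (by norm_num)]
        norm_num
      obtain ⟨F1, F2, F3, F4⟩ := F 0 (by norm_num)
      obtain ⟨G1, G2, G3, G4⟩ := F 1 le_rfl
      obtain ⟨b, hb⟩ := ladder_of (J1 := J1) (J2 := J2) (J3 := J3) ![e 0, e 1, f 0, f 1]
        (by
          intro i j
          fin_cases i <;> fin_cases j <;>
            simp [on, onf, ne, nf, F1, F2, F3, F4, G1, G2, G3, G4])
        ![1 / 2, -(1 / 2), 1 / 2, -(1 / 2)] ![1, 0, 1, 0]
        (by
          intro k
          fin_cases k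
          · exact a0
          · exact a1
          · exact b0
          · exact b1)
        (by
          intro k
          fin_cases k
          · exact l0
          · exact hlm.trans (by simp)
          · exact m0
          · exact flm.trans (by simp))
      exact ⟨b, Or.inr (Or.inr (Or.inl hb))⟩
  · -- m = 2
    have a0 : J3 (e 0) = ((1 : ℝ) : ℂ) • e 0 := by
      rw [h3 0 (by norm_num)]
      norm_num
    have a1 : J3 (e 1) = ((0 : ℝ) : ℂ) • e 1 := by
      rw [h3 1 (by norm_num)]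
      norm_num
    have a2 : J3 (e 2) = ((-1 : ℝ) : ℂ) • e 2 := by
      rw [h3 2 (by norm_num)]
      norm_num
    have l0 : lo J1 J2 (e 0) = ((√2 : ℝ) : ℂ) • e 1 := by
      rw [hl 0 (by norm_num)]
      norm_num
    have l1 : lo J1 J2 (e 1) = ((√2 : ℝ) : ℂ) • e 2 := by
      rw [hl 1 (by norm_num)]
      norm_num
    have u1 : up J1 J2 (e 1) = ((√2 : ℝ) : ℂ) • e 0 := by
      rw [hu 0 (by norm_num)]
      norm_num
    have u2 : up J1 J2 (e 2) = ((√2 : ℝ) : ℂ) • e 1 := by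
      rw [hu 1 (by norm_num)]
      norm_num
    have hs : Stab J1 J2 J3 ![e 0, e 1, e 2] := by
      intro i
      fin_cases i
      · exact ⟨⟨1, _, l0⟩, ⟨0, 0, by rw [zero_smul]; exact hu0⟩, _, a0⟩
      · exact ⟨⟨2, _, l1⟩, ⟨0, _, u1⟩, _, a1⟩
      · exact ⟨⟨0, 0, by rw [zero_smul]; exact hlm⟩, ⟨1, _, u2⟩, _, a2⟩
    obtain ⟨m2, f, onf, hf, f3, fl, flm, fu0, fu, -⟩ := next (k := 3) (by norm_num) su hs
    have nf := nrm1 onf
    have F : ∀ i ≤ m2, inner ℂ (e 0) (f i) = 0 ∧ inner ℂ (f i) (e 0) = 0 ∧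
        inner ℂ (e 1) (f i) = 0 ∧ inner ℂ (f i) (e 1) = 0 ∧
        inner ℂ (e 2) (f i) = 0 ∧ inner ℂ (f i) (e 2) = 0 := fun i him =>
      ⟨(hf i him 0).1, (hf i him 0).2, (hf i him 1).1, (hf i him 1).2, (hf i him 2).1,
        (hf i him 2).2⟩
    have hm2 : m2 = 0 := by
      by_contra hcon
      obtain ⟨G1, G2, G3, G4, G5, G6⟩ := F 0 (by omega)
      obtain ⟨K1, K2, K3, K4, K5, K6⟩ := F 1 (by omega)
      have g01 := onf 0 (by omega) 1 (by omega)
      have g10 := onf 1 (by omega) 0 (by omega)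
      apply no5 ![e 0, e 1, e 2, f 0, f 1]
      intro i j
      fin_cases i <;> fin_cases j <;>
        simp [on, ne, nf 0 (by omega), nf 1 (by omega), G1, G2, G3, G4, G5, G6, K1, K2, K3, K4,
          K5, K6, g01, g10]
    subst hm2
    obtain ⟨G1, G2, G3, G4, G5, G6⟩ := F 0 le_rfl
    have b0 : J3 (f 0) = ((0 : ℝ) : ℂ) • f 0 := by
      rw [f3 0 (by norm_num)]
      norm_num
    obtain ⟨b, hb⟩ := ladder_of (J1 := J1) (J2 := J2) (J3 := J3) ![e 0, e 1, e 2, f 0]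
      (by
        intro i j
        fin_cases i <;> fin_cases j <;>
          simp [on, ne, nf, G1, G2, G3, G4, G5, G6])
      ![1, 0, -1, 0] ![√2, √2, 0, 0]
      (by
        intro k
        fin_cases k
        · exact a0
        · exact a1
        · exact a2
        · exact b0)
      (by
        intro k
        fin_cases k
        · exact l0
        · exact l1
        · exact hlm.trans (by simp)
        · exact flm.trans (by simp))
    exact ⟨b, Or.inr (Or.inl hb)⟩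
  · -- m = 3
    have a0 : J3 (e 0) = ((3 / 2 : ℝ) : ℂ) • e 0 := by
      rw [h3 0 (by norm_num)]
      norm_num
    have a1 : J3 (e 1) = ((1 / 2 : ℝ) : ℂ) • e 1 := by
      rw [h3 1 (by norm_num)]
      norm_num
    have a2 : J3 (e 2) = ((-(1 / 2) : ℝ) : ℂ) • e 2 := by
      rw [h3 2 (by norm_num)]
      norm_num
    have a3 : J3 (e 3) = ((-(3 / 2) : ℝ) : ℂ) • e 3 := by
      rw [h3 3 (by norm_num)]
      norm_num
    have l0 : lo J1 J2 (e 0) = ((√3 : ℝ) : ℂ) • e 1 := by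
      rw [hl 0 (by norm_num)]
      norm_num
    have l1 : lo J1 J2 (e 1) = ((2 : ℝ) : ℂ) • e 2 := by
      have h4 : √4 = (2 : ℝ) := by
        rw [show (4 : ℝ) = 2 ^ 2 by norm_num, Real.sqrt_sq (by norm_num)]
      rw [hl 1 (by norm_num)]
      norm_num [h4]
    have l2 : lo J1 J2 (e 2) = ((√3 : ℝ) : ℂ) • e 3 := by
      rw [hl 2 (by norm_num)]
      norm_num
    obtain ⟨b, hb⟩ := ladder_of (J1 := J1) (J2 := J2) (J3 := J3) ![e 0, e 1, e 2, e 3]
      (by
        intro i j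
        fin_cases i <;> fin_cases j <;> simp [on, ne])
      ![3 / 2, 1 / 2, -(1 / 2), -(3 / 2)] ![√3, 2, √3, 0]
      (by
        intro k
        fin_cases k
        · exact a0
        · exact a1
        · exact a2
        · exact a3)
      (by
        intro k
        fin_cases k
        · exact l0
        · exact l1
        · exact l2
        · exact hlm.trans (by simp))
    exact ⟨b, Or.inl hb⟩

/-- In a ladder the raising operator maps b (k+1) to c k b k and b 0 to 0 if c 3 = 0 (lo_adj). -/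
theorem up_ladder {J1 J2 J3 : Op 3} (su : Su2 J1 J2 J3) {b : OrthonormalBasis (Fin 4) ℂ (E 3)}
    {w c : Fin 4 → ℝ} (h : Ladder b J1 J2 J3 w c) (k : Fin 4) :
    up J1 J2 (b (k + 1)) = ((c k : ℝ) : ℂ) • b k := by
  rw [← b.sum_repr' (up J1 J2 (b (k + 1))), Finset.sum_eq_single k]
  · rw [← lo_adj su, h.2 k, inner_smul_left, Complex.conj_ofReal, inner_self_eq_norm_sq_to_K,
      b.orthonormal.1]
    simp
  · intro j _ hjk
    have h1 : j + 1 ≠ k + 1 := fun h2 => hjk (add_right_cancel h2)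
    rw [← lo_adj su, h.2 j, inner_smul_left, b.orthonormal.2 h1, mul_zero, zero_smul]
  · intro hk
    exact absurd (Finset.mem_univ k) hk

end Pool.Agent.H66.SyM
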