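import Pool.Agent.H66.SyM.Zero
import Pool.Agent.H66.SyM.Rep

/-! Spin 1/2 + 0 + 0 is impossible. -/

set_option autoImplicit false

open scoped ContDiff Topology

namespace Pool.Agent.H66.SyM

open Pool.Agent.H66.SyL

private theorem along {G : Type*} [NormedAddCommGroup G] [NormedSpace ℝ G] {f : R 3 → G} {x u : R 3}
    (hf : DifferentiableAt ℝ f x) : HasDerivAt (fun t : ℝ => f (x + t • u)) (fderiv ℝ f x u) 0 := by
  have h1 : HasDerivAt (fun t : ℝ => x + t • u) u 0 := by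
    simpa using ((hasDerivAt_id (0 : ℝ)).smul_const u).const_add x
  have hf' : HasFDerivAt f (fderiv ℝ f x) (x + (0 : ℝ) • u) := by simpa using hf.hasFDerivAt
  exact hf'.comp_hasDerivAt 0 h1

private theorem ev_ball {x0 : R 3} {δ : ℝ} {x : R 3} (hx : x ∈ Metric.ball x0 δ) (u : R 3) :
    ∀ᶠ t : ℝ in 𝓝 0, x + t • u ∈ Metric.ball x0 δ := by
  have h1 : ContinuousAt (fun t : ℝ => x + t • u) 0 := by fun_prop
  have h2 : Metric.ball x0 δ ∈ 𝓝 (x + (0 : ℝ) • u) := by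
    rw [zero_smul, add_zero]
    exact Metric.isOpen_ball.mem_nhds hx
  exact h1.eventually h2

private theorem lo_coord {J1 J2 J3 : Op 3} {b : OrthonormalBasis (Fin 4) ℂ (E 3)}
    (h : Ladder b J1 J2 J3 ![1 / 2, -(1 / 2), 0, 0] ![1, 0, 0, 0]) (z : E 3) :
    lo J1 J2 z = inner ℂ (b 0) z • b 1 := by
  conv_lhs => rw [← b.sum_repr' z]
  rw [map_sum, Fin.sum_univ_four]
  simp only [map_smul]
  rw [h.2 0, h.2 1, h.2 2, h.2 3]
  simp

private theorem coord_zero {J1 J2 J3 : Op 3} {b : OrthonormalBasis (Fin 4) ℂ (E 3)}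
    (h : Ladder b J1 J2 J3 ![1 / 2, -(1 / 2), 0, 0] ![1, 0, 0, 0]) {z : E 3}
    (m1 : inner ℂ z (J1 z) = 0) (m2 : inner ℂ z (J2 z) = 0) (m3 : inner ℂ z (J3 z) = 0) :
    inner ℂ (b 0) z = 0 ∧ inner ℂ (b 1) z = 0 := by
  have h3 : ‖inner ℂ (b 0) z‖ ^ 2 = ‖inner ℂ (b 1) z‖ ^ 2 := by
    have e := inner_ham_self (n := 3) b ![1 / 2, -(1 / 2), 0, 0] z
    rw [← h.1, m3] at e
    have e' := (Complex.ofReal_eq_zero.1 e.symm)
    have e2 : ∑ k : Fin (3 + 1), (![1 / 2, -(1 / 2), 0, 0] : Fin 4 → ℝ) k * ‖inner ℂ (b k) z‖ ^ 2 =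
        1 / 2 * ‖inner ℂ (b 0) z‖ ^ 2 - 1 / 2 * ‖inner ℂ (b 1) z‖ ^ 2 := by
      rw [Fin.sum_univ_four]
      simp
      ring
    rw [e2] at e'
    linarith
  have h4 : inner ℂ (b 0) z * (starRingEnd ℂ) (inner ℂ (b 1) z) = 0 := by
    have e : inner ℂ z (lo J1 J2 z) = 0 := by
      unfold lo
      rw [sub_apply, smul_apply, inner_sub_right, inner_smul_right, m1, m2]
      simp
    rw [lo_coord h, inner_smul_right, ← inner_conj_symm z (b 1)] at e
    exact e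
  rcases mul_eq_zero.1 h4 with h5 | h5
  · refine ⟨h5, ?_⟩
    rw [h5, norm_zero] at h3
    have : ‖inner ℂ (b 1) z‖ = 0 := pow_eq_zero_iff (two_ne_zero) |>.1 (by rw [← h3]; norm_num)
    exact norm_eq_zero.1 this
  · have h6 : inner ℂ (b 1) z = 0 := (map_eq_zero _).1 h5
    refine ⟨?_, h6⟩
    rw [h6, norm_zero] at h3
    have : ‖inner ℂ (b 0) z‖ = 0 := pow_eq_zero_iff (two_ne_zero) |>.1 (by rw [h3]; norm_num)
    exact norm_eq_zero.1 this

/-- Proof. For [z] in L the coordinates 0 and 1 of z vanish: (z, J3 z) = 0 and (z, lo z) = 0 give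
|z0| = |z1| and conj(z1) z0 = 0 (mom_su2). So in an LChart C all z x lie in F = span(b2, b3), and so do the
derivatives D_u z; these are orthogonal to z (leg), so they lie in the complex line orthogonal to z in F, real
dimension 2; but imm says that u to D_u z is injective on R^3: absurd (or: lag). -/
theorem case211 {L : Set (Op 3)} (hL : IsLagrangian L) (hc : IsCompact L)
    (hconn : IsConnected L) (h1 : H1Zero L) {J1 J2 J3 : Op 3} (su : Su2 J1 J2 J3)
    (hs1 : Symm L J1) (hs2 : Symm L J2) (hs3 : Symm L J3)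
    {b : OrthonormalBasis (Fin 4) ℂ (E 3)}
    (h : Ladder b J1 J2 J3 ![1 / 2, -(1 / 2), 0, 0] ![1, 0, 0, 0]) : False := by
  obtain ⟨P, hP⟩ := hconn.nonempty
  obtain ⟨C, -⟩ := exists_lchart hL hP
  have hx0 : C.x0 ∈ Metric.ball C.x0 C.δ := Metric.mem_ball_self C.δ_pos
  have hco : ∀ x ∈ Metric.ball C.x0 C.δ, inner ℂ (b 0) (C.z x) = 0 ∧ inner ℂ (b 1) (C.z x) = 0 := by
    intro x hx
    have hzL : pt (C.z x) ∈ L := by
      rw [C.pt_z x hx]
      exact (C.p_mem x hx).1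
    obtain ⟨m1, m2, m3⟩ := mom_su2 hL hc hconn h1 su hs1 hs2 hs3 (C.norm_z x hx) hzL
    exact coord_zero h m1 m2 m3
  have hzd : DifferentiableAt ℝ C.z C.x0 :=
    (C.smooth_z.contDiffAt (Metric.isOpen_ball.mem_nhds hx0)).differentiableAt one_ne_zero
  have hY : ∀ (i : Fin 4), (∀ x ∈ Metric.ball C.x0 C.δ, inner ℂ (b i) (C.z x) = 0) →
      ∀ v, inner ℂ (b i) (fderiv ℝ C.z C.x0 v) = 0 := by
    intro i hi v
    have d1 : HasDerivAt (fun t : ℝ => inner ℂ (b i) (C.z (C.x0 + t • v)))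
        (inner ℂ (b i) (fderiv ℝ C.z C.x0 v)) 0 := by
      have h1 := (((innerSL ℂ (b i)).restrictScalars ℝ).hasFDerivAt
        (x := C.z (C.x0 + (0 : ℝ) • v))).comp_hasDerivAt 0 (along (u := v) hzd)
      exact h1
    have e : (fun t : ℝ => inner ℂ (b i) (C.z (C.x0 + t • v))) =ᶠ[𝓝 0] fun _ => (0 : ℂ) := by
      filter_upwards [ev_ball hx0 v] with t ht
      exact hi _ ht
    exact d1.unique ((hasDerivAt_const (0 : ℝ) (0 : ℂ)).congr_of_eventuallyEq e)
  have hY0 := hY 0 (fun x hx => (hco x hx).1)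
  have hY1 := hY 1 (fun x hx => (hco x hx).2)
  obtain ⟨z0, z1⟩ := hco _ hx0
  obtain ⟨z2, hz2⟩ : ∃ c, c = inner ℂ (b 2) (C.z C.x0) := ⟨_, rfl⟩
  obtain ⟨z3, hz3⟩ : ∃ c, c = inner ℂ (b 3) (C.z C.x0) := ⟨_, rfl⟩
  have hin : ∀ y : E 3, inner ℂ (C.z C.x0) y = (starRingEnd ℂ) z2 * inner ℂ (b 2) y +
      (starRingEnd ℂ) z3 * inner ℂ (b 3) y := by
    intro y
    rw [← b.sum_inner_mul_inner, Fin.sum_univ_four, ← inner_conj_symm (C.z C.x0) (b 0),
      ← inner_conj_symm (C.z C.x0) (b 1), ← inner_conj_symm (C.z C.x0) (b 2),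
      ← inner_conj_symm (C.z C.x0) (b 3), z0, z1, hz2, hz3]
    simp
  have hnorm : (starRingEnd ℂ) z2 * z2 + (starRingEnd ℂ) z3 * z3 = 1 := by
    have e := hin (C.z C.x0)
    rw [← hz2, ← hz3, inner_self_eq_norm_sq_to_K, C.norm_z _ hx0] at e
    rw [← e]
    norm_num
  let ψ : R 3 →ₗ[ℝ] ℂ :=
    { toFun := fun v => z2 * inner ℂ (b 3) (fderiv ℝ C.z C.x0 v) - z3 * inner ℂ (b 2) (fderiv ℝ C.z C.x0 v)
      map_add' := by
        intro u v
        rw [map_add, inner_add_right, inner_add_right]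
        ring
      map_smul' := by
        intro r v
        rw [map_smul, inner_smul_right_eq_smul, inner_smul_right_eq_smul, RingHom.id_apply,
          Complex.real_smul, Complex.real_smul, Complex.real_smul]
        ring }
  have hker : LinearMap.ker ψ ≠ ⊥ := by
    apply LinearMap.ker_ne_bot_of_finrank_lt
    simp
  obtain ⟨v, hv, hv0⟩ := (Submodule.ne_bot_iff _).1 hker
  apply hv0
  have e1 : z2 * inner ℂ (b 3) (fderiv ℝ C.z C.x0 v) - z3 * inner ℂ (b 2) (fderiv ℝ C.z C.x0 v) = 0 :=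
    LinearMap.mem_ker.1 hv
  have e2 := C.leg _ hx0 v
  rw [hin] at e2
  have y2 : inner ℂ (b 2) (fderiv ℝ C.z C.x0 v) = 0 := by
    linear_combination z2 * e2 - (starRingEnd ℂ) z3 * e1 -
      inner ℂ (b 2) (fderiv ℝ C.z C.x0 v) * hnorm
  have y3 : inner ℂ (b 3) (fderiv ℝ C.z C.x0 v) = 0 := by
    linear_combination z3 * e2 + (starRingEnd ℂ) z2 * e1 -
      inner ℂ (b 3) (fderiv ℝ C.z C.x0 v) * hnorm
  have hYv : fderiv ℝ C.z C.x0 v = 0 := by
    apply b.repr.injective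
    ext k
    rw [b.repr_apply_apply, map_zero]
    fin_cases k
    · exact hY0 v
    · exact hY1 v
    · exact y2
    · exact y3
  exact C.imm _ hx0 (by rw [hYv, map_zero])

end Pool.Agent.H66.SyM
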