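import Pool.Agent.H66.SyM.Lie
import Pool.Agent.H66.SyM.ChC
import Pool.Agent.H66.SyM.R22
import Pool.Agent.H66.SyM.X211
import Pool.Agent.H66.SyM.OrC
import Pool.Agent.H11.ST.Main
import Pool.Agent.H11.SO.Main

/-! Lagrangian rational homology spheres with two independent symmetries: assembly. -/

set_option autoImplicit false

open scoped ContDiff Topology

namespace Pool.Agent.H66.SyM

open Pool.Agent.H66.SyL
open Pool.Agent.H11.ST (RP3)

theorem case31 {L : Set (Op 3)} (hL : IsLagrangian L) (hc : IsCompact L)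
    (hconn : IsConnected L) (h1 : H1Zero L) {J1 J2 J3 : Op 3} (su : Su2 J1 J2 J3)
    (hs1 : Symm L J1) (hs2 : Symm L J2) (hs3 : Symm L J3)
    {b : OrthonormalBasis (Fin 4) ℂ (E 3)} (h : L31 b J1 J2 J3) :
    Nonempty (L ≃ₜ RP3) := by
  obtain ⟨f, hf⟩ := exists_cart su h
  exact Pool.Agent.H11.SO.orth_main hL hc hconn h1 (orth_case hL hc hconn h1 su hs1 hs2 hs3 hf)

private theorem ham_one (b : OrthonormalBasis (Fin (3 + 1)) ℂ (E 3)) :
    ham b (fun _ => (1 : ℝ)) = 1 := by
  ext1 v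
  refine ext_inner_left ℂ fun u => ?_
  rw [← b.sum_inner_mul_inner u (ham b (fun _ => (1 : ℝ)) v), ← b.sum_inner_mul_inner u
    ((1 : Op 3) v)]
  refine Finset.sum_congr rfl fun k _ => ?_
  rw [coord_ham]
  simp

/-- ham as a real linear map -/
private noncomputable def hamL (b : OrthonormalBasis (Fin (3 + 1)) ℂ (E 3)) :
    (Fin (3 + 1) → ℝ) →ₗ[ℝ] Op 3 where
  toFun := ham b
  map_add' := fun w w' => by
    ext1 v
    refine ext_inner_left ℂ fun u => ?_
    rw [ContinuousLinearMap.add_apply, inner_add_right,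
      ← b.sum_inner_mul_inner u (ham b (w + w') v), ← b.sum_inner_mul_inner u (ham b w v),
      ← b.sum_inner_mul_inner u (ham b w' v), ← Finset.sum_add_distrib]
    refine Finset.sum_congr rfl fun k _ => ?_
    rw [coord_ham, coord_ham, coord_ham, Pi.add_apply]
    push_cast
    ring
  map_smul' := fun c w => by
    ext1 v
    refine ext_inner_left ℂ fun u => ?_
    have h : ((c • ham b w : Op 3)) v = (c : ℂ) • ham b w v := rfl
    rw [RingHom.id_apply, h, inner_smul_right,
      ← b.sum_inner_mul_inner u (ham b (c • w) v), ← b.sum_inner_mul_inner u (ham b w v),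
      Finset.mul_sum]
    refine Finset.sum_congr rfl fun k _ => ?_
    rw [coord_ham, coord_ham, Pi.smul_apply, smul_eq_mul]
    push_cast
    ring

theorem lin_ham (b : OrthonormalBasis (Fin (3 + 1)) ℂ (E 3)) {w w' : Fin (3 + 1) → ℝ}
    (h : LinearIndependent ℝ ![1, ham b w, ham b w']) :
    LinearIndependent ℝ ![(fun _ => (1 : ℝ)), w, w'] := by
  refine LinearIndependent.of_comp (hamL b) ?_
  have : (hamL b ∘ ![(fun _ => (1 : ℝ)), w, w'] : Fin 3 → Op 3) = ![1, ham b w, ham b w'] := by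
    funext k
    fin_cases k
    · exact ham_one b
    · rfl
    · rfl
  rw [this]
  exact h

theorem main {L : Set (Op 3)} (hL : IsLagrangian L) (hc : IsCompact L) (hconn : IsConnected L)
    (h1 : H1Zero L) {H H' : Op 3} (hs : Symm L H) (hs' : Symm L H')
    (hind : LinearIndependent ℝ ![1, H, H']) :
    Nonempty (L ≃ₜ RP3) ∨ ∃ b, L = chiang b := by
  rcases su2_or_comm (sym hL hc) (fun A hA => hA.1) symm_one
    (fun A hA B hB => symm_br hL hc hA hB) hs hs' hind with
    ⟨A, hA, B, hB, hAB, hli⟩ | ⟨J1, hJ1, J2, hJ2, J3, hJ3, h0, su⟩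
  · left
    obtain ⟨b, w, w', rfl, rfl⟩ := diag_comm hA.1 hB.1 hAB
    exact Pool.Agent.H11.ST.main hL hc hconn h1 b ((symm_ham b L w).1 hA) ((symm_ham b L w').1 hB)
      (lin_ham b hli)
  · obtain ⟨b, h | h | h | h⟩ := rep su h0
    · exact Or.inr ⟨b, chiang_case b hL hc hconn h1 su hJ1 hJ2 hJ3 h⟩
    · exact Or.inl (case31 hL hc hconn h1 su hJ1 hJ2 hJ3 h)
    · exact Or.inl (case22 b hL hc hconn h1 su hJ1 hJ2 hJ3 h)
    · exact (case211 hL hc hconn h1 su hJ1 hJ2 hJ3 h).elim

end Pool.Agent.H66.SyM
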