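import Pool.Agent.H66.SyM.Rep

/-! Spin 1 + 0 in a real basis. -/

set_option autoImplicit false

open scoped ContDiff Topology

namespace Pool.Agent.H66.SyM

open Pool.Agent.H66.SyL

/-- The spin 1 + 0 ladder. -/
def L31 (b : OrthonormalBasis (Fin 4) ℂ (E 3)) (J1 J2 J3 : Op 3) : Prop :=
  Ladder b J1 J2 J3 ![1, 0, -1, 0] ![√2, √2, 0, 0]

/-- J k acts on f 0, f 1, f 2 as i times the vector product and kills f 3. -/
def Cart (f : OrthonormalBasis (Fin 4) ℂ (E 3)) (J1 J2 J3 : Op 3) : Prop :=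
  (J1 (f 0) = 0 ∧ J1 (f 1) = Complex.I • f 2 ∧ J1 (f 2) = -(Complex.I • f 1) ∧ J1 (f 3) = 0) ∧
  (J2 (f 0) = -(Complex.I • f 2) ∧ J2 (f 1) = 0 ∧ J2 (f 2) = Complex.I • f 0 ∧ J2 (f 3) = 0) ∧
  (J3 (f 0) = Complex.I • f 1 ∧ J3 (f 1) = -(Complex.I • f 0) ∧ J3 (f 2) = 0 ∧ J3 (f 3) = 0)

private theorem exists_onb (v : Fin 4 → E 3) (hv : Orthonormal ℂ v) :
    ∃ f : OrthonormalBasis (Fin 4) ℂ (E 3), ∀ i, f i = v i := by
  have hc : Fintype.card (Fin 4) = Module.finrank ℂ (E 3) := by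
    rw [finrank_euclideanSpace]
  refine ⟨(basisOfOrthonormalOfCardEqFinrank hv hc).toOrthonormalBasis (by
    rw [coe_basisOfOrthonormalOfCardEqFinrank]
    exact hv), fun i => ?_⟩
  rw [Module.Basis.coe_toOrthonormalBasis, coe_basisOfOrthonormalOfCardEqFinrank]

private theorem ham_basis (b : OrthonormalBasis (Fin 4) ℂ (E 3)) (w : Fin 4 → ℝ) (k : Fin 4) :
    ham (n := 3) b w (b k) = ((w k : ℝ) : ℂ) • b k := by
  have h := orthonormal_iff_ite.1 b.orthonormal
  unfold ham
  rw [ContinuousLinearMap.sum_apply, Finset.sum_eq_single k]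
  · rw [ContinuousLinearMap.smul_apply]
    unfold pt
    rw [ContinuousLinearMap.smulRight_apply, innerSL_apply_apply, h k k, if_pos rfl, one_smul]
  · intro j _ hj
    rw [ContinuousLinearMap.smul_apply]
    unfold pt
    rw [ContinuousLinearMap.smulRight_apply, innerSL_apply_apply, h j k, if_neg hj, zero_smul, smul_zero]
  · intro h
    exact absurd (Finset.mem_univ _) h

/-- f 0 = (b2 - b0)/sqrt 2, f 1 = i(b0 + b2)/sqrt 2, f 2 = b1, f 3 = b3; J1 = (up + lo)/2,
i J2 = (up - lo)/2; up_ladder. -/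
theorem exists_cart {J1 J2 J3 : Op 3} (su : Su2 J1 J2 J3)
    {b : OrthonormalBasis (Fin 4) ℂ (E 3)} (h : L31 b J1 J2 J3) :
    ∃ f : OrthonormalBasis (Fin 4) ℂ (E 3), Cart f J1 J2 J3 := by
  have hon := orthonormal_iff_ite.1 b.orthonormal
  set s : ℂ := (((√2)⁻¹ : ℝ) : ℂ) with hs
  set r : ℂ := ((√2 : ℝ) : ℂ) with hr
  have hsc : (starRingEnd ℂ) s = s := Complex.conj_ofReal _
  have h2 : (√2 : ℝ) * √2 = 2 := Real.mul_self_sqrt (by norm_num)
  have h20 : (√2 : ℝ) ≠ 0 := by positivity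
  have hrs : r * s = 1 := by
    rw [hr, hs, ← Complex.ofReal_mul, mul_inv_cancel₀ h20, Complex.ofReal_one]
  have hrr : r * r = 2 := by
    rw [hr, ← Complex.ofReal_mul, h2]
    norm_num
  have hss : s * s = 1 / 2 := by
    have : (r * s) * (r * s) = 1 := by rw [hrs, one_mul]
    have h3 : r * r * (s * s) = 1 := by linear_combination this
    rw [hrr] at h3
    linear_combination h3 / 2
  have hrs2 : r = 2 * s := by
    linear_combination (-r) * hrs + s * hrr
  -- the operators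
  have hlo : ∀ v, lo J1 J2 v = J1 v - Complex.I • J2 v := fun v => rfl
  have hup : ∀ v, up J1 J2 v = J1 v + Complex.I • J2 v := fun v => rfl
  have hJ1 : ∀ v, J1 v = (1 / 2 : ℂ) • (up J1 J2 v + lo J1 J2 v) := by
    intro v
    rw [hlo, hup]
    module
  have hJ2 : ∀ v, J2 v = (-(Complex.I / 2) : ℂ) • (up J1 J2 v - lo J1 J2 v) := by
    intro v
    rw [hlo, hup]
    have : J1 v + Complex.I • J2 v - (J1 v - Complex.I • J2 v) = (2 * Complex.I) • J2 v := by module
    rw [this, smul_smul]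
    have e : (-(Complex.I / 2) : ℂ) * (2 * Complex.I) = 1 := by
      linear_combination -Complex.I_mul_I
    rw [e, one_smul]
  have l0 : lo J1 J2 (b 0) = r • b 1 := h.2 0
  have l1 : lo J1 J2 (b 1) = r • b 2 := h.2 1
  have l2 : lo J1 J2 (b 2) = 0 := by
    have := h.2 2
    simpa using this
  have l3 : lo J1 J2 (b 3) = 0 := by
    have := h.2 3
    simpa using this
  have u1 : up J1 J2 (b 1) = r • b 0 := up_ladder su h 0
  have u2 : up J1 J2 (b 2) = r • b 1 := up_ladder su h 1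
  have u3 : up J1 J2 (b 3) = 0 := by
    have := up_ladder su h 2
    simpa using this
  have u0 : up J1 J2 (b 0) = 0 := by
    have := up_ladder su h 3
    simpa using this
  have k0 : J3 (b 0) = b 0 := by
    rw [h.1, ham_basis]
    simp
  have k1 : J3 (b 1) = 0 := by
    rw [h.1, ham_basis]
    simp
  have k2 : J3 (b 2) = -b 2 := by
    rw [h.1, ham_basis]
    simp
  have k3 : J3 (b 3) = 0 := by
    rw [h.1, ham_basis]
    simp
  have a0 : J1 (b 0) = s • b 1 := by
    rw [hJ1, u0, l0, zero_add, smul_smul, hrs2]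
    congr 1
    ring
  have a1 : J1 (b 1) = s • (b 0 + b 2) := by
    rw [hJ1, u1, l1, hrs2]
    module
  have a2 : J1 (b 2) = s • b 1 := by
    rw [hJ1, u2, l2, add_zero, smul_smul, hrs2]
    congr 1
    ring
  have a3 : J1 (b 3) = 0 := by rw [hJ1, u3, l3, add_zero, smul_zero]
  have c0 : J2 (b 0) = (Complex.I * s) • b 1 := by
    rw [hJ2, u0, l0, hrs2]
    module
  have c1 : J2 (b 1) = (Complex.I * s) • (b 2 - b 0) := by
    rw [hJ2, u1, l1, hrs2]
    module
  have c2 : J2 (b 2) = -((Complex.I * s) • b 1) := by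
    rw [hJ2, u2, l2, hrs2]
    module
  have c3 : J2 (b 3) = 0 := by rw [hJ2, u3, l3, sub_zero, smul_zero]
  -- the basis
  obtain ⟨f, hf⟩ := exists_onb ![s • (b 2 - b 0), (Complex.I * s) • (b 0 + b 2), b 1, b 3] (by
    rw [orthonormal_iff_ite]
    intro i j
    have hI : (starRingEnd ℂ) Complex.I = -Complex.I := Complex.conj_I
    have hII := Complex.I_mul_I
    fin_cases i <;> fin_cases j <;>
      simp only [Fin.zero_eta, Fin.mk_one, Fin.reduceFinMk, Matrix.cons_val, inner_add_left, inner_add_right,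
        inner_sub_left, inner_sub_right, inner_smul_left, inner_smul_right, hon, hsc, map_mul, hI, Fin.isValue,
        Fin.reduceEq, if_true, if_false, mul_zero, zero_mul, sub_zero, zero_sub, add_zero, zero_add, mul_one,
        sub_neg_eq_add, mul_neg, neg_zero, sub_self] <;>
      first
        | rfl
        | linear_combination 2 * hss
        | linear_combination (-2 * s * s) * hII + 2 * hss
        | ring)
  have f0 : f 0 = s • (b 2 - b 0) := hf 0
  have f1 : f 1 = (Complex.I * s) • (b 0 + b 2) := hf 1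
  have f2 : f 2 = b 1 := hf 2
  have f3 : f 3 = b 3 := hf 3
  refine ⟨f, ⟨?_, ?_, ?_, ?_⟩, ⟨?_, ?_, ?_, ?_⟩, ⟨?_, ?_, ?_, ?_⟩⟩
  · rw [f0, map_smul, map_sub, a0, a2, sub_self, smul_zero]
  · rw [f1, f2, map_smul, map_add, a0, a2, ← two_smul ℂ, smul_smul, smul_smul]
    congr 1
    linear_combination 2 * Complex.I * hss
  · rw [f2, f1, a1, smul_smul, ← neg_smul]
    congr 1
    linear_combination s * Complex.I_mul_I
  · rw [f3, a3]
  · rw [f0, f2, map_smul, map_sub, c0, c2, ← neg_smul, ← neg_smul, ← sub_smul, smul_smul]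
    congr 1
    linear_combination (-2) * Complex.I * hss
  · rw [f1, map_smul, map_add, c0, c2, add_neg_cancel, smul_zero]
  · rw [f2, f0, c1, smul_smul]
  · rw [f3, c3]
  · rw [f0, f1, map_smul, map_sub, k0, k2, smul_smul]
    have e : (Complex.I * (Complex.I * s)) = -s := by linear_combination s * Complex.I_mul_I
    rw [e]
    module
  · rw [f0, f1, map_smul, map_add, k0, k2, smul_smul]
    module
  · rw [f2, k1]
  · rw [f3, k3]

private theorem phase (z : Fin 3 → ℂ) (h : ∀ i j, (z i * (starRingEnd ℂ) (z j)).im = 0) :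
    ∃ e : ℂ, ‖e‖ = 1 ∧ ∀ k, ∃ r : ℝ, z k = r * e := by
  by_cases hz : ∀ k, z k = 0
  · exact ⟨1, by simp, fun k => ⟨0, by rw [hz k]; simp⟩⟩
  · push Not at hz
    obtain ⟨j, hj⟩ := hz
    have hn : ‖z j‖ ≠ 0 := norm_ne_zero_iff.2 hj
    refine ⟨z j / ‖z j‖, ?_, fun k => ⟨(z k * (starRingEnd ℂ) (z j)).re / ‖z j‖, ?_⟩⟩
    · rw [norm_div, Complex.norm_real, norm_norm, div_self hn]
    · have h1 : z k * (starRingEnd ℂ) (z j) = (((z k * (starRingEnd ℂ) (z j)).re : ℝ) : ℂ) := by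
        apply Complex.ext
        · simp
        · rw [h k j, Complex.ofReal_im]
      have h2 : (starRingEnd ℂ) (z j) * z j = ((‖z j‖ : ℝ) : ℂ) ^ 2 := by
        rw [mul_comm, Complex.mul_conj, Complex.normSq_eq_norm_sq]
        push_cast
        rfl
      have hnc : ((‖z j‖ : ℝ) : ℂ) ≠ 0 := by exact_mod_cast hn
      push_cast
      rw [← h1]
      field_simp
      linear_combination (-(z k)) * h2

/-- Proof. z = sum z_k f_k, p_k = Re z_k, q_k = Im z_k for k < 3: (z, J_k z) = 0 says that the vector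
product of p and q vanishes, so p = a u, q = c u for a real unit vector u (if p = q = 0 any u), s = a + ic;
t = z 3. -/
theorem cart_form {J1 J2 J3 : Op 3} {f : OrthonormalBasis (Fin 4) ℂ (E 3)} (h : Cart f J1 J2 J3)
    {z : E 3} (hz : ‖z‖ = 1) (z1 : inner ℂ z (J1 z) = 0) (z2 : inner ℂ z (J2 z) = 0)
    (z3 : inner ℂ z (J3 z) = 0) : ∃ (s t : ℂ) (x y w : ℝ), ‖s‖ ^ 2 + ‖t‖ ^ 2 = 1 ∧
      x ^ 2 + y ^ 2 + w ^ 2 = 1 ∧ z = vec f s t x y w := by
  obtain ⟨⟨p0, p1, p2, p3⟩, ⟨q0, q1, q2, q3⟩, ⟨r0, r1, r2, r3⟩⟩ := h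
  set c : Fin 4 → ℂ := fun k => inner ℂ (f k) z with hc
  have hzc : z = c 0 • f 0 + c 1 • f 1 + c 2 • f 2 + c 3 • f 3 := by
    have := f.sum_repr' z
    rw [Fin.sum_univ_four] at this
    exact this.symm
  have hin : ∀ k, inner ℂ z (f k) = (starRingEnd ℂ) (c k) := fun k => (inner_conj_symm z (f k)).symm
  have hnorm : ‖c 0‖ ^ 2 + ‖c 1‖ ^ 2 + ‖c 2‖ ^ 2 + ‖c 3‖ ^ 2 = 1 := by
    have := f.sum_sq_norm_inner_right z
    rw [Fin.sum_univ_four, hz, one_pow] at this
    exact this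
  have e1 : c 1 * (starRingEnd ℂ) (c 2) - c 2 * (starRingEnd ℂ) (c 1) = 0 := by
    have e : J1 z = (c 1 * Complex.I) • f 2 - (c 2 * Complex.I) • f 1 := by
      conv_lhs => rw [hzc]
      rw [map_add, map_add, map_add, map_smul, map_smul, map_smul, map_smul, p0, p1, p2, p3]
      module
    rw [e, inner_sub_right, inner_smul_right, inner_smul_right, hin, hin] at z1
    have h1 : Complex.I * (c 1 * (starRingEnd ℂ) (c 2) - c 2 * (starRingEnd ℂ) (c 1)) = 0 := by
      linear_combination z1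
    exact (mul_eq_zero.1 h1).resolve_left Complex.I_ne_zero
  have e2 : c 2 * (starRingEnd ℂ) (c 0) - c 0 * (starRingEnd ℂ) (c 2) = 0 := by
    have e : J2 z = (c 2 * Complex.I) • f 0 - (c 0 * Complex.I) • f 2 := by
      conv_lhs => rw [hzc]
      rw [map_add, map_add, map_add, map_smul, map_smul, map_smul, map_smul, q0, q1, q2, q3]
      module
    rw [e, inner_sub_right, inner_smul_right, inner_smul_right, hin, hin] at z2
    have h1 : Complex.I * (c 2 * (starRingEnd ℂ) (c 0) - c 0 * (starRingEnd ℂ) (c 2)) = 0 := by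
      linear_combination z2
    exact (mul_eq_zero.1 h1).resolve_left Complex.I_ne_zero
  have e3 : c 0 * (starRingEnd ℂ) (c 1) - c 1 * (starRingEnd ℂ) (c 0) = 0 := by
    have e : J3 z = (c 0 * Complex.I) • f 1 - (c 1 * Complex.I) • f 0 := by
      conv_lhs => rw [hzc]
      rw [map_add, map_add, map_add, map_smul, map_smul, map_smul, map_smul, r0, r1, r2, r3]
      module
    rw [e, inner_sub_right, inner_smul_right, inner_smul_right, hin, hin] at z3
    have h1 : Complex.I * (c 0 * (starRingEnd ℂ) (c 1) - c 1 * (starRingEnd ℂ) (c 0)) = 0 := by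
      linear_combination z3
    exact (mul_eq_zero.1 h1).resolve_left Complex.I_ne_zero
  have im0 : ∀ u v : ℂ, u * (starRingEnd ℂ) v - v * (starRingEnd ℂ) u = 0 → (u * (starRingEnd ℂ) v).im = 0 := by
    intro u v huv
    have := congrArg Complex.im huv
    simp only [Complex.sub_im, Complex.mul_im, Complex.conj_re, Complex.conj_im, Complex.zero_im] at this ⊢
    linarith
  have im1 : ∀ u v : ℂ, u * (starRingEnd ℂ) v - v * (starRingEnd ℂ) u = 0 → (v * (starRingEnd ℂ) u).im = 0 := by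
    intro u v huv
    have := congrArg Complex.im huv
    simp only [Complex.sub_im, Complex.mul_im, Complex.conj_re, Complex.conj_im, Complex.zero_im] at this ⊢
    linarith
  have im2 : ∀ u : ℂ, (u * (starRingEnd ℂ) u).im = 0 := by
    intro u
    simp only [Complex.mul_im, Complex.conj_re, Complex.conj_im]
    ring
  obtain ⟨e, he, hr⟩ := phase ![c 0, c 1, c 2] (by
    intro i j
    fin_cases i <;> fin_cases j
    · exact im2 _
    · exact im0 _ _ e3
    · exact im1 _ _ e2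
    · exact im1 _ _ e3
    · exact im2 _
    · exact im0 _ _ e1
    · exact im0 _ _ e2
    · exact im1 _ _ e1
    · exact im2 _)
  obtain ⟨x0, hx0⟩ := hr 0
  obtain ⟨x1, hx1⟩ := hr 1
  obtain ⟨x2, hx2⟩ := hr 2
  have hx0 : c 0 = x0 * e := hx0
  have hx1 : c 1 = x1 * e := hx1
  have hx2 : c 2 = x2 * e := hx2
  have hn : ∀ x : ℝ, ‖(x : ℂ) * e‖ ^ 2 = x ^ 2 := by
    intro x
    rw [norm_mul, he, mul_one, Complex.norm_real, Real.norm_eq_abs, sq_abs]
  rw [hx0, hx1, hx2, hn, hn, hn] at hnorm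
  by_cases h0 : x0 ^ 2 + x1 ^ 2 + x2 ^ 2 = 0
  · refine ⟨0, c 3, 1, 0, 0, ?_, by norm_num, ?_⟩
    · rw [norm_zero]
      linarith
    · have a0 : x0 = 0 := by nlinarith [sq_nonneg x0, sq_nonneg x1, sq_nonneg x2]
      have a1 : x1 = 0 := by nlinarith [sq_nonneg x0, sq_nonneg x1, sq_nonneg x2]
      have a2 : x2 = 0 := by nlinarith [sq_nonneg x0, sq_nonneg x1, sq_nonneg x2]
      unfold vec
      conv_lhs => rw [hzc, hx0, hx1, hx2, a0, a1, a2]
      simp
  · set N := √(x0 ^ 2 + x1 ^ 2 + x2 ^ 2) with hN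
    have hpos : 0 < x0 ^ 2 + x1 ^ 2 + x2 ^ 2 := lt_of_le_of_ne (by positivity) (Ne.symm h0)
    have hN0 : 0 < N := Real.sqrt_pos.2 hpos
    have hNN : N ^ 2 = x0 ^ 2 + x1 ^ 2 + x2 ^ 2 := Real.sq_sqrt hpos.le
    have hNc : ((N : ℝ) : ℂ) ≠ 0 := by exact_mod_cast hN0.ne'
    refine ⟨(N : ℂ) * e, c 3, x0 / N, x1 / N, x2 / N, ?_, ?_, ?_⟩
    · rw [hn, hNN]
      linarith
    · field_simp
      linarith
    · unfold vec
      conv_lhs => rw [hzc, hx0, hx1, hx2]
      congr 1
      rw [smul_add, smul_add, smul_smul, smul_smul, smul_smul]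
      push_cast
      congr 1
      · congr 1
        · congr 1
          field_simp
        · congr 1
          field_simp
      · congr 1
        field_simp

end Pool.Agent.H66.SyM
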