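import Pool.Agent.H66.SyM.P31A

/-! Spin 1 + 0: rotations. -/

set_option autoImplicit false

open scoped ContDiff Topology

namespace Pool.Agent.H66.SyM

open Pool.Agent.H66.SyL

/-- exp(iaJ3) rotates the plane of f 0, f 1 and fixes f 2, f 3 -/
theorem exp_cart3 {J1 J2 J3 : Op 3} {f : OrthonormalBasis (Fin 4) ℂ (E 3)} (h : Cart f J1 J2 J3)
    (a : ℝ) (s t : ℂ) (x y w : ℝ) :
    NormedSpace.exp (Complex.I • (a • J3)) (vec f s t x y w) =
      vec f s t (x * Real.cos a + y * Real.sin a) (-(x * Real.sin a) + y * Real.cos a) w := by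
  obtain ⟨-, -, h0, h1, h2, h3⟩ := h
  have hz : ∀ u : ℝ, HasDerivAt (fun u : ℝ => vec f s t (x * Real.cos u + y * Real.sin u)
      (-(x * Real.sin u) + y * Real.cos u) w)
      (Complex.I • J3 (vec f s t (x * Real.cos u + y * Real.sin u) (-(x * Real.sin u) + y * Real.cos u) w)) u := by
    intro u
    have e1 : HasDerivAt (fun u : ℝ => ((x * Real.cos u + y * Real.sin u : ℝ) : ℂ))
        ((x * (-Real.sin u) + y * Real.cos u : ℝ) : ℂ) u :=
      (((Real.hasDerivAt_cos u).const_mul x).add ((Real.hasDerivAt_sin u).const_mul y)).ofReal_comp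
    have e2 : HasDerivAt (fun u : ℝ => ((-(x * Real.sin u) + y * Real.cos u : ℝ) : ℂ))
        ((-(x * Real.cos u) + y * (-Real.sin u) : ℝ) : ℂ) u :=
      ((((Real.hasDerivAt_sin u).const_mul x).neg).add ((Real.hasDerivAt_cos u).const_mul y)).ofReal_comp
    have e3 := ((((e1.smul_const (f 0)).add (e2.smul_const (f 1))).add_const ((w : ℂ) • f 2)).const_smul s).add_const (t • f 3)
    unfold vec
    refine e3.congr_deriv ?_
    simp only [map_add, map_smul, h0, h1, h2, h3, smul_zero, add_zero, smul_neg, smul_add, smul_smul]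
    have g1 : Complex.I * (s * ((x * Real.cos u + y * Real.sin u : ℝ) : ℂ) * Complex.I) =
        s * ((-(x * Real.cos u) + y * (-Real.sin u) : ℝ) : ℂ) := by
      push_cast
      linear_combination (s * (x * Complex.cos u + y * Complex.sin u)) * Complex.I_mul_I
    have g2 : Complex.I * (s * ((-(x * Real.sin u) + y * Real.cos u : ℝ) : ℂ) * Complex.I) =
        -(s * ((x * (-Real.sin u) + y * Real.cos u : ℝ) : ℂ)) := by
      push_cast
      linear_combination (s * (-(x * Complex.sin u) + y * Complex.cos u)) * Complex.I_mul_I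
    rw [g1, g2, neg_smul, neg_neg, add_comm]
  have := exp_unique J3 hz a
  rw [Real.cos_zero, Real.sin_zero, mul_one, mul_zero, mul_zero, mul_one, add_zero, neg_zero, zero_add] at this
  exact this.symm

/-- exp(iaJ2) rotates the plane of f 2, f 0 -/
theorem exp_cart2 {J1 J2 J3 : Op 3} {f : OrthonormalBasis (Fin 4) ℂ (E 3)} (h : Cart f J1 J2 J3)
    (a : ℝ) (s t : ℂ) (x y w : ℝ) :
    NormedSpace.exp (Complex.I • (a • J2)) (vec f s t x y w) =
      vec f s t (-(w * Real.sin a) + x * Real.cos a) y (w * Real.cos a + x * Real.sin a) := by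
  obtain ⟨-, ⟨h0, h1, h2, h3⟩, -⟩ := h
  have hz : ∀ u : ℝ, HasDerivAt (fun u : ℝ => vec f s t (-(w * Real.sin u) + x * Real.cos u) y
      (w * Real.cos u + x * Real.sin u))
      (Complex.I • J2 (vec f s t (-(w * Real.sin u) + x * Real.cos u) y (w * Real.cos u + x * Real.sin u))) u := by
    intro u
    have e1 : HasDerivAt (fun u : ℝ => ((-(w * Real.sin u) + x * Real.cos u : ℝ) : ℂ))
        ((-(w * Real.cos u) + x * (-Real.sin u) : ℝ) : ℂ) u :=
      ((((Real.hasDerivAt_sin u).const_mul w).neg).add ((Real.hasDerivAt_cos u).const_mul x)).ofReal_comp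
    have e2 : HasDerivAt (fun u : ℝ => ((w * Real.cos u + x * Real.sin u : ℝ) : ℂ))
        ((w * (-Real.sin u) + x * Real.cos u : ℝ) : ℂ) u :=
      (((Real.hasDerivAt_cos u).const_mul w).add ((Real.hasDerivAt_sin u).const_mul x)).ofReal_comp
    have e3 := ((((e1.smul_const (f 0)).add_const ((y : ℂ) • f 1)).add (e2.smul_const (f 2))).const_smul s).add_const (t • f 3)
    unfold vec
    refine e3.congr_deriv ?_
    simp only [map_add, map_smul, h0, h1, h2, h3, smul_zero, add_zero, smul_neg, smul_add, smul_smul]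
    have g1 : Complex.I * (s * ((-(w * Real.sin u) + x * Real.cos u : ℝ) : ℂ) * Complex.I) =
        -(s * ((w * (-Real.sin u) + x * Real.cos u : ℝ) : ℂ)) := by
      push_cast
      linear_combination (s * (-(w * Complex.sin u) + x * Complex.cos u)) * Complex.I_mul_I
    have g2 : Complex.I * (s * ((w * Real.cos u + x * Real.sin u : ℝ) : ℂ) * Complex.I) =
        s * ((-(w * Real.cos u) + x * (-Real.sin u) : ℝ) : ℂ) := by
      push_cast
      linear_combination (s * (w * Complex.cos u + x * Complex.sin u)) * Complex.I_mul_I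
    rw [g1, g2, neg_smul, neg_neg, add_comm]
  have := exp_unique J2 hz a
  rw [Real.cos_zero, Real.sin_zero, mul_one, mul_zero, mul_zero, mul_one, add_zero, neg_zero, zero_add] at this
  exact this.symm

private theorem sa_smul {J : Op 3} (hJ : IsSelfAdjoint J) (a : ℝ) : IsSelfAdjoint (a • J) := by
  have h1 : IsSelfAdjoint ((a : ℂ)) := Complex.conj_ofReal a
  have h2 : a • J = (a : ℂ) • J := (Complex.coe_smul a J).symm
  rw [h2]
  exact h1.smul hJ

private theorem polar (x y : ℝ) : ∃ r a : ℝ, r ^ 2 = x ^ 2 + y ^ 2 ∧ 0 ≤ r ∧ x = r * Real.cos a ∧ y = r * Real.sin a := by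
  refine ⟨‖(⟨x, y⟩ : ℂ)‖, Complex.arg ⟨x, y⟩, ?_, norm_nonneg _, ?_, ?_⟩
  · rw [Complex.sq_norm, Complex.normSq_apply]
    ring
  · exact (Complex.norm_mul_cos_arg ⟨x, y⟩).symm
  · exact (Complex.norm_mul_sin_arg ⟨x, y⟩).symm

/-- Transitivity. Proof: rotate (x, y, w) to (1, 0, 0) by exp(iaJ3) (y = 0) and exp(icJ2) (w = 0), the same
for (x', y', w'), and go back with minus signs. -/
theorem cart_trans {J1 J2 J3 : Op 3} {f : OrthonormalBasis (Fin 4) ℂ (E 3)}
    (su : Su2 J1 J2 J3) (h : Cart f J1 J2 J3) {S : Set (Op 3)}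
    (hi : ∀ t : ℝ, ∀ P ∈ S, cj (t • J2) P ∈ S ∧ cj (t • J3) P ∈ S) (s t : ℂ)
    {x y w x' y' w' : ℝ} (h1 : x ^ 2 + y ^ 2 + w ^ 2 = 1) (h2 : x' ^ 2 + y' ^ 2 + w' ^ 2 = 1)
    (hP : pt (vec f s t x y w) ∈ S) : pt (vec f s t x' y' w') ∈ S := by
  obtain ⟨-, s2, s3, -⟩ := su
  have m3 : ∀ (a x y w : ℝ), pt (vec f s t x y w) ∈ S →
      pt (vec f s t (x * Real.cos a + y * Real.sin a) (-(x * Real.sin a) + y * Real.cos a) w) ∈ S := by
    intro a x y w hm
    have := (hi a _ hm).2
    rwa [cj_pt (sa_smul s3 a), exp_cart3 h] at this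
  have m2 : ∀ (a x y w : ℝ), pt (vec f s t x y w) ∈ S →
      pt (vec f s t (-(w * Real.sin a) + x * Real.cos a) y (w * Real.cos a + x * Real.sin a)) ∈ S := by
    intro a x y w hm
    have := (hi a _ hm).1
    rwa [cj_pt (sa_smul s2 a), exp_cart2 h] at this
  -- to the point (1, 0, 0)
  have down : pt (vec f s t 1 0 0) ∈ S := by
    obtain ⟨r, a, hr, hr0, hx, hy⟩ := polar x y
    have k1 := m3 a x y w hP
    have e1 : x * Real.cos a + y * Real.sin a = r := by
      rw [hx, hy]
      linear_combination r * Real.sin_sq_add_cos_sq a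
    have e2 : -(x * Real.sin a) + y * Real.cos a = 0 := by
      rw [hx, hy]; ring
    rw [e1, e2] at k1
    obtain ⟨q, c, hq, hq0, hc, hs⟩ := polar r (-w)
    have hq1 : q = 1 := by
      have : q ^ 2 = 1 := by rw [hq, hr]; linear_combination h1
      nlinarith
    rw [hq1, one_mul] at hc hs
    have k2 := m2 c r 0 w k1
    have hs' : w = -Real.sin c := by linarith
    have e3 : -(w * Real.sin c) + r * Real.cos c = 1 := by
      rw [hs', hc]
      linear_combination Real.sin_sq_add_cos_sq c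
    have e4 : w * Real.cos c + r * Real.sin c = 0 := by
      rw [hs', hc]; ring
    rw [e3, e4] at k2
    exact k2
  obtain ⟨r, a, hr, hr0, hx, hy⟩ := polar x' y'
  obtain ⟨q, c, hq, hq0, hc, hs⟩ := polar r (-w')
  have hq1 : q = 1 := by
    have : q ^ 2 = 1 := by rw [hq, hr]; linear_combination h2
    nlinarith
  rw [hq1, one_mul] at hc hs
  have k1 := m2 (-c) 1 0 0 down
  rw [Real.sin_neg, Real.cos_neg] at k1
  have e1 : -((0 : ℝ) * -Real.sin c) + 1 * Real.cos c = r := by rw [hc]; ring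
  have e2 : (0 : ℝ) * Real.cos c + 1 * -Real.sin c = w' := by linear_combination hs
  rw [e1, e2] at k1
  have k2 := m3 (-a) r 0 w' k1
  rw [Real.sin_neg, Real.cos_neg] at k2
  have e3 : r * Real.cos a + 0 * -Real.sin a = x' := by rw [hx]; ring
  have e4 : -(r * -Real.sin a) + 0 * Real.cos a = y' := by rw [hy]; ring
  rw [e3, e4] at k2
  exact k2

end Pool.Agent.H66.SyM
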