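import Pool.Agent.H66.SyM.Defs

/-! Real projective spaces of orthonormal bases. -/

set_option autoImplicit false

open scoped ContDiff Topology

namespace Pool.Agent.H66.SyM

open Pool.Agent.H66.SyL
open Pool.Agent.H11.ST (RP3)

variable (b : OrthonormalBasis (Fin 4) ℂ (E 3))

/-- The real projective space of an orthonormal basis f: the lines of the real combinations. -/
def rps (f : OrthonormalBasis (Fin 4) ℂ (E 3)) : Set (Op 3) :=
  {P | ∃ x : Fin 4 → ℝ, ∑ k, x k ^ 2 = 1 ∧ P = pt (∑ k, (x k : ℂ) • f k)}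

/-- Conjugation by a unitary map. -/
private noncomputable def cjh (U : E 3 ≃ₗᵢ[ℂ] E 3) : Op 3 ≃ₜ Op 3 where
  toFun P := (U.toContinuousLinearEquiv : E 3 →L[ℂ] E 3) ∘L (P ∘L (U.symm.toContinuousLinearEquiv : E 3 →L[ℂ] E 3))
  invFun P := (U.symm.toContinuousLinearEquiv : E 3 →L[ℂ] E 3) ∘L (P ∘L (U.toContinuousLinearEquiv : E 3 →L[ℂ] E 3))
  left_inv P := by
    ext1 v
    simp
  right_inv P := by
    ext1 v
    simp
  continuous_toFun := continuous_const.clm_comp (continuous_id.clm_comp continuous_const)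
  continuous_invFun := continuous_const.clm_comp (continuous_id.clm_comp continuous_const)

private theorem cjh_pt (U : E 3 ≃ₗᵢ[ℂ] E 3) (z : E 3) : cjh U (pt z) = pt (U z) := by
  ext1 w
  have h1 : cjh U (pt z) w = U (inner ℂ z (U.symm w) • z) := rfl
  have h2 : pt (U z) w = inner ℂ (U z) w • U z := rfl
  have h3 : inner ℂ (U z) w = inner ℂ z (U.symm w) := by
    conv_lhs => rw [← U.apply_symm_apply w]
    exact U.inner_map_map z (U.symm w)
  rw [h1, h2, h3, map_smul]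

/-- Conjugation by the unitary map which sends f to the standard basis (f.repr). -/
theorem rps_homeo (f : OrthonormalBasis (Fin 4) ℂ (E 3)) : Nonempty (rps f ≃ₜ RP3) := by
  obtain ⟨U, hU⟩ : ∃ U : E 3 ≃ₗᵢ[ℂ] E 3, U = f.repr := ⟨_, rfl⟩
  have hco : ∀ (x : Fin 4 → ℝ) (i : Fin 4), (U (∑ k, (x k : ℂ) • f k)) i = (x i : ℂ) := by
    intro x i
    rw [hU, map_sum]
    have : ∀ k, f.repr ((x k : ℂ) • f k) = (x k : ℂ) • EuclideanSpace.single k (1 : ℂ) := by
      intro k
      rw [map_smul, f.repr_self]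
    rw [Finset.sum_congr rfl (fun k _ => this k)]
    fin_cases i <;> simp [Fin.sum_univ_four]
  have hnorm : ∀ z : E 3, (∀ i, (z i).im = 0) → ‖z‖ ^ 2 = ∑ i : Fin 4, (z i).re ^ 2 := by
    intro z hz
    rw [EuclideanSpace.norm_sq_eq]
    refine Finset.sum_congr rfl fun i _ => ?_
    have : z i = ((z i).re : ℂ) := Complex.ext (by simp) (by simp [hz i])
    rw [this, Complex.norm_real, Real.norm_eq_abs, sq_abs]
    simp
  refine ⟨(cjh U).subtype (fun P => ?_)⟩
  constructor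
  · rintro ⟨x, hx, rfl⟩
    refine ⟨U (∑ k, (x k : ℂ) • f k), ?_, ?_, (cjh_pt U _).symm⟩
    · have h1 := hnorm (U (∑ k, (x k : ℂ) • f k)) (fun i => by rw [hco]; simp)
      have h2 : ∑ i : Fin 4, ((U (∑ k, (x k : ℂ) • f k)) i).re ^ 2 = 1 := by
        rw [← hx]
        refine Finset.sum_congr rfl fun i _ => ?_
        rw [hco]
        simp
      rw [h2] at h1
      have h3 : 0 ≤ ‖U (∑ k, (x k : ℂ) • f k)‖ := norm_nonneg _
      nlinarith
    · intro i
      rw [hco]
      simp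
  · rintro ⟨z, hz1, hz2, hz3⟩
    refine ⟨fun i => (z i).re, ?_, ?_⟩
    · have h1 := hnorm z hz2
      rw [hz1] at h1
      rw [← h1]
      norm_num
    · have h1 : U (∑ k, (((z k).re : ℝ) : ℂ) • f k) = z := by
        ext i
        rw [hco (fun k => (z k).re) i]
        exact Complex.ext (by simp) (by simp [hz2 i])
      have h2 := cjh_pt U (∑ k, (((z k).re : ℝ) : ℂ) • f k)
      rw [h1, hz3] at h2
      exact (cjh U).injective h2.symm

/-- The orthonormal basis (b0 + b3)/sqrt 2, i(b0 - b3)/sqrt 2, (b1 - b2)/sqrt 2, i(b1 + b2)/sqrt 2. Its real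
combinations are the vectors (a, c, -conj c, conj a)/sqrt 2 in the coordinates of b. -/
theorem exists_f : ∃ f : OrthonormalBasis (Fin 4) ℂ (E 3),
    f 0 = ((1 / √2 : ℝ) : ℂ) • (b 0 + b 3) ∧
    f 1 = (Complex.I * ((1 / √2 : ℝ) : ℂ)) • (b 0 - b 3) ∧
    f 2 = ((1 / √2 : ℝ) : ℂ) • (b 1 - b 2) ∧
    f 3 = (Complex.I * ((1 / √2 : ℝ) : ℂ)) • (b 1 + b 2) := by
  obtain ⟨s, hs⟩ : ∃ s : ℂ, s = ((1 / √2 : ℝ) : ℂ) := ⟨_, rfl⟩
  have hs2 : s * s = 1 / 2 := by
    have : (1 / √2 : ℝ) * (1 / √2 : ℝ) = 1 / 2 := by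
      rw [div_mul_div_comm, Real.mul_self_sqrt (by norm_num)]
      norm_num
    rw [hs, ← Complex.ofReal_mul, this]
    norm_num
  have hsc : (starRingEnd ℂ) s = s := by rw [hs, Complex.conj_ofReal]
  rw [← hs]
  obtain ⟨M, hM⟩ : ∃ M : Fin 4 → Fin 4 → ℂ, M = ![![s, 0, 0, s], ![Complex.I * s, 0, 0, -(Complex.I * s)], ![0, s, -s, 0],
    ![0, Complex.I * s, Complex.I * s, 0]] := ⟨_, rfl⟩
  obtain ⟨v, hv⟩ : ∃ v : Fin 4 → E 3, v = fun i => ∑ j, M i j • b j := ⟨_, rfl⟩
  have hI := Complex.I_mul_I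
  have hon : Orthonormal ℂ v := by
    rw [orthonormal_iff_ite]
    intro i j
    rw [hv]
    simp only
    rw [b.orthonormal.inner_sum, Fin.sum_univ_four, hM]
    fin_cases i <;> fin_cases j <;> simp [hsc] <;>
      first
      | ring1
      | linear_combination (2 : ℂ) * hs2
      | linear_combination (2 : ℂ) * hs2 - (2 * s * s) * hI
  have hfr : Module.finrank ℂ (E 3) = Fintype.card (Fin 4) := by
    rw [finrank_euclideanSpace]
  have hon' : Orthonormal ℂ ((Set.univ : Set (Fin 4)).domRestrict v) :=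
    hon.comp (fun i : (Set.univ : Set (Fin 4)) => (i : Fin 4)) Subtype.val_injective
  obtain ⟨f, hf⟩ := hon'.exists_orthonormalBasis_extension_of_card_eq hfr
  refine ⟨f, ?_, ?_, ?_, ?_⟩
  · rw [hf 0 (Set.mem_univ _), hv]
    simp only
    rw [Fin.sum_univ_four, hM]
    simp
  · rw [hf 1 (Set.mem_univ _), hv]
    simp only
    rw [Fin.sum_univ_four, hM]
    simp [sub_eq_add_neg]
  · rw [hf 2 (Set.mem_univ _), hv]
    simp only
    rw [Fin.sum_univ_four, hM]
    simp [sub_eq_add_neg]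
  · rw [hf 3 (Set.mem_univ _), hv]
    simp only
    rw [Fin.sum_univ_four, hM]
    simp

end Pool.Agent.H66.SyM
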