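import Pool.Agent.H66.SyM.ChB1

/-! Spin 1/2 + 1/2: the zero level is one orbit. -/

set_option autoImplicit false

open scoped ContDiff Topology

namespace Pool.Agent.H66.SyM

open Pool.Agent.H66.SyL

variable (b : OrthonormalBasis (Fin 4) ℂ (E 3))

/-- The spin 1/2 + 1/2 ladder. -/
def L22 (J1 J2 J3 : Op 3) : Prop :=
  Ladder b J1 J2 J3 ![1 / 2, -(1 / 2), 1 / 2, -(1 / 2)] ![1, 0, 1, 0]

/-- the vector with given coordinates -/
private noncomputable def vv (α β γ δ : ℂ) : E 3 := α • b 0 + β • b 1 + γ • b 2 + δ • b 3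

private theorem vv_repr (z : E 3) :
    z = vv b (inner ℂ (b 0) z) (inner ℂ (b 1) z) (inner ℂ (b 2) z) (inner ℂ (b 3) z) := by
  have h := b.sum_repr z
  rw [Fin.sum_univ_four] at h
  simp only [b.repr_apply_apply] at h
  exact h.symm

private theorem inner_bb (i j : Fin 4) : inner ℂ (b i) (b j) = if i = j then (1 : ℂ) else 0 :=
  orthonormal_iff_ite.1 b.orthonormal i j

private theorem inner_vv (α β γ δ : ℂ) : inner ℂ (b 0) (vv b α β γ δ) = α ∧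
    inner ℂ (b 1) (vv b α β γ δ) = β ∧ inner ℂ (b 2) (vv b α β γ δ) = γ ∧
    inner ℂ (b 3) (vv b α β γ δ) = δ := by
  unfold vv
  refine ⟨?_, ?_, ?_, ?_⟩ <;>
  · simp only [inner_add_right, inner_smul_right, inner_bb]
    simp

private theorem ham_b (w : Fin 4 → ℝ) (k : Fin 4) :
    ham (n := 3) b w (b k) = ((w k : ℝ) : ℂ) • b k := by
  have h : ∀ j : Fin 4, (((w j : ℝ) : ℂ) • pt (b j)) (b k) =
      if j = k then ((w k : ℝ) : ℂ) • b k else 0 := by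
    intro j
    have h1 : (pt (b j)) (b k) = (inner ℂ (b j) (b k) : ℂ) • b j := by
      simp [pt]
    rw [smul_apply, h1]
    by_cases hjk : j = k
    · subst hjk
      simp
    · rw [if_neg hjk, b.inner_eq_zero hjk]
      simp
  unfold ham
  rw [sum_apply, Finset.sum_congr rfl fun j _ => h j]
  simp

private theorem exp3 {J1 J2 J3 : Op 3} (h : L22 b J1 J2 J3) (t : ℝ) (α β γ δ : ℂ) :
    NormedSpace.exp (Complex.I • (t • J3)) (vv b α β γ δ) =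
      vv b (Complex.exp ((t / 2 : ℝ) * Complex.I) * α) (Complex.exp ((-(t / 2) : ℝ) * Complex.I) * β)
        (Complex.exp ((t / 2 : ℝ) * Complex.I) * γ) (Complex.exp ((-(t / 2) : ℝ) * Complex.I) * δ) := by
  have hk : ∀ k : Fin 4, J3 (b k) =
      (((![1 / 2, -(1 / 2), 1 / 2, -(1 / 2)] : Fin 4 → ℝ) k : ℝ) : ℂ) • b k := by
    intro k
    rw [h.1]
    exact ham_b b _ k
  have e0 := exp_eigen (hk 0) t
  have e1 := exp_eigen (hk 1) t
  have e2 := exp_eigen (hk 2) t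
  have e3 := exp_eigen (hk 3) t
  have w0 : (![1 / 2, -(1 / 2), 1 / 2, -(1 / 2)] : Fin 4 → ℝ) 0 * t = t / 2 := by
    show (1 / 2 : ℝ) * t = t / 2
    ring
  have w1 : (![1 / 2, -(1 / 2), 1 / 2, -(1 / 2)] : Fin 4 → ℝ) 1 * t = -(t / 2) := by
    show (-(1 / 2) : ℝ) * t = -(t / 2)
    ring
  have w2 : (![1 / 2, -(1 / 2), 1 / 2, -(1 / 2)] : Fin 4 → ℝ) 2 * t = t / 2 := by
    show (1 / 2 : ℝ) * t = t / 2
    ring
  have w3 : (![1 / 2, -(1 / 2), 1 / 2, -(1 / 2)] : Fin 4 → ℝ) 3 * t = -(t / 2) := by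
    show (-(1 / 2) : ℝ) * t = -(t / 2)
    ring
  rw [w0] at e0
  rw [w1] at e1
  rw [w2] at e2
  rw [w3] at e3
  unfold vv
  rw [map_add, map_add, map_add, map_smul, map_smul, map_smul, map_smul, e0, e1, e2, e3]
  simp only [smul_smul, mul_comm]

private theorem exp2 {J1 J2 J3 : Op 3} (su : Su2 J1 J2 J3) (h : L22 b J1 J2 J3) (t : ℝ)
    (α β γ δ : ℂ) :
    NormedSpace.exp (Complex.I • (t • J2)) (vv b α β γ δ) =
      vv b (α * (Real.cos (t / 2) : ℝ) + β * (Real.sin (t / 2) : ℝ))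
        (-(α * (Real.sin (t / 2) : ℝ)) + β * (Real.cos (t / 2) : ℝ))
        (γ * (Real.cos (t / 2) : ℝ) + δ * (Real.sin (t / 2) : ℝ))
        (-(γ * (Real.sin (t / 2) : ℝ)) + δ * (Real.cos (t / 2) : ℝ)) := by
  have hlo := h.2
  have hup := fun k : Fin 4 => up_ladder su h k
  have l0 : lo J1 J2 (b 0) = b 1 := by
    have : lo J1 J2 (b 0) = ((1 : ℝ) : ℂ) • b 1 := hlo 0
    rw [this]
    simp
  have l1 : lo J1 J2 (b 1) = 0 := by
    have : lo J1 J2 (b 1) = ((0 : ℝ) : ℂ) • b 2 := hlo 1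
    rw [this]
    simp
  have l2 : lo J1 J2 (b 2) = b 3 := by
    have : lo J1 J2 (b 2) = ((1 : ℝ) : ℂ) • b 3 := hlo 2
    rw [this]
    simp
  have l3 : lo J1 J2 (b 3) = 0 := by
    have : lo J1 J2 (b 3) = ((0 : ℝ) : ℂ) • b (3 + 1) := hlo 3
    rw [this]
    simp
  have u1 : up J1 J2 (b 1) = b 0 := by
    have : up J1 J2 (b 1) = ((1 : ℝ) : ℂ) • b 0 := hup 0
    rw [this]
    simp
  have u2 : up J1 J2 (b 2) = 0 := by
    have : up J1 J2 (b 2) = ((0 : ℝ) : ℂ) • b 1 := hup 1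
    rw [this]
    simp
  have u3 : up J1 J2 (b 3) = b 2 := by
    have : up J1 J2 (b 3) = ((1 : ℝ) : ℂ) • b 2 := hup 2
    rw [this]
    simp
  have u0 : up J1 J2 (b 0) = 0 := by
    have h0 : up J1 J2 (b (3 + 1)) = ((0 : ℝ) : ℂ) • b 3 := hup 3
    have h1 : ((3 : Fin 4) + 1) = 0 := rfl
    rw [h1] at h0
    rw [h0]
    simp
  have hJ : ∀ z : E 3, Complex.I • J2 z = (1 / 2 : ℂ) • (up J1 J2 z - lo J1 J2 z) := by
    intro z
    show Complex.I • J2 z = (1 / 2 : ℂ) • ((J1 z + Complex.I • J2 z) - (J1 z - Complex.I • J2 z))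
    module
  have hcv : ∀ α β γ δ : ℂ, Complex.I • J2 (vv b α β γ δ) =
      (β / 2) • b 0 + (-(α / 2)) • b 1 + (δ / 2) • b 2 + (-(γ / 2)) • b 3 := by
    intro α β γ δ
    rw [hJ]
    unfold vv
    simp only [map_add, map_smul, l0, l1, l2, l3, u0, u1, u2, u3, smul_zero]
    module
  let z : ℝ → E 3 := fun s => vv b (α * (Real.cos (s / 2) : ℝ) + β * (Real.sin (s / 2) : ℝ))
    (-(α * (Real.sin (s / 2) : ℝ)) + β * (Real.cos (s / 2) : ℝ))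
    (γ * (Real.cos (s / 2) : ℝ) + δ * (Real.sin (s / 2) : ℝ))
    (-(γ * (Real.sin (s / 2) : ℝ)) + δ * (Real.cos (s / 2) : ℝ))
  have hz0 : z 0 = vv b α β γ δ := by
    simp [z]
  have hz : ∀ s, HasDerivAt z (Complex.I • J2 (z s)) s := by
    intro s
    have hc : HasDerivAt (fun s : ℝ => ((Real.cos (s / 2) : ℝ) : ℂ))
        ((-Real.sin (s / 2) * (1 / 2) : ℝ) : ℂ) s := by
      have h1 : HasDerivAt (fun s : ℝ => s / 2) (1 / 2) s := by
        simpa using (hasDerivAt_id s).div_const 2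
      exact (h1.cos).ofReal_comp
    have hs : HasDerivAt (fun s : ℝ => ((Real.sin (s / 2) : ℝ) : ℂ))
        ((Real.cos (s / 2) * (1 / 2) : ℝ) : ℂ) s := by
      have h1 : HasDerivAt (fun s : ℝ => s / 2) (1 / 2) s := by
        simpa using (hasDerivAt_id s).div_const 2
      exact (h1.sin).ofReal_comp
    have hA : ∀ a c : ℂ, HasDerivAt (fun s : ℝ => a * (Real.cos (s / 2) : ℝ) + c * (Real.sin (s / 2) : ℝ))
        ((-(a * (Real.sin (s / 2) : ℝ)) + c * (Real.cos (s / 2) : ℝ)) / 2) s := by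
      intro a c
      have h2 := (hc.const_mul a).add (hs.const_mul c)
      have h3 : a * ((-Real.sin (s / 2) * (1 / 2) : ℝ) : ℂ) +
          c * ((Real.cos (s / 2) * (1 / 2) : ℝ) : ℂ) =
          (-(a * (Real.sin (s / 2) : ℝ)) + c * (Real.cos (s / 2) : ℝ)) / 2 := by
        push_cast
        ring
      rw [h3] at h2
      exact h2
    have hC : ∀ a c : ℂ, HasDerivAt (fun s : ℝ => -(a * (Real.sin (s / 2) : ℝ)) + c * (Real.cos (s / 2) : ℝ))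
        (-((a * (Real.cos (s / 2) : ℝ) + c * (Real.sin (s / 2) : ℝ)) / 2)) s := by
      intro a c
      have h2 := ((hs.const_mul a).neg).add (hc.const_mul c)
      have h3 : -(a * ((Real.cos (s / 2) * (1 / 2) : ℝ) : ℂ)) +
          c * ((-Real.sin (s / 2) * (1 / 2) : ℝ) : ℂ) =
          -((a * (Real.cos (s / 2) : ℝ) + c * (Real.sin (s / 2) : ℝ)) / 2) := by
        push_cast
        ring
      rw [h3] at h2
      exact h2
    rw [hcv]
    exact ((((hA α β).smul_const (b 0)).add ((hC α β).smul_const (b 1))).add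
      ((hA γ δ).smul_const (b 2))).add ((hC γ δ).smul_const (b 3))
  have hfin := exp_unique J2 hz t
  rw [hz0] at hfin
  exact hfin.symm

private theorem coord {J1 J2 J3 : Op 3} (h : L22 b J1 J2 J3) {z : E 3}
    (hz : Zl J1 J2 J3 z) :
    ‖inner ℂ (b 0) z‖ ^ 2 + ‖inner ℂ (b 2) z‖ ^ 2 = 1 / 2 ∧
    ‖inner ℂ (b 1) z‖ ^ 2 + ‖inner ℂ (b 3) z‖ ^ 2 = 1 / 2 ∧
    (starRingEnd ℂ) (inner ℂ (b 1) z) * inner ℂ (b 0) z +
      (starRingEnd ℂ) (inner ℂ (b 3) z) * inner ℂ (b 2) z = 0 := by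
  obtain ⟨hn, h1, h2, h3⟩ := hz
  obtain ⟨α, hα⟩ : ∃ x, x = inner ℂ (b 0) z := ⟨_, rfl⟩
  obtain ⟨β, hβ⟩ : ∃ x, x = inner ℂ (b 1) z := ⟨_, rfl⟩
  obtain ⟨γ, hγ⟩ : ∃ x, x = inner ℂ (b 2) z := ⟨_, rfl⟩
  obtain ⟨δ, hδ⟩ : ∃ x, x = inner ℂ (b 3) z := ⟨_, rfl⟩
  have hzr := vv_repr b z
  rw [← hα, ← hβ, ← hγ, ← hδ] at hzr ⊢
  have ci : ∀ k : Fin 4, inner ℂ z (b k) = (starRingEnd ℂ) (inner ℂ (b k) z) := by
    intro k
    rw [inner_conj_symm]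
  have hsum := b.sum_sq_norm_inner_right z
  rw [Fin.sum_univ_four, ← hα, ← hβ, ← hγ, ← hδ, hn] at hsum
  have hk : ∀ k : Fin 4, J3 (b k) =
      (((![1 / 2, -(1 / 2), 1 / 2, -(1 / 2)] : Fin 4 → ℝ) k : ℝ) : ℂ) • b k := by
    intro k
    rw [h.1]
    exact ham_b b _ k
  have k0 : J3 (b 0) = (((1 / 2 : ℝ)) : ℂ) • b 0 := hk 0
  have k1 : J3 (b 1) = (((-(1 / 2) : ℝ)) : ℂ) • b 1 := hk 1
  have k2 : J3 (b 2) = (((1 / 2 : ℝ)) : ℂ) • b 2 := hk 2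
  have k3 : J3 (b 3) = (((-(1 / 2) : ℝ)) : ℂ) • b 3 := hk 3
  have l0 : lo J1 J2 (b 0) = b 1 := by
    have : lo J1 J2 (b 0) = ((1 : ℝ) : ℂ) • b 1 := h.2 0
    rw [this]
    simp
  have l1 : lo J1 J2 (b 1) = 0 := by
    have : lo J1 J2 (b 1) = ((0 : ℝ) : ℂ) • b 2 := h.2 1
    rw [this]
    simp
  have l2 : lo J1 J2 (b 2) = b 3 := by
    have : lo J1 J2 (b 2) = ((1 : ℝ) : ℂ) • b 3 := h.2 2
    rw [this]
    simp
  have l3 : lo J1 J2 (b 3) = 0 := by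
    have : lo J1 J2 (b 3) = ((0 : ℝ) : ℂ) • b (3 + 1) := h.2 3
    rw [this]
    simp
  have e1 : inner ℂ z (lo J1 J2 z) = 0 := by
    have : lo J1 J2 z = J1 z - Complex.I • J2 z := rfl
    rw [this, inner_sub_right, inner_smul_right, h1, h2]
    simp
  have e2 : inner ℂ z (lo J1 J2 z) = (starRingEnd ℂ) β * α + (starRingEnd ℂ) δ * γ := by
    have : lo J1 J2 z = α • b 1 + γ • b 3 := by
      conv_lhs => rw [hzr]
      unfold vv
      rw [map_add, map_add, map_add, map_smul, map_smul, map_smul, map_smul, l0, l1, l2, l3]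
      simp
    rw [this, inner_add_right, inner_smul_right, inner_smul_right, ci, ci, ← hβ, ← hδ]
    ring
  have e3 : inner ℂ z (J3 z) = ((1 / 2 * (‖α‖ ^ 2 + ‖γ‖ ^ 2) - 1 / 2 * (‖β‖ ^ 2 + ‖δ‖ ^ 2) : ℝ) : ℂ) := by
    have : J3 z = (α * ((1 / 2 : ℝ) : ℂ)) • b 0 + (β * ((-(1 / 2) : ℝ) : ℂ)) • b 1 +
        (γ * ((1 / 2 : ℝ) : ℂ)) • b 2 + (δ * ((-(1 / 2) : ℝ) : ℂ)) • b 3 := by
      conv_lhs => rw [hzr]
      unfold vv
      rw [map_add, map_add, map_add, map_smul, map_smul, map_smul, map_smul, k0, k1, k2, k3]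
      simp only [smul_smul]
    rw [this]
    simp only [inner_add_right, inner_smul_right, ci, ← hα, ← hβ, ← hγ, ← hδ]
    have n1 : ∀ x : ℂ, ((‖x‖ ^ 2 : ℝ) : ℂ) = x * (starRingEnd ℂ) x := by
      intro x
      rw [Complex.mul_conj, Complex.normSq_eq_norm_sq]
    rw [Complex.ofReal_sub, Complex.ofReal_mul, Complex.ofReal_mul, Complex.ofReal_add,
      Complex.ofReal_add, n1, n1, n1, n1]
    push_cast
    ring
  rw [h3] at e3
  have e4 : (1 / 2 * (‖α‖ ^ 2 + ‖γ‖ ^ 2) - 1 / 2 * (‖β‖ ^ 2 + ‖δ‖ ^ 2) : ℝ) = 0 := by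
    exact_mod_cast e3.symm
  refine ⟨by linarith, by linarith, ?_⟩
  rw [← e2, e1]

/-- Proof. Let M be the matrix with rows (z0, z2) and (z1, z3); sqrt 2 M is unitary by
(z, J3 z) = 0, (z, lo z) = 0. (a) exp(itJ3) multiplies z0, z2 by exp(it/2) and z1, z3 by exp(-it/2);
(b) exp(isJ2) acts on (z0, z1) and on (z2, z3) by the rotation
(x, y) to (x cos(s/2) + y sin(s/2), -x sin(s/2) + y cos(s/2)). First make z0 and z1 have the same argument by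
(a), then z1 = 0 by (b), then also z2 = 0 (orthogonality of the rows), |z0| = |z3| = 1/sqrt 2, and
z0 = z3 up to a common phase by (a). -/
theorem to_base22 {J1 J2 J3 : Op 3} (su : Su2 J1 J2 J3) (h : L22 b J1 J2 J3) {z : E 3}
    (hz : Zl J1 J2 J3 z) :
    ∃ r s t : ℝ, cj (r • J3) (cj (s • J2) (cj (t • J3) (pt z))) =
      pt (((1 / √2 : ℝ) : ℂ) • (b 0 + b 3)) := by
  have sm : ∀ (c : ℝ) {H : Op 3}, IsSelfAdjoint H → IsSelfAdjoint (c • H) := by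
    intro c H hH
    have e : c • H = (c : ℂ) • H := by
      ext1 z
      simp
    rw [e]
    exact IsSelfAdjoint.smul (Complex.conj_ofReal c) hH
  obtain ⟨α, hα⟩ : ∃ x, x = inner ℂ (b 0) z := ⟨_, rfl⟩
  obtain ⟨β, hβ⟩ : ∃ x, x = inner ℂ (b 1) z := ⟨_, rfl⟩
  obtain ⟨γ, hγ⟩ : ∃ x, x = inner ℂ (b 2) z := ⟨_, rfl⟩
  obtain ⟨δ, hδ⟩ : ∃ x, x = inner ℂ (b 3) z := ⟨_, rfl⟩
  have hzr := vv_repr b z
  rw [← hα, ← hβ, ← hγ, ← hδ] at hzr
  obtain ⟨t, ht⟩ : ∃ t : ℝ, t = Complex.arg β - Complex.arg α := ⟨_, rfl⟩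
  obtain ⟨φ, hφ⟩ : ∃ φ : ℂ, φ = Complex.exp ((((Complex.arg β + Complex.arg α) / 2 : ℝ) : ℂ) * Complex.I) :=
    ⟨_, rfl⟩
  obtain ⟨s, hs⟩ : ∃ s : ℝ, s = 2 * Complex.arg ((‖α‖ : ℂ) + (‖β‖ : ℂ) * Complex.I) := ⟨_, rfl⟩
  have pα : Complex.exp ((t / 2 : ℝ) * Complex.I) * α = (‖α‖ : ℂ) * φ := by
    conv_lhs => rw [← Complex.norm_mul_exp_arg_mul_I α]
    rw [mul_left_comm, ← Complex.exp_add, hφ, ht]
    congr 2
    push_cast
    ring
  have pβ : Complex.exp ((-(t / 2) : ℝ) * Complex.I) * β = (‖β‖ : ℂ) * φ := by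
    conv_lhs => rw [← Complex.norm_mul_exp_arg_mul_I β]
    rw [mul_left_comm, ← Complex.exp_add, hφ, ht]
    congr 2
    push_cast
    ring
  obtain ⟨z1, hz1⟩ : ∃ x, x = NormedSpace.exp (Complex.I • (t • J3)) z := ⟨_, rfl⟩
  obtain ⟨z2, hz2⟩ : ∃ x, x = NormedSpace.exp (Complex.I • (s • J2)) z1 := ⟨_, rfl⟩
  have Z1 : Zl J1 J2 J3 z1 := by
    rw [hz1]
    exact (zl_exp su hz t).2
  have Z2 : Zl J1 J2 J3 z2 := by
    rw [hz2]
    exact (zl_exp su Z1 s).1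
  have c1 : inner ℂ (b 1) z2 = 0 := by
    rw [hz2, hz1, hzr, exp3 b h, exp2 b su h, (inner_vv b _ _ _ _).2.1, pα, pβ]
    have hs2 : s / 2 = Complex.arg ((‖α‖ : ℂ) + (‖β‖ : ℂ) * Complex.I) := by
      rw [hs]
      ring
    rw [hs2]
    obtain ⟨w, hw⟩ : ∃ w : ℂ, w = (‖α‖ : ℂ) + (‖β‖ : ℂ) * Complex.I := ⟨_, rfl⟩
    rw [← hw]
    have hre : ‖w‖ * Real.cos (Complex.arg w) = ‖α‖ := by
      rw [Complex.norm_mul_cos_arg, hw]
      simp
    have him : ‖w‖ * Real.sin (Complex.arg w) = ‖β‖ := by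
      rw [Complex.norm_mul_sin_arg, hw]
      simp
    rw [← hre, ← him]
    push_cast
    ring
  obtain ⟨q1, q2, q3⟩ := coord b h Z2
  rw [c1] at q2 q3
  obtain ⟨A, hA⟩ : ∃ x, x = inner ℂ (b 0) z2 := ⟨_, rfl⟩
  obtain ⟨G, hG⟩ : ∃ x, x = inner ℂ (b 2) z2 := ⟨_, rfl⟩
  obtain ⟨D, hD⟩ : ∃ x, x = inner ℂ (b 3) z2 := ⟨_, rfl⟩
  have hz2r := vv_repr b z2
  rw [c1, ← hA, ← hG, ← hD] at hz2r
  rw [← hA, ← hG] at q1
  rw [← hD] at q2
  rw [← hG, ← hD] at q3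
  have nD : ‖D‖ ^ 2 = 1 / 2 := by
    simpa using q2
  have D0 : D ≠ 0 := by
    intro h0
    rw [h0] at nD
    norm_num at nD
  have G0 : G = 0 := by
    have h5 : (starRingEnd ℂ) D * G = 0 := by simpa using q3
    rcases mul_eq_zero.1 h5 with h6 | h6
    · exact absurd ((map_eq_zero _).1 h6) D0
    · exact h6
  have nA : ‖A‖ ^ 2 = 1 / 2 := by
    rw [G0] at q1
    simpa using q1
  have rt : ∀ x : ℂ, ‖x‖ ^ 2 = 1 / 2 → ‖x‖ = 1 / √2 := by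
    intro x hx
    have h7 : ‖x‖ ^ 2 = (1 / √2) ^ 2 := by
      rw [hx, div_pow, Real.sq_sqrt (by norm_num)]
      norm_num
    exact (pow_left_inj₀ (norm_nonneg _) (by positivity) two_ne_zero).1 h7
  obtain ⟨r, hr⟩ : ∃ r : ℝ, r = Complex.arg D - Complex.arg A := ⟨_, rfl⟩
  obtain ⟨ψ, hψ⟩ : ∃ ψ : ℂ, ψ = Complex.exp ((((Complex.arg D + Complex.arg A) / 2 : ℝ) : ℂ) * Complex.I) :=
    ⟨_, rfl⟩
  have pA : Complex.exp ((r / 2 : ℝ) * Complex.I) * A = ((1 / √2 : ℝ) : ℂ) * ψ := by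
    conv_lhs => rw [← Complex.norm_mul_exp_arg_mul_I A]
    rw [mul_left_comm, ← Complex.exp_add, hψ, hr, rt A nA]
    congr 2
    push_cast
    ring
  have pD : Complex.exp ((-(r / 2) : ℝ) * Complex.I) * D = ((1 / √2 : ℝ) : ℂ) * ψ := by
    conv_lhs => rw [← Complex.norm_mul_exp_arg_mul_I D]
    rw [mul_left_comm, ← Complex.exp_add, hψ, hr, rt D nD]
    congr 2
    push_cast
    ring
  have nψ : ‖ψ‖ = 1 := by
    rw [hψ]
    exact Complex.norm_exp_ofReal_mul_I _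
  refine ⟨r, s, t, ?_⟩
  rw [cj_pt (sm t su.2.2.1), ← hz1, cj_pt (sm s su.2.1), ← hz2, cj_pt (sm r su.2.2.1)]
  have e : NormedSpace.exp (Complex.I • (r • J3)) z2 = ψ • (((1 / √2 : ℝ) : ℂ) • (b 0 + b 3)) := by
    rw [hz2r, exp3 b h, pA, pD, G0]
    unfold vv
    rw [mul_zero, mul_zero]
    module
  rw [e, pt_smul nψ]

end Pool.Agent.H66.SyM
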