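import Pool.Agent.H66.SyM.R22A
import Pool.Agent.H66.SyM.R22B

/-! Spin 1/2 + 1/2: the real projective space is in the zero level. -/

set_option autoImplicit false

open scoped ContDiff Topology

namespace Pool.Agent.H66.SyM

open Pool.Agent.H66.SyL

variable (b : OrthonormalBasis (Fin 4) ℂ (E 3))

private theorem ham_basis (w : Fin 4 → ℝ) (k : Fin 4) :
    ham (n := 3) b w (b k) = ((w k : ℝ) : ℂ) • b k := by
  apply b.repr.injective
  ext i
  rw [b.repr_apply_apply, b.repr_apply_apply, coord_ham, inner_smul_right]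
  by_cases h : i = k
  · subst h; rfl
  · rw [b.orthonormal.2 h, mul_zero, mul_zero]

/-- real combinations -/
private noncomputable def Z (f : OrthonormalBasis (Fin 4) ℂ (E 3)) (x0 x1 x2 x3 : ℝ) : E 3 :=
  (x0 : ℂ) • f 0 + (x1 : ℂ) • f 1 + (x2 : ℂ) • f 2 + (x3 : ℂ) • f 3

private theorem sum_eq_Z (f : OrthonormalBasis (Fin 4) ℂ (E 3)) (x : Fin 4 → ℝ) :
    ∑ k, (x k : ℂ) • f k = Z f (x 0) (x 1) (x 2) (x 3) := by
  rw [Fin.sum_univ_four]; rfl

private theorem inner_Z (f : OrthonormalBasis (Fin 4) ℂ (E 3)) (x0 x1 x2 x3 y0 y1 y2 y3 : ℝ) :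
    inner ℂ (Z f x0 x1 x2 x3) (Z f y0 y1 y2 y3) =
      ((x0 * y0 + x1 * y1 + x2 * y2 + x3 * y3 : ℝ) : ℂ) := by
  have h := fun i j : Fin 4 => orthonormal_iff_ite.1 f.orthonormal i j
  unfold Z
  simp only [inner_add_left, inner_add_right, inner_smul_left, inner_smul_right, h,
    Complex.conj_ofReal]
  push_cast
  simp
  ring

private theorem norm_Z (f : OrthonormalBasis (Fin 4) ℂ (E 3)) {x0 x1 x2 x3 : ℝ}
    (h : x0 ^ 2 + x1 ^ 2 + x2 ^ 2 + x3 ^ 2 = 1) : ‖Z f x0 x1 x2 x3‖ = 1 := by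
  have h1 := inner_Z f x0 x1 x2 x3 x0 x1 x2 x3
  rw [inner_self_eq_norm_sq_to_K] at h1
  have h2 : x0 * x0 + x1 * x1 + x2 * x2 + x3 * x3 = 1 := by linarith
  rw [h2] at h1
  have h3 : ‖Z f x0 x1 x2 x3‖ ^ 2 = 1 := by
    have h5 : (((‖Z f x0 x1 x2 x3‖ ^ 2 : ℝ)) : ℂ) = ((1 : ℝ) : ℂ) := by
      rw [← h1]
      simp
    exact Complex.ofReal_injective h5
  have h4 : 0 ≤ ‖Z f x0 x1 x2 x3‖ := norm_nonneg _
  nlinarith

private theorem lin_Z (A : Op 3) (f : OrthonormalBasis (Fin 4) ℂ (E 3)) (x0 x1 x2 x3 : ℝ) :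
    Complex.I • A (Z f x0 x1 x2 x3) = (x0 : ℂ) • (Complex.I • A (f 0)) +
      (x1 : ℂ) • (Complex.I • A (f 1)) + (x2 : ℂ) • (Complex.I • A (f 2)) +
      (x3 : ℂ) • (Complex.I • A (f 3)) := by
  unfold Z
  simp only [map_add, map_smul, smul_add, smul_smul, mul_comm]

private theorem J_f {J1 J2 J3 : Op 3} (su : Su2 J1 J2 J3) (h : L22 b J1 J2 J3)
    (f : OrthonormalBasis (Fin 4) ℂ (E 3))
    (h0 : f 0 = ((1 / √2 : ℝ) : ℂ) • (b 0 + b 3))
    (h1 : f 1 = (Complex.I * ((1 / √2 : ℝ) : ℂ)) • (b 0 - b 3))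
    (h2 : f 2 = ((1 / √2 : ℝ) : ℂ) • (b 1 - b 2))
    (h3 : f 3 = (Complex.I * ((1 / √2 : ℝ) : ℂ)) • (b 1 + b 2)) (x0 x1 x2 x3 : ℝ) :
    Complex.I • J1 (Z f x0 x1 x2 x3) = Z f (-(x3 / 2)) (x2 / 2) (-(x1 / 2)) (x0 / 2) ∧
    Complex.I • J2 (Z f x0 x1 x2 x3) = Z f (x2 / 2) (x3 / 2) (-(x0 / 2)) (-(x1 / 2)) ∧
    Complex.I • J3 (Z f x0 x1 x2 x3) = Z f (-(x1 / 2)) (x0 / 2) (x3 / 2) (-(x2 / 2)) := by
  have hl := h.2
  have hu := up_ladder su h
  have l0 : lo J1 J2 (b 0) = b 1 := by have := hl 0; simpa using this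
  have l1 : lo J1 J2 (b 1) = 0 := by have := hl 1; simpa using this
  have l2 : lo J1 J2 (b 2) = b 3 := by have := hl 2; simpa using this
  have l3 : lo J1 J2 (b 3) = 0 := by have := hl 3; simpa using this
  have u1 : up J1 J2 (b 1) = b 0 := by have := hu 0; simpa using this
  have u2 : up J1 J2 (b 2) = 0 := by have := hu 1; simpa using this
  have u3 : up J1 J2 (b 3) = b 2 := by have := hu 2; simpa using this
  have u0 : up J1 J2 (b 0) = 0 := by have := hu 3; simpa using this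
  have e1 : ∀ v, J1 v = (1 / 2 : ℂ) • (lo J1 J2 v + up J1 J2 v) := by
    intro v
    show J1 v = (1 / 2 : ℂ) • ((J1 v - Complex.I • J2 v) + (J1 v + Complex.I • J2 v))
    module
  have e2 : ∀ v, Complex.I • J2 v = (1 / 2 : ℂ) • (up J1 J2 v - lo J1 J2 v) := by
    intro v
    show Complex.I • J2 v = (1 / 2 : ℂ) • ((J1 v + Complex.I • J2 v) - (J1 v - Complex.I • J2 v))
    module
  have e3 : ∀ k, J3 (b k) = ((![1 / 2, -(1 / 2), 1 / 2, -(1 / 2)] k : ℝ) : ℂ) • b k := by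
    intro k
    rw [h.1]
    exact ham_basis b _ k
  have t0 : J3 (b 0) = (1 / 2 : ℂ) • b 0 := by have := e3 0; simpa using this
  have t1 : J3 (b 1) = (-(1 / 2) : ℂ) • b 1 := by have := e3 1; simpa using this
  have t2 : J3 (b 2) = (1 / 2 : ℂ) • b 2 := by have := e3 2; simpa using this
  have t3 : J3 (b 3) = (-(1 / 2) : ℂ) • b 3 := by have := e3 3; simpa using this
  have hI : Complex.I * Complex.I = -1 := Complex.I_mul_I
  have key : ∀ (A : Op 3) (y0 y1 y2 y3 : E 3), Complex.I • A (f 0) = y0 → Complex.I • A (f 1) = y1 →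
      Complex.I • A (f 2) = y2 → Complex.I • A (f 3) = y3 →
      Complex.I • A (Z f x0 x1 x2 x3) = (x0 : ℂ) • y0 + (x1 : ℂ) • y1 + (x2 : ℂ) • y2 + (x3 : ℂ) • y3 := by
    intro A y0 y1 y2 y3 g0 g1 g2 g3
    rw [lin_Z, g0, g1, g2, g3]
  refine ⟨?_, ?_, ?_⟩
  · rw [key J1 ((1 / 2 : ℂ) • f 3) ((-(1 / 2) : ℂ) • f 2) ((1 / 2 : ℂ) • f 1) ((-(1 / 2) : ℂ) • f 0) ?_ ?_ ?_ ?_]
    · unfold Z
      push_cast
      module
    · rw [h0, h3, e1]
      simp only [map_add, map_smul, l0, l3, u0, u3]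
      module
    · rw [h1, h2, e1]
      simp only [map_sub, map_smul, l0, l3, u0, u3]
      linear_combination (norm := module) (1 / 2 * ((1 / √2 : ℝ) : ℂ) * hI) • (b 1 - b 2)
    · rw [h1, h2, e1]
      simp only [map_sub, map_smul, l1, l2, u1, u2]
      module
    · rw [h0, h3, e1]
      simp only [map_add, map_smul, l1, l2, u1, u2]
      linear_combination (norm := module) (1 / 2 * ((1 / √2 : ℝ) : ℂ) * hI) • (b 0 + b 3)
  · rw [key J2 ((-(1 / 2) : ℂ) • f 2) ((-(1 / 2) : ℂ) • f 3) ((1 / 2 : ℂ) • f 0) ((1 / 2 : ℂ) • f 1) ?_ ?_ ?_ ?_]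
    · unfold Z
      push_cast
      module
    · rw [h0, h2, e2]
      simp only [map_add, map_smul, l0, l3, u0, u3]
      module
    · rw [h1, h3, e2]
      simp only [map_sub, map_smul, l0, l3, u0, u3]
      module
    · rw [h0, h2, e2]
      simp only [map_sub, map_smul, l1, l2, u1, u2]
      module
    · rw [h1, h3, e2]
      simp only [map_add, map_smul, l1, l2, u1, u2]
      module
  · rw [key J3 ((1 / 2 : ℂ) • f 1) ((-(1 / 2) : ℂ) • f 0) ((-(1 / 2) : ℂ) • f 3) ((1 / 2 : ℂ) • f 2) ?_ ?_ ?_ ?_]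
    · unfold Z
      push_cast
      module
    · rw [h0, h1]
      simp only [map_add, map_smul, t0, t3]
      module
    · rw [h0, h1]
      simp only [map_sub, map_smul, t0, t3]
      linear_combination (norm := module) (1 / 2 * ((1 / √2 : ℝ) : ℂ) * hI) • (b 0 + b 3)
    · rw [h2, h3]
      simp only [map_sub, map_smul, t1, t2]
      module
    · rw [h2, h3]
      simp only [map_add, map_smul, t1, t2]
      linear_combination (norm := module) (-(1 / 2) * ((1 / √2 : ℝ) : ℂ) * hI) • (b 1 - b 2)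

private theorem inner_zero_of {z w : E 3} (h : inner ℂ z (Complex.I • w) = 0) : inner ℂ z w = 0 := by
  rw [inner_smul_right] at h
  exact (mul_eq_zero.1 h).resolve_left Complex.I_ne_zero

private theorem sa_smul {J : Op 3} (hJ : IsSelfAdjoint J) (a : ℝ) : IsSelfAdjoint (a • J) := by
  have h1 : IsSelfAdjoint ((a : ℂ)) := Complex.conj_ofReal a
  have h2 : a • J = (a : ℂ) • J := (Complex.coe_smul a J).symm
  rw [h2]
  exact h1.smul hJ

private theorem deriv_Z (f : OrthonormalBasis (Fin 4) ℂ (E 3)) {g0 g1 g2 g3 : ℝ → ℝ}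
    {y0 y1 y2 y3 u : ℝ} (k0 : HasDerivAt g0 y0 u) (k1 : HasDerivAt g1 y1 u)
    (k2 : HasDerivAt g2 y2 u) (k3 : HasDerivAt g3 y3 u) :
    HasDerivAt (fun u => Z f (g0 u) (g1 u) (g2 u) (g3 u)) (Z f y0 y1 y2 y3) u :=
  (((k0.ofReal_comp.smul_const (f 0)).add (k1.ofReal_comp.smul_const (f 1))).add
    (k2.ofReal_comp.smul_const (f 2))).add (k3.ofReal_comp.smul_const (f 3))

private theorem cos_half (u : ℝ) : HasDerivAt (fun u : ℝ => Real.cos (u / 2)) (-(Real.sin (u / 2)) / 2) u := by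
  have h1 := (Real.hasDerivAt_cos (u / 2)).comp u ((hasDerivAt_id u).div_const 2)
  refine h1.congr_deriv ?_
  ring

private theorem sin_half (u : ℝ) : HasDerivAt (fun u : ℝ => Real.sin (u / 2)) (Real.cos (u / 2) / 2) u := by
  have h1 := (Real.hasDerivAt_sin (u / 2)).comp u ((hasDerivAt_id u).div_const 2)
  refine h1.congr_deriv ?_
  ring

/-- rps f is in the zero level and invariant -/
theorem rps_zl {J1 J2 J3 : Op 3} (su : Su2 J1 J2 J3) (h : L22 b J1 J2 J3)
    (f : OrthonormalBasis (Fin 4) ℂ (E 3))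
    (h0 : f 0 = ((1 / √2 : ℝ) : ℂ) • (b 0 + b 3))
    (h1 : f 1 = (Complex.I * ((1 / √2 : ℝ) : ℂ)) • (b 0 - b 3))
    (h2 : f 2 = ((1 / √2 : ℝ) : ℂ) • (b 1 - b 2))
    (h3 : f 3 = (Complex.I * ((1 / √2 : ℝ) : ℂ)) • (b 1 + b 2)) :
    (∀ P ∈ rps f, ∃ z, Zl J1 J2 J3 z ∧ P = pt z) ∧
      ∀ t : ℝ, ∀ P ∈ rps f, cj (t • J2) P ∈ rps f ∧ cj (t • J3) P ∈ rps f := by
  have hJ := J_f b su h f h0 h1 h2 h3
  have hmem : ∀ {x0 x1 x2 x3 : ℝ}, x0 ^ 2 + x1 ^ 2 + x2 ^ 2 + x3 ^ 2 = 1 →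
      pt (Z f x0 x1 x2 x3) ∈ rps f := by
    intro x0 x1 x2 x3 hx
    refine ⟨![x0, x1, x2, x3], ?_, ?_⟩
    · rw [Fin.sum_univ_four]
      simpa using hx
    · rw [sum_eq_Z]
      simp
  refine ⟨?_, ?_⟩
  · rintro P ⟨x, hx, rfl⟩
    rw [Fin.sum_univ_four] at hx
    rw [sum_eq_Z]
    refine ⟨_, ⟨norm_Z f hx, inner_zero_of ?_, inner_zero_of ?_, inner_zero_of ?_⟩, rfl⟩
    · rw [(hJ _ _ _ _).1, inner_Z]
      norm_cast
      ring
    · rw [(hJ _ _ _ _).2.1, inner_Z]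
      norm_cast
      ring
    · rw [(hJ _ _ _ _).2.2, inner_Z]
      norm_cast
      ring
  · rintro t P ⟨x, hx, rfl⟩
    rw [Fin.sum_univ_four] at hx
    rw [sum_eq_Z]
    obtain ⟨-, s2, s3, -⟩ := su
    refine ⟨?_, ?_⟩
    · rw [cj_pt (sa_smul s2 t)]
      have hz : ∀ u : ℝ, HasDerivAt (fun u : ℝ => Z f (x 0 * Real.cos (u / 2) + x 2 * Real.sin (u / 2))
          (x 1 * Real.cos (u / 2) + x 3 * Real.sin (u / 2))
          (x 2 * Real.cos (u / 2) - x 0 * Real.sin (u / 2))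
          (x 3 * Real.cos (u / 2) - x 1 * Real.sin (u / 2)))
          (Complex.I • J2 (Z f (x 0 * Real.cos (u / 2) + x 2 * Real.sin (u / 2))
          (x 1 * Real.cos (u / 2) + x 3 * Real.sin (u / 2))
          (x 2 * Real.cos (u / 2) - x 0 * Real.sin (u / 2))
          (x 3 * Real.cos (u / 2) - x 1 * Real.sin (u / 2)))) u := by
        intro u
        rw [(hJ _ _ _ _).2.1]
        refine deriv_Z f ?_ ?_ ?_ ?_
        · refine (((cos_half u).const_mul (x 0)).add ((sin_half u).const_mul (x 2))).congr_deriv ?_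
          ring
        · refine (((cos_half u).const_mul (x 1)).add ((sin_half u).const_mul (x 3))).congr_deriv ?_
          ring
        · refine (((cos_half u).const_mul (x 2)).sub ((sin_half u).const_mul (x 0))).congr_deriv ?_
          ring
        · refine (((cos_half u).const_mul (x 3)).sub ((sin_half u).const_mul (x 1))).congr_deriv ?_
          ring
      have he := exp_unique J2 hz t
      rw [zero_div, Real.cos_zero, Real.sin_zero, mul_one, mul_zero, mul_one, mul_zero, mul_one, mul_zero, mul_one,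
        mul_zero, add_zero, add_zero, sub_zero, sub_zero] at he
      rw [← he]
      refine hmem ?_
      have hcs := Real.sin_sq_add_cos_sq (t / 2)
      linear_combination (x 0 ^ 2 + x 1 ^ 2 + x 2 ^ 2 + x 3 ^ 2) * hcs + hx
    · rw [cj_pt (sa_smul s3 t)]
      have hz : ∀ u : ℝ, HasDerivAt (fun u : ℝ => Z f (x 0 * Real.cos (u / 2) - x 1 * Real.sin (u / 2))
          (x 1 * Real.cos (u / 2) + x 0 * Real.sin (u / 2))
          (x 2 * Real.cos (u / 2) + x 3 * Real.sin (u / 2))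
          (x 3 * Real.cos (u / 2) - x 2 * Real.sin (u / 2)))
          (Complex.I • J3 (Z f (x 0 * Real.cos (u / 2) - x 1 * Real.sin (u / 2))
          (x 1 * Real.cos (u / 2) + x 0 * Real.sin (u / 2))
          (x 2 * Real.cos (u / 2) + x 3 * Real.sin (u / 2))
          (x 3 * Real.cos (u / 2) - x 2 * Real.sin (u / 2)))) u := by
        intro u
        rw [(hJ _ _ _ _).2.2]
        refine deriv_Z f ?_ ?_ ?_ ?_
        · refine (((cos_half u).const_mul (x 0)).sub ((sin_half u).const_mul (x 1))).congr_deriv ?_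
          ring
        · refine (((cos_half u).const_mul (x 1)).add ((sin_half u).const_mul (x 0))).congr_deriv ?_
          ring
        · refine (((cos_half u).const_mul (x 2)).add ((sin_half u).const_mul (x 3))).congr_deriv ?_
          ring
        · refine (((cos_half u).const_mul (x 3)).sub ((sin_half u).const_mul (x 2))).congr_deriv ?_
          ring
      have he := exp_unique J3 hz t
      rw [zero_div, Real.cos_zero, Real.sin_zero, mul_one, mul_zero, mul_one, mul_zero, mul_one, mul_zero, mul_one,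
        mul_zero, add_zero, add_zero, sub_zero, sub_zero] at he
      rw [← he]
      refine hmem ?_
      have hcs := Real.sin_sq_add_cos_sq (t / 2)
      linear_combination (x 0 ^ 2 + x 1 ^ 2 + x 2 ^ 2 + x 3 ^ 2) * hcs + hx

end Pool.Agent.H66.SyM
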