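import Pool.Agent.H66.SyM.Su2

/-! Highest weight vectors. -/

set_option autoImplicit false

open scoped ContDiff Topology

namespace Pool.Agent.H66.SyM

open Pool.Agent.H66.SyL

/-- The lowering operator J1 - i J2. -/
noncomputable def lo (J1 J2 : Op 3) : Op 3 := J1 - Complex.I • J2

/-- The raising operator J1 + i J2, the adjoint of lo. -/
noncomputable def up (J1 J2 : Op 3) : Op 3 := J1 + Complex.I • J2

theorem lo_app (J1 J2 : Op 3) (v : E 3) : lo J1 J2 v = J1 v - Complex.I • J2 v := rfl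

theorem up_app (J1 J2 : Op 3) (v : E 3) : up J1 J2 v = J1 v + Complex.I • J2 v := rfl

theorem br_app {A B C : Op 3} (h : br A B = -C) (v : E 3) : A (B v) = B (A v) + Complex.I • C v := by
  have h1 : (br A B) v = (-C) v := by rw [h]
  have h2 : Complex.I • (A (B v) - B (A v)) = -(C v) := h1
  have h3 : Complex.I • (Complex.I • (A (B v) - B (A v))) = Complex.I • (-(C v)) := by rw [h2]
  rw [smul_smul, Complex.I_mul_I, neg_one_smul, smul_neg, neg_inj] at h3
  rw [← h3]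
  abel

theorem sa_inner {A : Op 3} (h : IsSelfAdjoint A) (u v : E 3) :
    inner ℂ (A u) v = inner ℂ u (A v) :=
  (ContinuousLinearMap.isSelfAdjoint_iff_isSymmetric.1 h) u v

theorem lo_adj {J1 J2 J3 : Op 3} (su : Su2 J1 J2 J3) (u v : E 3) :
    inner ℂ (lo J1 J2 u) v = inner ℂ u (up J1 J2 v) := by
  obtain ⟨h1, h2, -, -, -, -⟩ := su
  rw [lo_app, up_app, inner_sub_left, inner_add_right, inner_smul_left, inner_smul_right,
    sa_inner h1, sa_inner h2, Complex.conj_I]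
  ring

theorem rel_lo {J1 J2 J3 : Op 3} (su : Su2 J1 J2 J3) (v : E 3) :
    J3 (lo J1 J2 v) = lo J1 J2 (J3 v) - lo J1 J2 v := by
  obtain ⟨-, -, -, h12, h23, h31⟩ := su
  have e1 := br_app h31 v
  have e2 := br_app h23 v
  have e3 : J3 (J2 v) = J2 (J3 v) - Complex.I • J1 v := by
    rw [e2]
    abel
  rw [lo_app, lo_app, map_sub, map_smul, e1, e3, smul_sub, smul_smul, Complex.I_mul_I,
    neg_one_smul]
  abel

theorem rel_up {J1 J2 J3 : Op 3} (su : Su2 J1 J2 J3) (v : E 3) :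
    J3 (up J1 J2 v) = up J1 J2 (J3 v) + up J1 J2 v := by
  obtain ⟨-, -, -, h12, h23, h31⟩ := su
  have e1 := br_app h31 v
  have e2 := br_app h23 v
  have e3 : J3 (J2 v) = J2 (J3 v) - Complex.I • J1 v := by
    rw [e2]
    abel
  rw [up_app, up_app, map_add, map_smul, e1, e3, smul_sub, smul_smul, Complex.I_mul_I,
    neg_one_smul]
  abel

theorem rel_ul {J1 J2 J3 : Op 3} (su : Su2 J1 J2 J3) (v : E 3) :
    up J1 J2 (lo J1 J2 v) = lo J1 J2 (up J1 J2 v) + (2 : ℂ) • J3 v := by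
  obtain ⟨-, -, -, h12, h23, h31⟩ := su
  have e1 := br_app h12 v
  rw [lo_app, up_app, up_app, lo_app]
  simp only [map_sub, map_add, map_smul]
  rw [e1]
  simp only [smul_sub, smul_add, smul_smul, Complex.I_mul_I, neg_one_smul, two_smul]
  abel

/-- the eigenvalues in `W` -/
def eigs (J3 : Op 3) (W : Submodule ℂ (E 3)) : Set ℝ :=
  {c | ∃ v ∈ W, v ≠ 0 ∧ J3 v = (c : ℂ) • v}

theorem eigs_finite (J3 : Op 3) (W : Submodule ℂ (E 3)) : (eigs J3 W).Finite := by
  have h1 : ({μ : ℂ | Module.End.HasEigenvalue (J3 : E 3 →ₗ[ℂ] E 3) μ}).Finite :=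
    Module.End.finite_hasEigenvalue _
  refine (h1.preimage (f := fun c : ℝ => (c : ℂ)) Complex.ofReal_injective.injOn).subset ?_
  rintro c ⟨v, -, hv, h⟩
  exact Module.End.hasEigenvalue_of_hasEigenvector (x := v) ⟨Module.End.mem_eigenspace_iff.2 h, hv⟩

theorem eigs_nonempty {J3 : Op 3} (h3 : IsSelfAdjoint J3) {W : Submodule ℂ (E 3)} (hW : W ≠ ⊥)
    (hi : ∀ v ∈ W, J3 v ∈ W) : (eigs J3 W).Nonempty := by
  have : Nontrivial W := Submodule.nontrivial_iff_ne_bot.2 hW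
  obtain ⟨μ, hμ⟩ := Module.End.exists_eigenvalue
    ((J3 : E 3 →ₗ[ℂ] E 3).restrict (p := W) (q := W) hi)
  obtain ⟨w, hw⟩ := hμ.exists_hasEigenvector
  have hw0 : (w : E 3) ≠ 0 := fun h => hw.2 (Subtype.ext h)
  have hw1 : J3 (w : E 3) = μ • (w : E 3) := congrArg Subtype.val hw.apply_eq_smul
  have h1 := sa_inner h3 (w : E 3) (w : E 3)
  rw [hw1, inner_smul_left, inner_smul_right] at h1
  have h2 : (inner ℂ (w : E 3) (w : E 3) : ℂ) ≠ 0 := inner_self_ne_zero.2 hw0
  have h4 : (starRingEnd ℂ) μ = μ := mul_right_cancel₀ h2 h1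
  obtain ⟨c, hc⟩ := Complex.conj_eq_iff_real.1 h4
  exact ⟨c, w, w.2, hw0, by rw [hw1, hc]⟩

theorem eig_orth {J3 : Op 3} (h3 : IsSelfAdjoint J3) {c d : ℝ} (hcd : c ≠ d) {u v : E 3}
    (hu : J3 u = (c : ℂ) • u) (hv : J3 v = (d : ℂ) • v) : inner ℂ u v = (0 : ℂ) := by
  have h1 := sa_inner h3 u v
  rw [hu, hv, inner_smul_left, inner_smul_right, Complex.conj_ofReal] at h1
  have h2 : ((c : ℂ) - d) * inner ℂ u v = 0 := by rw [sub_mul, h1, sub_self]
  rcases mul_eq_zero.1 h2 with h | h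
  · exact absurd (Complex.ofReal_injective (sub_eq_zero.1 h)) hcd
  · exact h

/-- Proof. J3 is symmetric on W (nonzero): let c be its largest eigenvalue on W and v0 a unit eigenvector.
up v0 = 0 by rel_up. v_k = lo^k v0 has J3 v_k = (c - k) v_k and up v_(k+1) = (k+1)(2c - k) v_k by
induction, so |v_(k+1)|^2 = (k+1)(2c - k) |v_k|^2. Nonzero v_k are orthogonal, so there is a
smallest m with v_(m+1) = 0, then 2c = m. e_k = v_k/|v_k|. -/
theorem chain {J1 J2 J3 : Op 3} (su : Su2 J1 J2 J3) (W : Submodule ℂ (E 3)) (hW : W ≠ ⊥)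
    (hi : ∀ v ∈ W, J1 v ∈ W ∧ J2 v ∈ W ∧ J3 v ∈ W) :
    ∃ (m : ℕ) (e : ℕ → E 3),
      (∀ i ≤ m, ∀ j ≤ m, inner ℂ (e i) (e j) = if i = j then (1 : ℂ) else 0) ∧
      (∀ i ≤ m, e i ∈ W) ∧
      (∀ i ≤ m, J3 (e i) = (((m : ℝ) / 2 - i : ℝ) : ℂ) • e i) ∧
      (∀ i < m, lo J1 J2 (e i) = ((√(((i : ℝ) + 1) * ((m : ℝ) - i)) : ℝ) : ℂ) • e (i + 1)) ∧
      lo J1 J2 (e m) = 0 ∧
      ∀ v ∈ W, ∀ c : ℝ, v ≠ 0 → J3 v = (c : ℂ) • v → c ≤ (m : ℝ) / 2 := by
  have h3 : IsSelfAdjoint J3 := su.2.2.1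
  obtain ⟨c, ⟨v0, hv0W, hv0, hJ0⟩, hmax⟩ :=
    Set.exists_max_image (eigs J3 W) id (eigs_finite J3 W)
      (eigs_nonempty h3 hW (fun v hv => (hi v hv).2.2))
  have hmax' : ∀ v ∈ W, ∀ d : ℝ, v ≠ 0 → J3 v = (d : ℂ) • v → d ≤ c :=
    fun v hv d h0 hd => hmax d ⟨v, hv, h0, hd⟩
  have hloW : ∀ v ∈ W, lo J1 J2 v ∈ W := fun v hv =>
    W.sub_mem (hi v hv).1 (W.smul_mem _ (hi v hv).2.1)
  have hupW : ∀ v ∈ W, up J1 J2 v ∈ W := fun v hv =>
    W.add_mem (hi v hv).1 (W.smul_mem _ (hi v hv).2.1)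
  have hup0 : up J1 J2 v0 = 0 := by
    by_contra hn
    have h1 : J3 (up J1 J2 v0) = ((c + 1 : ℝ) : ℂ) • up J1 J2 v0 := by
      rw [rel_up su, hJ0, map_smul]
      push_cast
      rw [add_smul, one_smul]
    have := hmax' _ (hupW v0 hv0W) (c + 1) hn h1
    linarith
  set v : ℕ → E 3 := fun k => (fun x => lo J1 J2 x)^[k] v0 with hv
  have hvs : ∀ k, v (k + 1) = lo J1 J2 (v k) := fun k => Function.iterate_succ_apply' _ _ _
  have hv00 : v 0 = v0 := rfl
  have hvW : ∀ k, v k ∈ W := by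
    intro k
    induction k with
    | zero => exact hv0W
    | succ k ih =>
      rw [hvs]
      exact hloW _ ih
  have hJ : ∀ k, J3 (v k) = ((c - k : ℝ) : ℂ) • v k := by
    intro k
    induction k with
    | zero =>
      rw [hv00, hJ0]
      simp
    | succ k ih =>
      rw [hvs, rel_lo su, ih, map_smul]
      push_cast
      rw [← sub_sub, sub_smul ((c : ℂ) - k) 1, one_smul]
  have hup : ∀ k, up J1 J2 (v (k + 1)) = ((((k : ℝ) + 1) * (2 * c - k) : ℝ) : ℂ) • v k := by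
    intro k
    induction k with
    | zero =>
      rw [hvs, rel_ul su, hv00, hup0, map_zero, hJ0, zero_add, smul_smul]
      push_cast
      congr 1
      ring
    | succ k ih =>
      rw [hvs (k + 1), rel_ul su, ih, map_smul, ← hvs, hJ, smul_smul, ← add_smul]
      congr 1
      push_cast
      ring
  have hnorm : ∀ k, ‖v (k + 1)‖ ^ 2 = (((k : ℝ) + 1) * (2 * c - k)) * ‖v k‖ ^ 2 := by
    intro k
    have h0 : inner ℂ (v (k + 1)) (v (k + 1)) = inner ℂ (lo J1 J2 (v k)) (v (k + 1)) := by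
      rw [← hvs]
    have h1 : inner ℂ (v (k + 1)) (v (k + 1)) =
        ((((k : ℝ) + 1) * (2 * c - k) : ℝ) : ℂ) * inner ℂ (v k) (v k) := by
      rw [h0, lo_adj su, hup, inner_smul_right]
    rw [inner_self_eq_norm_sq_to_K, inner_self_eq_norm_sq_to_K] at h1
    apply Complex.ofReal_injective
    push_cast at h1 ⊢
    exact h1
  have hex : ∃ k, v k = 0 := by
    by_contra hn
    push Not at hn
    have h1 : Set.range (fun k : ℕ => c - (k : ℝ)) ⊆ eigs J3 W := by
      rintro _ ⟨k, rfl⟩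
      exact ⟨v k, hvW k, hn k, hJ k⟩
    have h2 := (eigs_finite J3 W).subset h1
    exact Set.infinite_range_of_injective (fun a b h => by
      have h4 : c - (a : ℝ) = c - (b : ℝ) := h
      have h5 : (a : ℝ) = b := by linarith
      exact_mod_cast h5) h2
  classical
  obtain ⟨m, hm⟩ : ∃ m, Nat.find hex = m + 1 := by
    have h1 : Nat.find hex ≠ 0 := by
      intro h
      have := Nat.find_spec hex
      rw [h] at this
      exact hv0 this
    exact ⟨Nat.find hex - 1, by omega⟩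
  have hm1 : v (m + 1) = 0 := hm ▸ Nat.find_spec hex
  have hne : ∀ k ≤ m, v k ≠ 0 := fun k hk => Nat.find_min hex (by omega)
  have hpos : ∀ k ≤ m, 0 < ‖v k‖ := fun k hk => norm_pos_iff.2 (hne k hk)
  have h2c : 2 * c = m := by
    have h1 := hnorm m
    rw [hm1, norm_zero] at h1
    have h2 : (((m : ℝ) + 1) * (2 * c - m)) * ‖v m‖ ^ 2 = 0 := by
      rw [← h1]
      norm_num
    have h4 : ‖v m‖ ^ 2 ≠ 0 := by
      have := hpos m le_rfl
      positivity
    rcases mul_eq_zero.1 h2 with h | h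
    · rcases mul_eq_zero.1 h with h | h
      · have : (0 : ℝ) ≤ m := Nat.cast_nonneg m
        linarith
      · linarith
    · exact absurd h h4
  have hc : c = (m : ℝ) / 2 := by linarith
  refine ⟨m, fun k => ((‖v k‖⁻¹ : ℝ) : ℂ) • v k, ?_, ?_, ?_, ?_, ?_, ?_⟩
  · intro i hi' j hj
    simp only
    rw [inner_smul_left, inner_smul_right, Complex.conj_ofReal]
    by_cases hij : i = j
    · subst hij
      rw [if_pos rfl, inner_self_eq_norm_sq_to_K]
      have := (hpos i hi').ne'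
      push_cast
      have h5 : ((‖v i‖ : ℝ) : ℂ) ≠ 0 := by exact_mod_cast this
      field_simp
      rfl
    · rw [if_neg hij, eig_orth h3 (c := c - i) (d := c - j) ?_ (hJ i) (hJ j), mul_zero, mul_zero]
      intro h
      apply hij
      have h5 : (i : ℝ) = j := by linarith
      exact_mod_cast h5
  · intro i _
    exact W.smul_mem _ (hvW i)
  · intro i _
    simp only
    rw [map_smul, hJ, hc, smul_comm]
  · intro i hi'
    simp only
    rw [map_smul, ← hvs, smul_smul]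
    congr 1
    have h5 := hnorm i
    have h6 : 2 * c - i = m - i := by rw [h2c]
    rw [h6] at h5
    have h7 : ‖v (i + 1)‖ = √(((i : ℝ) + 1) * ((m : ℝ) - i)) * ‖v i‖ := by
      have h8 : (0 : ℝ) ≤ ((i : ℝ) + 1) * ((m : ℝ) - i) := by
        have : (i : ℝ) < m := by exact_mod_cast hi'
        have : (0 : ℝ) ≤ i := Nat.cast_nonneg i
        apply mul_nonneg <;> linarith
      rw [← Real.sqrt_sq (norm_nonneg (v (i + 1))), h5, Real.sqrt_mul h8,
        Real.sqrt_sq (norm_nonneg _)]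
    have h9 := hpos i hi'.le
    have h10 := hpos (i + 1) hi'
    rw [← Complex.ofReal_mul]
    congr 1
    rw [eq_mul_inv_iff_mul_eq₀ h10.ne', h7]
    field_simp
  · simp only
    rw [map_smul, ← hvs, hm1, smul_zero]
  · intro u hu d h0 hd
    rw [← hc]
    exact hmax' u hu d h0 hd

end Pool.Agent.H66.SyM
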