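import Pool.Agent.H66.SyM.Exp
import Pool.Agent.H66.SyL.Ch

/-! Tangent vectors of L. -/

set_option autoImplicit false

open scoped ContDiff Topology

namespace Pool.Agent.H66.SyM

open Pool.Agent.H66.SyL

variable {n : ℕ} {L : Set (Op n)}

/-- X is tangent to L at P: the velocity of a curve in L. -/
def Tang (L : Set (Op n)) (P X : Op n) : Prop :=
  ∃ g : ℝ → Op n, (∀ᶠ t in 𝓝 (0 : ℝ), g t ∈ L) ∧ g 0 = P ∧ HasDerivAt g X 0

/-- Tangent vectors in a chart (data as in SyL.exists_chart). Left to right: g = p o r o g near 0, so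
y = Dr X. Right to left: the curve t to p (x + t y). -/
theorem tang_iff (p : R n → Op n) (r : Op n → R n) (x0 : R n) (δ : ℝ) (U : Set (Op n))
    (hU : IsOpen U) (hp : ContDiffOn ℝ ∞ p (Metric.ball x0 δ)) (hr : ContDiffOn ℝ 1 r U)
    (h1 : ∀ x ∈ Metric.ball x0 δ, p x ∈ L ∩ U ∧ r (p x) = x)
    (h2 : ∀ Q ∈ L ∩ U, r Q ∈ Metric.ball x0 δ ∧ p (r Q) = Q)
    {x : R n} (hx : x ∈ Metric.ball x0 δ) (X : Op n) :
    Tang L (p x) X ↔ ∃ y : R n, X = fderiv ℝ p x y := by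
  have hpd : HasFDerivAt p (fderiv ℝ p x) x :=
    ((hp.differentiableOn (by norm_num)).differentiableAt (Metric.isOpen_ball.mem_nhds hx)).hasFDerivAt
  have hxU : p x ∈ U := (h1 x hx).1.2
  have hrx : r (p x) = x := (h1 x hx).2
  constructor
  · rintro ⟨g, hg, hg0, hgd⟩
    have hrd : HasFDerivAt r (fderiv ℝ r (p x)) (p x) :=
      ((hr.differentiableOn (by norm_num)).differentiableAt (hU.mem_nhds hxU)).hasFDerivAt
    have hgU : ∀ᶠ t in 𝓝 (0 : ℝ), g t ∈ U :=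
      hgd.continuousAt.eventually_mem (by rw [hg0]; exact hU.mem_nhds hxU)
    have hrg : HasDerivAt (fun t => r (g t)) (fderiv ℝ r (p x) X) 0 := by
      have hrd' : HasFDerivAt r (fderiv ℝ r (p x)) (g 0) := by
        rw [hg0]
        exact hrd
      exact hrd'.comp_hasDerivAt (0 : ℝ) hgd
    have hprg : HasDerivAt (fun t => p (r (g t))) (fderiv ℝ p x (fderiv ℝ r (p x) X)) 0 := by
      have hpd' : HasFDerivAt p (fderiv ℝ p x) (r (g 0)) := by
        rw [hg0, hrx]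
        exact hpd
      exact HasFDerivAt.comp_hasDerivAt (f := fun t => r (g t)) (0 : ℝ) hpd' hrg
    have heq : (fun t => p (r (g t))) =ᶠ[𝓝 (0 : ℝ)] g := by
      filter_upwards [hg, hgU] with t ht1 ht2
      exact (h2 (g t) ⟨ht1, ht2⟩).2
    exact ⟨fderiv ℝ r (p x) X, hgd.unique (hprg.congr_of_eventuallyEq heq.symm)⟩
  · rintro ⟨y, rfl⟩
    have hc : HasDerivAt (fun t : ℝ => x + t • y) y 0 := by
      have h3 := ((hasDerivAt_id (0 : ℝ)).smul_const y).const_add x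
      rw [one_smul] at h3
      exact h3
    have hz : x + (0 : ℝ) • y = x := by rw [zero_smul, add_zero]
    refine ⟨fun t : ℝ => p (x + t • y), ?_, ?_, ?_⟩
    · have h3 : ∀ᶠ t in 𝓝 (0 : ℝ), x + t • y ∈ Metric.ball x0 δ :=
        hc.continuousAt.eventually_mem (by rw [hz]; exact Metric.isOpen_ball.mem_nhds hx)
      exact h3.mono fun t ht => (h1 _ ht).1.1
    · show p (x + (0 : ℝ) • y) = p x
      rw [hz]
    · have hpd' : HasFDerivAt p (fderiv ℝ p x) (x + (0 : ℝ) • y) := by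
        rw [hz]
        exact hpd
      exact HasFDerivAt.comp_hasDerivAt (f := fun t : ℝ => x + t • y) (0 : ℝ) hpd' hc

private theorem tang_chart (hL : IsLagrangian L) {P : Op n} (hP : P ∈ L) :
    ∃ (p : R n → Op n) (x : R n), ∀ X : Op n, Tang L P X ↔ ∃ y : R n, X = fderiv ℝ p x y := by
  obtain ⟨p, r, x0, δ, U, hδ, hU, _, hp, hr, hx0, h1, h2⟩ := exists_chart hL hP
  refine ⟨p, x0, fun X => ?_⟩
  have h3 := tang_iff p r x0 δ U hU hp hr (fun x hx => ⟨(h1 x hx).1, (h1 x hx).2.1⟩) h2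
    (Metric.mem_ball_self hδ) X
  rw [hx0] at h3
  exact h3

/-- by tang_iff and exists_chart -/
theorem tang_add (hL : IsLagrangian L) {P X Y : Op n} (hP : P ∈ L) (hX : Tang L P X)
    (hY : Tang L P Y) : Tang L P (X + Y) := by
  obtain ⟨p, x, h⟩ := tang_chart hL hP
  obtain ⟨y, rfl⟩ := (h X).1 hX
  obtain ⟨z, rfl⟩ := (h Y).1 hY
  exact (h _).2 ⟨y + z, (map_add _ _ _).symm⟩

theorem tang_smul (hL : IsLagrangian L) {P X : Op n} (hP : P ∈ L) (c : ℝ) (hX : Tang L P X) :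
    Tang L P (c • X) := by
  obtain ⟨p, x, h⟩ := tang_chart hL hP
  obtain ⟨y, rfl⟩ := (h X).1 hX
  exact (h _).2 ⟨c • y, (map_smul _ _ _).symm⟩

/-- the curve t to cj (t H) P, hasDerivAt_cj -/
theorem tang_of_symm {H : Op n} (hs : Symm L H) {P : Op n} (hP : P ∈ L) : Tang L P (br H P) := by
  have h00 : (0 : ℝ) • H = 0 := zero_smul ℝ H
  have h0 : cj ((0 : ℝ) • H) P = P := by rw [h00, cj_zero]
  refine ⟨fun t : ℝ => cj (t • H) P, Filter.Eventually.of_forall fun t => hs.2 t P hP, h0, ?_⟩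
  have h1 := hasDerivAt_cj H P 0
  rw [h0] at h1
  exact h1

end Pool.Agent.H66.SyM
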